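import Pool.Agent.Lib.MP_a147dc_co.Walsh

/-! Weighted form of the sieve estimate. -/

namespace Pool.Agent.Lib.MP_a147dc_co

open Polynomial Finset

/-- fourth root -/
noncomputable def rt (t : ℝ) : ℝ := t ^ (1 / 4 : ℝ)

lemma rt_nonneg {t : ℝ} (h : 0 ≤ t) : 0 ≤ rt t := Real.rpow_nonneg h _

lemma rt_pow {t : ℝ} (h : 0 ≤ t) : rt t ^ 4 = t := by
  unfold rt
  rw [← Real.rpow_natCast, ← Real.rpow_mul h]; norm_num

lemma rt_pos {t : ℝ} (h : 0 < t) : 0 < rt t := Real.rpow_pos_of_pos h _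

lemma rt_div {s t : ℝ} (hs : 0 ≤ s) (ht : 0 ≤ t) : rt (s / t) = rt s / rt t :=
  Real.div_rpow hs ht _

lemma le_of_pow4 {a b : ℝ} (hb : 0 ≤ b) (h : a ^ 4 ≤ b ^ 4) : a ≤ b :=
  le_of_pow_le_pow_left₀ (by norm_num) hb h

lemma rt_mono {s t : ℝ} (hs : 0 ≤ s) (h : s ≤ t) : rt s ≤ rt t :=
  Real.rpow_le_rpow hs h (by norm_num)

/-- the weight function -/
noncomputable def om (i : ℕ) (μ : ℝ) : ℝ := min (rt μ ^ 3) (μ * 2 ^ (i + 1))

lemma om_nonneg (i : ℕ) {μ : ℝ} (h : 0 ≤ μ) : 0 ≤ om i μ :=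
  le_min (pow_nonneg (rt_nonneg h) _) (by positivity)

lemma om_le_sum (i : ℕ) {μ : ℝ} (h0 : 0 ≤ μ) (h1 : μ ≤ 1) :
    om i μ ≤ ∑ j ∈ range (i + 1), (1 / 8 : ℝ) ^ j * min 1 ((16 ^ (j + 1) : ℕ) * μ) := by
  have hnn : ∀ j ∈ range (i + 1), 0 ≤ (1 / 8 : ℝ) ^ j * min 1 ((16 ^ (j + 1) : ℕ) * μ) :=
    fun j _ => mul_nonneg (by positivity) (le_min zero_le_one (by positivity))
  by_cases hc : (16 : ℝ) ^ (i + 1) * μ ≤ 1
  · refine le_trans ?_ (single_le_sum hnn (self_mem_range_succ i))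
    refine (min_le_right _ _).trans ?_
    push_cast
    rw [min_eq_right hc]
    have : (1 / 8 : ℝ) ^ i * 16 ^ i = 2 ^ i := by rw [← mul_pow]; norm_num
    calc μ * 2 ^ (i + 1) = 2 * (2 ^ i * μ) := by ring
      _ ≤ 16 * (2 ^ i * μ) := by gcongr; norm_num
      _ = _ := by rw [← this]; ring
  · have hex : ∃ j, 1 < (16 : ℝ) ^ (j + 1) * μ := ⟨i, not_le.1 hc⟩
    have hj := Nat.find_spec hex
    have hji : Nat.find hex ≤ i := Nat.find_min' hex (not_le.1 hc)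
    have hj' : (16 : ℝ) ^ (Nat.find hex) * μ ≤ 1 := by
      rcases Nat.eq_zero_or_pos (Nat.find hex) with h | h
      · rw [h]; simpa using h1
      · have := Nat.find_min hex (show Nat.find hex - 1 < Nat.find hex by omega)
        rw [Nat.sub_add_cancel h] at this
        exact not_lt.1 this
    generalize Nat.find hex = j at *
    refine le_trans ?_ (single_le_sum hnn (mem_range.2 (Nat.lt_succ_of_le hji)))
    refine (min_le_left _ _).trans ?_
    push_cast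
    rw [min_eq_left hj.le, mul_one]
    have h2 : rt μ ≤ (1 / 2) ^ j := by
      apply le_of_pow4 (by positivity)
      rw [rt_pow h0, ← pow_mul, mul_comm, pow_mul]
      have : (1 / 2 : ℝ) ^ 4 = 16⁻¹ := by norm_num
      rw [this, inv_pow, ← one_div, le_div_iff₀ (by positivity)]
      linarith
    calc rt μ ^ 3 ≤ ((1 / 2) ^ j) ^ 3 := pow_le_pow_left₀ (rt_nonneg h0) h2 _
      _ = _ := by rw [← pow_mul, mul_comm, pow_mul]; norm_num

lemma walsh_om {S U : Finset (ℤ × ℤ)} {m L i Z D : ℕ} (hm : 1 ≤ m) (hB : InBox S m)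
    (hL : m ≤ 2 ^ L) (hL1 : 1 ≤ L) (hU : U ⊆ S) (hU0 : 0 < U.card)
    (hZ : ∀ f : ℤ[X][X], f ≠ 0 → (∀ j, (f.coeff j).natDegree ≤ 2 * 4 ^ (i + 1)) →
      f.natDegree ≤ 2 * 4 ^ (i + 1) → (S.filter fun x => f.evalEval x.1 x.2 = 0).card ≤ Z)
    (hZU : Z * 16 ^ (i + 1) ≤ U.card)
    {Q : Finset (ℕ × ℕ)} (hQ : ∀ q ∈ Q, q.1.Prime ∧ 1 ≤ q.2) :
    ∑ x ∈ U, ∑ q ∈ Q, om i ((nb U (D * q.1 ^ q.2) x : ℝ) / U.card) ≤ 300 * L * U.card := by
  have hN : (0 : ℝ) < U.card := by exact_mod_cast hU0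
  have step : ∀ j ∈ range (i + 1), ∑ x ∈ U, ∑ q ∈ Q,
      min (1 : ℝ) ((16 ^ (j + 1) : ℕ) * ((nb U (D * q.1 ^ q.2) x : ℝ) / U.card)) ≤
      136 * 4 ^ j * (L * U.card) := by
    intro j hj
    have hji : j + 1 ≤ i + 1 := by have := mem_range.1 hj; omega
    obtain ⟨a, ha⟩ : ∃ a, a + 1 = 2 * 4 ^ (j + 1) := ⟨2 * 4 ^ (j + 1) - 1, by
      have : 0 < 4 ^ (j + 1) := by positivity
      omega⟩
    have hae : a ≤ 2 * 4 ^ (i + 1) := by
      have := Nat.pow_le_pow_right (by norm_num : 0 < 4) hji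
      omega
    have h16 : (16 : ℕ) ^ (j + 1) = 4 ^ (j + 1) * 4 ^ (j + 1) := by rw [← mul_pow]; norm_num
    have := walsh_avg (D := D) (r := 16 ^ (j + 1)) (a := a) (Λ := 8 * (a + 1) * L) (Z := Z) hm hB hL hU
      hU0 (Nat.one_le_pow _ _ (by norm_num)) (by rw [ha, h16]; nlinarith [Nat.zero_le (4 ^ (j + 1))])
      (by
        have h1 : a + 1 ≤ 2 ^ ((a + 1) * L) :=
          (Nat.lt_two_pow_self).le.trans (Nat.pow_le_pow_right (by norm_num)
            (Nat.le_mul_of_pos_right _ hL1))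
        have h2 : m ^ (a + a) ≤ 2 ^ (2 * ((a + 1) * L)) := by
          calc m ^ (a + a) ≤ (2 ^ L) ^ (a + a) := Nat.pow_le_pow_left hL _
            _ = 2 ^ (L * (a + a)) := by rw [← pow_mul]
            _ ≤ _ := Nat.pow_le_pow_right (by norm_num) (by nlinarith)
        calc _ ≤ (2 ^ ((a + 1) * L) * 2 ^ ((a + 1) * L) * 2 ^ (2 * ((a + 1) * L))) ^ 2 := by gcongr
          _ = _ := by rw [← pow_add, ← pow_add, ← pow_mul]; congr 1; ring)
      (fun f hf hd => hZ f hf (fun j => (hd.2 j).trans hae) (hd.1.trans hae)) hQ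
    refine this.trans ?_
    have hZ' : (Z : ℝ) * (16 ^ (j + 1) : ℕ) ≤ U.card := by
      have : Z * 16 ^ (j + 1) ≤ U.card :=
        (Nat.mul_le_mul_left _ (Nat.pow_le_pow_right (by norm_num) hji)).trans hZU
      exact_mod_cast this
    have e1 : ((8 * (a + 1) * L : ℕ) : ℝ) = 64 * 4 ^ j * L := by
      rw [ha]; push_cast; ring
    have h4 : (1 : ℝ) ≤ 4 ^ j := one_le_pow₀ (by norm_num)
    have hL0 : (0 : ℝ) ≤ L := by positivity
    rw [e1]
    have h5 : (Z : ℝ) * ((16 ^ (j + 1) : ℕ) * L) ≤ 4 ^ j * (L * U.card) := by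
      calc _ = (Z : ℝ) * (16 ^ (j + 1) : ℕ) * L := by ring
        _ ≤ U.card * L := by gcongr
        _ = 1 * (L * U.card) := by ring
        _ ≤ _ := by gcongr
    have h6 : (0 : ℝ) ≤ 4 ^ j * (L * U.card) := by positivity
    nlinarith
  calc _ ≤ ∑ x ∈ U, ∑ q ∈ Q, ∑ j ∈ range (i + 1), (1 / 8 : ℝ) ^ j *
        min 1 ((16 ^ (j + 1) : ℕ) * ((nb U (D * q.1 ^ q.2) x : ℝ) / U.card)) := by
        refine sum_le_sum fun x _ => sum_le_sum fun q _ => om_le_sum i (by positivity) ?_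
        rw [div_le_one hN]; exact_mod_cast nb_le _ _ _
    _ = ∑ j ∈ range (i + 1), (1 / 8 : ℝ) ^ j * ∑ x ∈ U, ∑ q ∈ Q,
        min 1 ((16 ^ (j + 1) : ℕ) * ((nb U (D * q.1 ^ q.2) x : ℝ) / U.card)) := by
        simp only [mul_sum]
        rw [sum_comm (s := range (i + 1))]
        exact sum_congr rfl fun x _ => sum_comm
    _ ≤ ∑ j ∈ range (i + 1), 136 * (L * U.card) * (1 / 2 : ℝ) ^ j := by
        refine sum_le_sum fun j hj => ?_
        have : (1 / 8 : ℝ) ^ j * 4 ^ j = (1 / 2) ^ j := by rw [← mul_pow]; norm_num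
        calc _ ≤ (1 / 8 : ℝ) ^ j * (136 * 4 ^ j * (L * U.card)) := by gcongr; exact step j hj
          _ = _ := by rw [← this]; ring
    _ ≤ 136 * (L * U.card) * 2 := by
        rw [← mul_sum]; gcongr; exact sum_geometric_two_le _
    _ ≤ _ := by have : (0 : ℝ) ≤ L * U.card := by positivity
                linarith

lemma om_large {i : ℕ} {N M M' n' : ℝ} (hM : 0 < M) (hMN : M ≤ N) (hn : 0 ≤ n') (hM' : 0 ≤ M')
    (h2 : M' ≤ 2 * n') (hT : N ≤ 16 ^ (i + 1) * M') :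
    rt M' ^ 3 ≤ 4 * (rt M ^ 3 * om i (n' / M)) := by
  have hu := rt_pos hM
  have hv := rt_nonneg hn
  have hw := rt_nonneg hM'
  have e1 := rt_pow hM.le
  have e2 := rt_pow hn
  have e3 := rt_pow hM'
  unfold om
  rw [rt_div hn hM.le]
  have e4 : n' / M = rt n' ^ 4 / rt M ^ 4 := by rw [e1, e2]
  rw [e4]
  have hτ : (16 : ℝ) ^ (i + 1) = (2 ^ (i + 1)) ^ 4 := by
    rw [← pow_mul, mul_comm, pow_mul]; norm_num
  rw [hτ] at hT
  have hτ0 : (0 : ℝ) < 2 ^ (i + 1) := by positivity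
  generalize (2 : ℝ) ^ (i + 1) = τ at *
  generalize rt M = u at *
  generalize rt n' = v at *
  generalize rt M' = w at *
  have h3 : w ^ 3 ≤ 2 * v ^ 3 := by
    apply le_of_pow4 (by positivity)
    calc (w ^ 3) ^ 4 = (w ^ 4) ^ 3 := by ring
      _ ≤ (2 * v ^ 4) ^ 3 := by gcongr; rw [e2, e3]; exact h2
      _ = 8 * v ^ 12 := by ring
      _ ≤ 16 * v ^ 12 := by gcongr; norm_num
      _ = _ := by ring
  have h4 : u ≤ 2 * (v * τ) := by
    apply le_of_pow4 (by positivity)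
    calc u ^ 4 ≤ τ ^ 4 * M' := by rw [e1]; linarith
      _ ≤ τ ^ 4 * (2 * v ^ 4) := by gcongr; rw [e2]; exact h2
      _ = 2 * (v * τ) ^ 4 := by ring
      _ ≤ 16 * (v * τ) ^ 4 := by gcongr; norm_num
      _ = _ := by ring
  rw [mul_min_of_nonneg _ _ (by positivity), mul_min_of_nonneg _ _ (by norm_num)]
  apply le_min
  · have : u ^ 3 * (v / u) ^ 3 = v ^ 3 := by field_simp
    rw [this]; have := pow_nonneg hv 3; linarith
  · have : 4 * (u ^ 3 * (v ^ 4 / u ^ 4 * τ)) = 2 * v ^ 3 * (2 * (v * τ) / u) := by field_simp; ring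
    rw [this]
    refine h3.trans (le_mul_of_one_le_right (by positivity) ((one_le_div hu).2 h4))

lemma om_small {i : ℕ} {N M n' : ℝ} (hM : 0 < M) (hMN : M ≤ N) (hn : 0 ≤ n')
    (hT : 16 ^ (i + 1) * n' ≤ N) :
    n' ≤ rt N / 2 ^ (i + 1) * (rt M ^ 3 * om i (n' / M)) := by
  have hu := rt_pos hM
  have hv := rt_nonneg hn
  have hy := rt_mono hM.le hMN
  have e1 := rt_pow hM.le
  have e2 := rt_pow hn
  have e3 := rt_pow (hM.le.trans hMN)
  unfold om
  rw [rt_div hn hM.le]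
  have e4 : n' / M = rt n' ^ 4 / rt M ^ 4 := by rw [e1, e2]
  rw [e4]
  have hτ : (16 : ℝ) ^ (i + 1) = (2 ^ (i + 1)) ^ 4 := by
    rw [← pow_mul, mul_comm, pow_mul]; norm_num
  rw [hτ] at hT
  have hτ0 : (0 : ℝ) < 2 ^ (i + 1) := by positivity
  generalize (2 : ℝ) ^ (i + 1) = τ at *
  generalize rt M = u at *
  generalize rt n' = v at *
  generalize rt N = y at *
  have hy0 : 0 < y := hu.trans_le hy
  have h4 : v * τ ≤ y := by
    apply le_of_pow4 hy0.le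
    rw [mul_pow, e2, e3]; linarith
  rw [mul_min_of_nonneg _ _ (by positivity), mul_min_of_nonneg _ _ (by positivity), ← e2]
  apply le_min
  · have : y / τ * (u ^ 3 * (v / u) ^ 3) = v ^ 3 * (y / τ) := by field_simp
    rw [this, pow_succ]
    gcongr
    rw [le_div_iff₀ hτ0]; exact h4
  · have : y / τ * (u ^ 3 * (v ^ 4 / u ^ 4 * τ)) = v ^ 4 * (y / u) := by field_simp
    rw [this]
    exact le_mul_of_one_le_right (by positivity) ((one_le_div hu).2 hy)

lemma factorial_card_le_prod (s : Finset ℕ) (hs : ∀ a ∈ s, 1 ≤ a) :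
    s.card.factorial ≤ ∏ a ∈ s, a := by
  induction s using Finset.induction_on_max with
  | empty => simp
  | insert a s ha ih =>
    have hna : a ∉ s := fun h => lt_irrefl _ (ha a h)
    rw [card_insert_of_notMem hna, prod_insert hna, Nat.factorial_succ]
    have h1 : s.card ≤ (Ico 1 a).card := card_le_card fun b hb =>
      mem_Ico.2 ⟨hs b (mem_insert_of_mem hb), ha b hb⟩
    have h2 := hs a (mem_insert_self _ _)
    rw [Nat.card_Ico] at h1
    exact Nat.mul_le_mul (by omega) (ih fun b hb => hs b (mem_insert_of_mem hb))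

lemma factorial_omega_le {d : ℕ} (hd : d ≠ 0) : d.primeFactors.card.factorial ≤ d :=
  (factorial_card_le_prod _ fun _ ha => (Nat.prime_of_mem_primeFactors ha).one_le).trans
    (Nat.le_of_dvd (Nat.pos_of_ne_zero hd) (Nat.prod_primeFactors_dvd d))

lemma two_pow_omega_le {d : ℕ} (hd : d ≠ 0) : 2 ^ d.primeFactors.card ≤ d := by
  refine le_trans ?_ (Nat.le_of_dvd (Nat.pos_of_ne_zero hd) (Nat.prod_primeFactors_dvd d))
  rw [← prod_const]
  exact prod_le_prod' fun p hp => (Nat.prime_of_mem_primeFactors hp).two_le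

end Pool.Agent.Lib.MP_a147dc_co
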