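import Pool.Agent.Lib.MP_a147dc_co.Curve2
import Pool.Agent.Lib.MP_a147dc_co.Walsh2

/-! Numerical estimates. -/

namespace Pool.Agent.Lib.MP_a147dc_co

open Filter

lemma XiC_lt {m e L : ℕ} (hL : m ≤ 2 ^ L) (hL1 : 1 ≤ L) :
    (64 * (e + 1) ^ 3 * L + 1) * XiC m e < 2 ^ (64 * (e + 1) ^ 3 * L) := by
  set g := e + 1 with hg
  have hg1 : 1 ≤ g := by omega
  have h1 : g ≤ 2 ^ (g * L) :=
    (Nat.lt_two_pow_self).le.trans (Nat.pow_le_pow_right (by norm_num) (Nat.le_mul_of_pos_right _ hL1))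
  have h1' : e ≤ 2 ^ (g * L) := le_trans (by omega) h1
  have h2 : m ^ (e + e) ≤ 2 ^ (2 * (g * L)) := by
    calc m ^ (e + e) ≤ (2 ^ L) ^ (e + e) := Nat.pow_le_pow_left hL _
      _ = 2 ^ (L * (e + e)) := by rw [← pow_mul]
      _ ≤ _ := Nat.pow_le_pow_right (by norm_num) (by rw [hg]; nlinarith)
  have h3 : g * g * m ^ (e + e) ≤ 2 ^ (4 * (g * L)) := by
    calc _ ≤ 2 ^ (g * L) * 2 ^ (g * L) * 2 ^ (2 * (g * L)) := by gcongr
      _ = _ := by rw [← pow_add, ← pow_add]; congr 1; ring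
  have hw : g * L ≤ g ^ 3 * L := Nat.mul_le_mul_right _ (Nat.le_self_pow (by norm_num) g)
  have hw1 : 1 ≤ g * L := Nat.mul_pos hg1 hL1
  have h4 : XiC m e ≤ 2 ^ (32 * g ^ 3 * L) := by
    unfold XiC
    rw [← hg]
    calc _ ≤ 2 ^ 2 * (2 ^ (4 * (g * L)) * (2 ^ (g * L) * (2 ^ (g * L) *
          (2 ^ (4 * (g * L))) ^ (g * g)))) ^ 3 := by gcongr; norm_num
      _ = 2 ^ (2 + 18 * (g * L) + 12 * (g ^ 3 * L)) := by
          simp only [← pow_mul, ← pow_add]; congr 1; ring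
      _ ≤ _ := Nat.pow_le_pow_right (by norm_num) (by nlinarith)
  set w := 32 * g ^ 3 * L with hwd
  have hw2 : 32 ≤ w := by rw [hwd]; nlinarith
  have e1 : 64 * g ^ 3 * L = w + w := by rw [hwd]; ring
  have h5 : w + w + 1 < 2 ^ w := by
    obtain ⟨v, hv⟩ : ∃ v, w = v + 2 := ⟨w - 2, by omega⟩
    have := Nat.lt_two_pow_self (n := v)
    rw [hv, pow_add]; omega
  rw [e1, pow_add]
  exact Nat.mul_lt_mul_of_lt_of_le h5 h4 (by positivity)

lemma gamma_bound (M : ℕ) (hM : 1 ≤ M) : ∃ t₀ : ℕ, ∀ t ≥ t₀, ∀ k : ℕ, k.factorial ≤ t ^ M →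
    300 * ((M * (Nat.log 2 t + 1) : ℕ) : ℝ) * ((M * (Nat.log 2 t + 1) : ℕ) + 1) *
      ((1200 * ((M * (Nat.log 2 t + 1) : ℕ) : ℝ)) ^ k / k.factorial) ≤ t := by
  set lam : ℝ := 9600 * M with hlam
  have hMr : (1 : ℝ) ≤ M := by exact_mod_cast hM
  have hlam0 : 0 < lam := by positivity
  set G : ℝ := lam ^ (4 * M) with hG
  set K : ℝ := 1200 * M ^ 2 * Real.exp G with hK
  have hK0 : 0 < K := by positivity
  have hlim := tendsto_pow_const_div_const_pow_of_one_lt 4 (show (1 : ℝ) < 2 by norm_num)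
  obtain ⟨l₀, hl₀⟩ := eventually_atTop.1 (hlim.eventually (gt_mem_nhds
    (show (0 : ℝ) < 1 / K ^ 2 by positivity)))
  refine ⟨2 ^ l₀, fun t ht k hk => ?_⟩
  set l := Nat.log 2 t + 1 with hl
  have ht0 : t ≠ 0 := by have : 0 < 2 ^ l₀ := by positivity
                         omega
  have hll : l₀ ≤ l := (Nat.le_log_of_pow_le (by norm_num) ht).trans (Nat.le_succ _)
  have hl1 : (1 : ℝ) ≤ l := by exact_mod_cast (by omega : 1 ≤ l)
  have htl : (t : ℝ) ≤ 2 ^ l := by exact_mod_cast (Nat.lt_pow_succ_log_self (by norm_num) t).le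
  have htl' : (2 : ℝ) ^ l ≤ 2 * t := by
    rw [hl, pow_succ, mul_comm]; gcongr; exact_mod_cast Nat.pow_log_le_self 2 ht0
  set w := rt (2 ^ l) with hw
  have hw0 : 0 < w := rt_pos (by positivity)
  have hw4 : w ^ 4 = 2 ^ l := rt_pow (by positivity)
  have hkf : (0 : ℝ) < k.factorial := by exact_mod_cast k.factorial_pos
  have a1 : Real.exp (l / 8) ≤ w := by
    apply le_of_pow4 hw0.le
    rw [hw4, ← Real.exp_nat_mul]
    have : ((4 : ℕ) : ℝ) * (l / 8) = l * (1 / 2) := by push_cast; ring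
    rw [this, Real.exp_nat_mul]
    apply pow_le_pow_left₀ (Real.exp_pos _).le
    have h1 := Real.exp_one_lt_d9
    have h2 : Real.exp (1 / 2) ^ 2 = Real.exp 1 := by rw [← Real.exp_nat_mul]; norm_num
    nlinarith [Real.exp_pos (1 / 2)]
  have a2 : lam ^ k ≤ Real.exp G * w := by
    apply le_of_pow_le_pow_left₀ (n := 4 * M) (by omega) (by positivity)
    have b1 : G ^ k / k.factorial ≤ Real.exp G := Real.pow_div_factorial_le_exp G (by positivity) k
    have b2 : (k.factorial : ℝ) ≤ (w ^ 4) ^ M := by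
      rw [hw4]
      calc (k.factorial : ℝ) ≤ (t : ℝ) ^ M := by exact_mod_cast hk
        _ ≤ _ := by gcongr
    rw [div_le_iff₀ hkf] at b1
    have b3 : 1 ≤ Real.exp G := Real.one_le_exp (by positivity)
    calc (lam ^ k) ^ (4 * M) = G ^ k := by rw [hG, ← pow_mul, ← pow_mul, mul_comm]
      _ ≤ Real.exp G * (w ^ 4) ^ M := b1.trans (by gcongr)
      _ ≤ Real.exp G ^ (4 * M) * (w ^ 4) ^ M := by gcongr; exact le_self_pow₀ b3 (by omega)
      _ = _ := by rw [mul_pow, ← pow_mul]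
  have a3 : (1200 * ((M * l : ℕ) : ℝ)) ^ k / k.factorial ≤ Real.exp G * w * w := by
    have : (1200 * ((M * l : ℕ) : ℝ)) ^ k / k.factorial = lam ^ k * ((l / 8 : ℝ) ^ k / k.factorial) := by
      rw [← mul_div_assoc, ← mul_pow]; congr 2; rw [hlam]; push_cast; ring
    rw [this]
    exact mul_le_mul a2 ((Real.pow_div_factorial_le_exp _ (by positivity) k).trans a1)
      (by positivity) (by positivity)
  have a4 : K * l ^ 2 ≤ w ^ 2 := by
    apply le_of_pow_le_pow_left₀ (n := 2) (by omega) (by positivity)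
    have := (hl₀ l hll).le
    rw [div_le_div_iff₀ (by positivity) (by positivity)] at this
    calc (K * l ^ 2) ^ 2 = (l : ℝ) ^ 4 * K ^ 2 := by ring
      _ ≤ 1 * 2 ^ l := this
      _ = _ := by rw [← hw4]; ring
  have a5 : ((M * l : ℕ) : ℝ) + 1 ≤ 2 * (M * l) := by
    push_cast; nlinarith
  calc _ ≤ 300 * ((M * l : ℕ) : ℝ) * (2 * (M * l)) * (Real.exp G * w * w) := by gcongr
    _ = (K * l ^ 2) * w ^ 2 / 2 := by rw [hK]; push_cast; ring
    _ ≤ w ^ 2 * w ^ 2 / 2 := by gcongr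
    _ = 2 ^ l / 2 := by rw [← hw4]; ring
    _ ≤ t := by linarith

lemma exists_sixteen_pow {t s : ℕ} (ht : 1 ≤ t) :
    ∃ i, t ^ (4 * s) ≤ 16 ^ (i + 1) ∧ 16 ^ (i + 1) ≤ 16 * t ^ (4 * s) := by
  have h0 : t ^ (4 * s) ≠ 0 := by positivity
  refine ⟨Nat.log 16 (t ^ (4 * s)), (Nat.lt_pow_succ_log_self (by norm_num) _).le, ?_⟩
  rw [pow_succ, mul_comm]
  exact Nat.mul_le_mul_left _ (Nat.pow_log_le_self 16 h0)

end Pool.Agent.Lib.MP_a147dc_co
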