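import Pool.Agent.Lib.MP_a147dc_co.Defs

/-! The deletion method and normalised collinear triples. -/

namespace Pool.Agent.Lib.MP_a147dc_co

open Finset

lemma weight_sum {V : Type*} [DecidableEq V] (W E : Finset V) (hE : E ⊆ W) (π : ℝ) :
    ∑ A ∈ W.powerset, (if E ⊆ A then π ^ A.card * (1 - π) ^ (W \ A).card else 0) = π ^ E.card := by
  have h := prod_add (fun _ : V => π) (fun x => if x ∈ E then 0 else 1 - π) W
  have h1 : ∏ x ∈ W, (π + if x ∈ E then 0 else 1 - π) = π ^ E.card := by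
    rw [← prod_sdiff hE, prod_eq_one, one_mul, ← prod_const]
    · exact prod_congr rfl fun x hx => by simp [hx]
    · intro x hx; simp [(mem_sdiff.1 hx).2]
  rw [← h1, h]
  refine sum_congr rfl fun A _ => ?_
  split_ifs with hA
  · rw [prod_const, ← prod_const (1 - π)]
    congr 1
    exact prod_congr rfl fun x hx => by
      rw [if_neg fun h => (mem_sdiff.1 hx).2 (hA h)]
  · obtain ⟨x, hx, hxA⟩ := not_subset.1 hA
    rw [prod_eq_zero (mem_sdiff.2 ⟨hE hx, hxA⟩) (by simp [hx]), mul_zero]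

lemma deletion {V : Type*} [DecidableEq V] (W : Finset V) (T : Finset (V × V × V)) (α : ℕ)
    (hT : ∀ t ∈ T, t.1 ∈ W ∧ t.2.1 ∈ W ∧ t.2.2 ∈ W ∧ t.1 ≠ t.2.1 ∧ t.1 ≠ t.2.2 ∧ t.2.1 ≠ t.2.2)
    (hα : ∀ G ⊆ W, (∀ t ∈ T, ¬ (t.1 ∈ G ∧ t.2.1 ∈ G ∧ t.2.2 ∈ G)) → G.card ≤ α)
    {π : ℝ} (h0 : 0 ≤ π) (h1 : π ≤ 1) : π * W.card - π ^ 3 * T.card ≤ α := by
  have hA : ∀ A ∈ W.powerset, (∑ x ∈ W, if ({x} : Finset V) ⊆ A then (1 : ℝ) else 0) -
      (∑ t ∈ T, if ({t.1, t.2.1, t.2.2} : Finset V) ⊆ A then (1 : ℝ) else 0) ≤ α := by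
    intro A hA
    rw [mem_powerset] at hA
    rw [sum_boole, sum_boole]
    have e : (W.filter fun x => ({x} : Finset V) ⊆ A) = A := by
      ext x; simp only [mem_filter, singleton_subset_iff]; exact ⟨fun h => h.2, fun h => ⟨hA h, h⟩⟩
    rw [e]
    set T' := T.filter fun t => ({t.1, t.2.1, t.2.2} : Finset V) ⊆ A with hT'
    have h2 := hα (A \ T'.image Prod.fst) (sdiff_subset.trans hA) (by
      rintro t ht ⟨a1, a2, a3⟩
      apply (mem_sdiff.1 a1).2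
      refine mem_image_of_mem _ (mem_filter.2 ⟨ht, ?_⟩)
      intro x hx
      simp only [mem_insert, mem_singleton] at hx
      rcases hx with rfl | rfl | rfl
      exacts [(mem_sdiff.1 a1).1, (mem_sdiff.1 a2).1, (mem_sdiff.1 a3).1])
    have h3 := le_card_sdiff (T'.image Prod.fst) A
    have h4 := card_image_le (s := T') (f := Prod.fst)
    have : A.card ≤ α + T'.card := by omega
    have : (A.card : ℝ) ≤ α + T'.card := by exact_mod_cast this
    linarith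
  have hw : ∀ A : Finset V, 0 ≤ π ^ A.card * (1 - π) ^ (W \ A).card :=
    fun A => mul_nonneg (pow_nonneg h0 _) (pow_nonneg (by linarith) _)
  have h2 := sum_le_sum fun A hA' => mul_le_mul_of_nonneg_left (hA A hA') (hw A)
  have e0 := weight_sum W ∅ (empty_subset _) π
  simp only [empty_subset, if_true, card_empty, pow_zero] at e0
  rw [← sum_mul, e0, one_mul] at h2
  refine le_trans (le_of_eq ?_) h2
  simp only [mul_sub, sum_sub_distrib, mul_sum, mul_ite, mul_one, mul_zero]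
  rw [sum_comm, sum_comm (s := W.powerset)]
  congr 1
  · rw [sum_congr rfl (g := fun _ => π) fun x hx => by
      rw [weight_sum W {x} (singleton_subset_iff.2 hx)]; simp]
    rw [sum_const, nsmul_eq_mul, mul_comm]
  · rw [sum_congr rfl (g := fun _ => π ^ 3) fun t ht => by
      obtain ⟨a1, a2, a3, a4, a5, a6⟩ := hT t ht
      rw [weight_sum W _ (by
        intro x hx
        simp only [mem_insert, mem_singleton] at hx
        rcases hx with rfl | rfl | rfl <;> assumption),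
        card_eq_three.2 ⟨_, _, _, a4, a5, a6, rfl⟩]]
    rw [sum_const, nsmul_eq_mul, mul_comm]

/-- `z` lies between `x` and `y` with ratio `b / c` in lowest terms -/
def Wit (x y z : ℤ × ℤ) (b c : ℤ) : Prop :=
  0 < b ∧ b < c ∧ IsCoprime b c ∧ ∃ w : ℤ × ℤ, w ≠ 0 ∧ y.1 - x.1 = c * w.1 ∧ y.2 - x.2 = c * w.2 ∧
    z.1 - x.1 = b * w.1 ∧ z.2 - x.2 = b * w.2

lemma Wit.ne {x y z : ℤ × ℤ} {b c : ℤ} (h : Wit x y z b c) : x ≠ y ∧ x ≠ z ∧ y ≠ z := by
  obtain ⟨h1, h2, -, w, hw, e1, e2, e3, e4⟩ := h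
  have key : ∀ k : ℤ, k ≠ 0 → k * w.1 = 0 → k * w.2 = 0 → False := fun k hk a1 a2 =>
    hw (Prod.ext ((mul_eq_zero.1 a1).resolve_left hk) ((mul_eq_zero.1 a2).resolve_left hk))
  refine ⟨?_, ?_, ?_⟩ <;> rintro rfl
  · exact key c (by omega) (by linarith) (by linarith)
  · exact key b (by omega) (by linarith) (by linarith)
  · exact key (c - b) (by omega) (by linarith) (by linarith)

lemma Wit.det {x y z : ℤ × ℤ} {b c : ℤ} (h : Wit x y z b c) : det3 x y z = 0 := by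
  obtain ⟨-, -, -, w, -, e1, e2, e3, e4⟩ := h
  unfold det3; rw [e1, e2, e3, e4]; ring

lemma Wit.le_gg {x y z : ℤ × ℤ} {b c : ℤ} {J : ℕ} (h : Wit x y z b c) (hy : Cong J y x)
    (hz : Cong J z x) : (J : ℤ) * c ≤ gg x y := by
  have hne := h.ne.1
  obtain ⟨h1, h2, ⟨u, v, huv⟩, w, -, e1, e2, e3, e4⟩ := h
  have k1 : (J : ℤ) ∣ w.1 := by
    have : w.1 = u * (z.1 - x.1) + v * (y.1 - x.1) := by rw [e1, e3]; linear_combination -w.1 * huv
    rw [this]; exact dvd_add (hz.1.mul_left _) (hy.1.mul_left _)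
  have k2 : (J : ℤ) ∣ w.2 := by
    have : w.2 = u * (z.2 - x.2) + v * (y.2 - x.2) := by rw [e2, e4]; linear_combination -w.2 * huv
    rw [this]; exact dvd_add (hz.2.mul_left _) (hy.2.mul_left _)
  apply Int.le_of_dvd (by exact_mod_cast gg_pos hne)
  unfold gg
  apply Int.dvd_coe_gcd
  · rw [dvd_sub_comm, e1, mul_comm]; exact mul_dvd_mul_left _ k1
  · rw [dvd_sub_comm, e2, mul_comm]; exact mul_dvd_mul_left _ k2

lemma gp_of_no_wit {G : Finset (ℤ × ℤ)}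
    (h : ∀ x ∈ G, ∀ y ∈ G, ∀ z ∈ G, ∀ b c, ¬ Wit x y z b c) : GP G := by
  intro x hx y hy z hz hxy hxz hyz hd
  obtain ⟨a, b, t₁, t₂, hab, y1, y2, z1, z2⟩ := exists_param hxy hd
  have ht1 : t₁ ≠ 0 := by
    rintro rfl; apply hxy; ext <;> simp [y1, y2]
  have hg : 0 < Int.gcd t₁ t₂ := Int.gcd_pos_of_ne_zero_left _ ht1
  obtain ⟨s₁, s₂, hs, e1, e2⟩ := Int.exists_gcd_one hg
  obtain ⟨u, v, huv⟩ := Int.isCoprime_iff_gcd_eq_one.2 hs
  set g : ℤ := (Int.gcd t₁ t₂ : ℤ) with hgdef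
  have hg0 : g ≠ 0 := by rw [hgdef]; exact_mod_cast hg.ne'
  have hw : ((a * g, b * g) : ℤ × ℤ) ≠ 0 := by
    intro h0
    rw [Prod.mk_eq_zero] at h0
    have ha := (mul_eq_zero.1 h0.1).resolve_right hg0
    have hb := (mul_eq_zero.1 h0.2).resolve_right hg0
    rw [ha, hb] at hab
    exact not_isCoprime_zero_zero hab
  rw [e1] at y1 y2
  rw [e2] at z1 z2
  have s1 : s₁ ≠ 0 := by
    rintro rfl; apply hxy; ext <;> simp [y1, y2]
  have s2 : s₂ ≠ 0 := by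
    rintro rfl; apply hxz; ext <;> simp [z1, z2]
  have s12 : s₁ ≠ s₂ := by
    rintro rfl; apply hyz; ext <;> simp [y1, y2, z1, z2]
  rcases lt_or_gt_of_ne s1 with p1 | p1 <;> rcases lt_or_gt_of_ne s2 with p2 | p2 <;>
    rcases lt_or_gt_of_ne s12 with p3 | p3
  · exact h y hy x hx z hz (s₂ - s₁) (-s₁) ⟨by omega, by omega, ⟨v, -u - v, by linear_combination huv⟩,
      _, hw, by rw [y1]; ring, by rw [y2]; ring, by rw [y1, z1]; ring, by rw [y2, z2]; ring⟩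
  · exact h z hz x hx y hy (s₁ - s₂) (-s₂) ⟨by omega, by omega, ⟨u, -u - v, by linear_combination huv⟩,
      _, hw, by rw [z1]; ring, by rw [z2]; ring, by rw [y1, z1]; ring, by rw [y2, z2]; ring⟩
  · exact h y hy z hz x hx (-s₁) (s₂ - s₁) ⟨by omega, by omega, ⟨-u - v, v, by linear_combination huv⟩,
      _, hw, by rw [y1, z1]; ring, by rw [y2, z2]; ring, by rw [y1]; ring, by rw [y2]; ring⟩
  · omega
  · omega
  · exact h z hz y hy x hx (-s₂) (s₁ - s₂) ⟨by omega, by omega, ⟨-u - v, u, by linear_combination huv⟩,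
      _, hw, by rw [y1, z1]; ring, by rw [y2, z2]; ring, by rw [z1]; ring, by rw [z2]; ring⟩
  · exact h x hx z hz y hy s₁ s₂ ⟨by omega, by omega, ⟨u, v, huv⟩,
      _, hw, by rw [z1]; ring, by rw [z2]; ring, by rw [y1]; ring, by rw [y2]; ring⟩
  · exact h x hx y hy z hz s₂ s₁ ⟨by omega, by omega, ⟨v, u, by linear_combination huv⟩,
      _, hw, by rw [y1]; ring, by rw [y2]; ring, by rw [z1]; ring, by rw [z2]; ring⟩

open Classical in
/-- normalised collinear triples -/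
noncomputable def TT (R : Finset (ℤ × ℤ)) : Finset ((ℤ × ℤ) × (ℤ × ℤ) × (ℤ × ℤ)) :=
  (R ×ˢ R ×ˢ R).filter fun t => ∃ b c, Wit t.1 t.2.1 t.2.2 b c

lemma mem_TT {R : Finset (ℤ × ℤ)} {t : (ℤ × ℤ) × (ℤ × ℤ) × (ℤ × ℤ)} :
    t ∈ TT R ↔ (t.1 ∈ R ∧ t.2.1 ∈ R ∧ t.2.2 ∈ R) ∧ ∃ b c, Wit t.1 t.2.1 t.2.2 b c := by
  simp [TT]

lemma TT_inj {R : Finset (ℤ × ℤ)} (h : No4 R) :
    Set.InjOn (fun t : (ℤ × ℤ) × (ℤ × ℤ) × (ℤ × ℤ) => (t.1, t.2.1)) (TT R) := by
  rintro ⟨x, y, z⟩ ht ⟨x', y', z'⟩ ht' e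
  rw [mem_coe, mem_TT] at ht ht'
  simp only [Prod.mk.injEq] at e
  obtain ⟨rfl, rfl⟩ := e
  obtain ⟨⟨a1, a2, a3⟩, b, c, hw⟩ := ht
  obtain ⟨⟨-, -, a4⟩, b', c', hw'⟩ := ht'
  by_contra hne
  have : z ≠ z' := by rintro rfl; exact hne rfl
  exact h x a1 y a2 z a3 z' a4 hw.ne.1 hw.ne.2.1 hw'.ne.2.1 hw.ne.2.2 hw'.ne.2.2 this hw.det hw'.det

end Pool.Agent.Lib.MP_a147dc_co
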