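import Pool.Agent.Lib.MP_a147dc_co.Defs

/-! Counting solutions of a linear equation on an elliptic paraboloid over a finite field. -/

namespace Pool.Agent.Lib.MP_a147dc_co

open Finset

variable {F : Type*} [Field F] [Fintype F] [DecidableEq F]

/-- anisotropic binary form -/
def nf (d : F) (u : F × F) : F := u.1 ^ 2 - d * u.2 ^ 2

/-- solutions on the paraboloid -/
def Sol (d a b c k₀ k₁ k₂ : F) : Finset ((F × F) × (F × F) × (F × F)) :=
  univ.filter fun t => a * t.1.1 + b * t.2.1.1 - c * t.2.2.1 = k₀ ∧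
    a * t.1.2 + b * t.2.1.2 - c * t.2.2.2 = k₁ ∧
    a * nf d t.1 + b * nf d t.2.1 - c * nf d t.2.2 = k₂

lemma mem_Sol {d a b c k₀ k₁ k₂ : F} {t : (F × F) × (F × F) × (F × F)} :
    t ∈ Sol d a b c k₀ k₁ k₂ ↔ a * t.1.1 + b * t.2.1.1 - c * t.2.2.1 = k₀ ∧
    a * t.1.2 + b * t.2.1.2 - c * t.2.2.2 = k₁ ∧
    a * nf d t.1 + b * nf d t.2.1 - c * nf d t.2.2 = k₂ := by simp [Sol]

/-- the free difference -/
def fr (c : F) (t : (F × F) × (F × F) × (F × F)) : F × F :=
  if c = 0 then t.2.2 - t.1 else t.2.1 - t.1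

lemma fr_spec {d a b c k₀ k₁ k₂ : F} (habc : a = c - b) (hbc : b ≠ 0 ∨ c ≠ 0)
    {t t' : (F × F) × (F × F) × (F × F)} (ht : t ∈ Sol d a b c k₀ k₁ k₂)
    (ht' : t' ∈ Sol d a b c k₀ k₁ k₂) (h : fr c t = fr c t') :
    t.2.1.1 - t.1.1 = t'.2.1.1 - t'.1.1 ∧ t.2.1.2 - t.1.2 = t'.2.1.2 - t'.1.2 ∧
    t.2.2.1 - t.1.1 = t'.2.2.1 - t'.1.1 ∧ t.2.2.2 - t.1.2 = t'.2.2.2 - t'.1.2 := by
  rw [mem_Sol] at ht ht'
  obtain ⟨e1, e2, -⟩ := ht
  obtain ⟨f1, f2, -⟩ := ht'
  subst habc
  unfold fr at h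
  split_ifs at h with hc
  · have hb : b ≠ 0 := hbc.resolve_right (not_not.2 hc)
    have h1 := congrArg Prod.fst h
    have h2 := congrArg Prod.snd h
    simp only [Prod.fst_sub, Prod.snd_sub] at h1 h2
    refine ⟨mul_left_cancel₀ hb ?_, mul_left_cancel₀ hb ?_, h1, h2⟩
    · linear_combination e1 - f1 + c * h1
    · linear_combination e2 - f2 + c * h2
  · have h1 := congrArg Prod.fst h
    have h2 := congrArg Prod.snd h
    simp only [Prod.fst_sub, Prod.snd_sub] at h1 h2
    refine ⟨h1, h2, mul_left_cancel₀ hc ?_, mul_left_cancel₀ hc ?_⟩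
    · linear_combination f1 - e1 + b * h1
    · linear_combination f2 - e2 + b * h2

omit [Fintype F] [DecidableEq F] in
lemma triple_ext {t t' : (F × F) × (F × F) × (F × F)} (h0 : t.1.1 = t'.1.1) (h1 : t.1.2 = t'.1.2)
    (h : t.2.1.1 - t.1.1 = t'.2.1.1 - t'.1.1 ∧ t.2.1.2 - t.1.2 = t'.2.1.2 - t'.1.2 ∧
      t.2.2.1 - t.1.1 = t'.2.2.1 - t'.1.1 ∧ t.2.2.2 - t.1.2 = t'.2.2.2 - t'.1.2) : t = t' := by
  obtain ⟨a1, a2, a3, a4⟩ := h
  ext
  · exact h0
  · exact h1
  · linear_combination a1 + h0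
  · linear_combination a2 + h1
  · linear_combination a3 + h0
  · linear_combination a4 + h1

lemma card_Sol_le4 {d a b c k₀ k₁ k₂ : F} (habc : a = c - b) (hbc : b ≠ 0 ∨ c ≠ 0) :
    (Sol d a b c k₀ k₁ k₂).card ≤ Fintype.card F ^ 4 := by
  have := card_le_card_of_injOn (s := Sol d a b c k₀ k₁ k₂) (t := (univ : Finset ((F × F) × (F × F))))
    (fun t => (t.1, fr c t)) (fun _ _ => mem_univ _) (by
      intro t ht t' ht' h
      simp only [Prod.mk.injEq] at h
      exact triple_ext (congrArg Prod.fst h.1) (congrArg Prod.snd h.1)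
        (fr_spec habc hbc ht ht' h.2))
  simp only [card_univ, Fintype.card_prod] at this
  calc _ ≤ _ := this
    _ = _ := by ring

lemma card_Sol_le3 {d a b c k₀ k₁ k₂ : F} (h2 : (2 : F) ≠ 0) (hd : d ≠ 0) (habc : a = c - b)
    (hbc : b ≠ 0 ∨ c ≠ 0) (hk : k₀ ≠ 0 ∨ k₁ ≠ 0) :
    (Sol d a b c k₀ k₁ k₂).card ≤ Fintype.card F ^ 3 := by
  have := card_le_card_of_injOn (s := Sol d a b c k₀ k₁ k₂) (t := (univ : Finset (F × (F × F))))
    (fun t => (if k₀ = 0 then t.1.1 else t.1.2, fr c t)) (fun _ _ => mem_univ _) (by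
      intro t ht t' ht' h
      simp only [Prod.mk.injEq] at h
      have hs := fr_spec habc hbc ht ht' h.2
      obtain ⟨a1, a2, a3, a4⟩ := hs
      rw [mem_coe, mem_Sol] at ht ht'
      obtain ⟨e1, e2, e3⟩ := ht
      obtain ⟨-, -, f3⟩ := ht'
      unfold nf at e3 f3
      have b1 : t'.2.1.1 = t.2.1.1 - t.1.1 + t'.1.1 := by linear_combination -a1
      have b2 : t'.2.1.2 = t.2.1.2 - t.1.2 + t'.1.2 := by linear_combination -a2
      have b3 : t'.2.2.1 = t.2.2.1 - t.1.1 + t'.1.1 := by linear_combination -a3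
      have b4 : t'.2.2.2 = t.2.2.2 - t.1.2 + t'.1.2 := by linear_combination -a4
      rw [b1, b2, b3, b4] at f3
      subst habc
      have key : 2 * (k₀ * (t.1.1 - t'.1.1) - d * k₁ * (t.1.2 - t'.1.2)) = 0 := by
        rw [← e1, ← e2]; linear_combination e3 - f3
      have key' := (mul_eq_zero.1 key).resolve_left h2
      have h1 := h.1
      split_ifs at h1 with h0
      · have hk1 : k₁ ≠ 0 := hk.resolve_left (not_not.2 h0)
        refine triple_ext h1 (mul_left_cancel₀ (mul_ne_zero hd hk1) ?_) ⟨a1, a2, a3, a4⟩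
        rw [h0] at key'; linear_combination -key'
      · refine triple_ext (mul_left_cancel₀ h0 ?_) h1 ⟨a1, a2, a3, a4⟩
        rw [h1] at key'; linear_combination key')
  simp only [card_univ, Fintype.card_prod] at this
  calc _ ≤ _ := this
    _ = _ := by ring

lemma card_Sol_zero {d a b c k₂ : F} (habc : a = c - b) (ha : a ≠ 0) (hb : b ≠ 0) (hc : c ≠ 0) :
    (Sol d a b c 0 0 k₂).card ≤
      Fintype.card F ^ 2 * (univ.filter fun s : F × F => nf d s = c * k₂ / (a * b)).card := by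
  have := card_le_card_of_injOn (s := Sol d a b c 0 0 k₂)
    (t := (univ : Finset (F × F)) ×ˢ (univ.filter fun s : F × F => nf d s = c * k₂ / (a * b)))
    (fun t => (t.1, fr c t)) (by
      intro t ht
      rw [mem_coe, mem_Sol] at ht
      obtain ⟨e1, e2, e3⟩ := ht
      simp only [coe_product, Set.mem_prod, mem_coe, mem_univ, true_and, mem_filter, fr, if_neg hc]
      rw [eq_div_iff (mul_ne_zero ha hb)]
      unfold nf at e3 ⊢
      simp only [Prod.fst_sub, Prod.snd_sub]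
      subst habc
      linear_combination c * e3 +
        (-((c - b) * t.1.1 + b * t.2.1.1 + c * t.2.2.1)) * e1 +
        d * ((c - b) * t.1.2 + b * t.2.1.2 + c * t.2.2.2) * e2) (by
      intro t ht t' ht' h
      simp only [Prod.mk.injEq] at h
      exact triple_ext (congrArg Prod.fst h.1) (congrArg Prod.snd h.1)
        (fr_spec habc (Or.inl hb) ht ht' h.2))
  simp only [card_product, card_univ, Fintype.card_prod] at this
  calc _ ≤ _ := this
    _ = _ := by ring

lemma card_nf_le (d γ : F) :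
    (univ.filter fun s : F × F => nf d s = γ).card ≤ 2 * Fintype.card F := by
  have := card_le_mul_card_image_of_maps_to (s := univ.filter fun s : F × F => nf d s = γ)
    (t := (univ : Finset F)) (f := Prod.snd) (fun _ _ => mem_univ _) 2 (by
      intro y _
      rcases ((univ.filter fun s : F × F => nf d s = γ).filter fun s => s.2 = y).eq_empty_or_nonempty
        with h | ⟨s₀, hs₀⟩
      · simp [h]
      refine le_trans (card_le_card (t := {s₀, (-s₀.1, s₀.2)}) ?_) card_le_two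
      intro s hs
      simp only [mem_filter, mem_univ, true_and] at hs hs₀
      unfold nf at hs hs₀
      have : s.1 ^ 2 = s₀.1 ^ 2 := by
        have h1 := hs.1; have h2 := hs₀.1
        rw [hs.2] at h1; rw [hs₀.2] at h2
        linear_combination h1 - h2
      rw [mem_insert, mem_singleton]
      rcases sq_eq_sq_iff_eq_or_eq_neg.1 this with h | h
      · left; ext <;> simp [h, hs.2, hs₀.2]
      · right; ext <;> simp [h, hs.2, hs₀.2])
  simpa using this

lemma card_nf_zero {d : F} (hd : ¬ IsSquare d) :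
    (univ.filter fun s : F × F => nf d s = 0).card ≤ 1 := by
  rw [card_le_one_iff_subset_singleton]
  refine ⟨0, fun s hs => ?_⟩
  simp only [mem_filter, mem_univ, true_and] at hs
  unfold nf at hs
  have h2 : s.2 = 0 := by
    by_contra h
    apply hd
    refine ⟨s.1 / s.2, ?_⟩
    field_simp
    linear_combination -hs
  rw [h2] at hs
  have h1 : s.1 = 0 := by simpa using hs
  rw [mem_singleton]; ext <;> simp [h1, h2]

lemma card_Sol_le_two {d a b c k₀ k₁ k₂ : F} (h2 : (2 : F) ≠ 0) (hd : d ≠ 0) (habc : a = c - b)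
    (ha : a ≠ 0) (hb : b ≠ 0) (hc : c ≠ 0) :
    (Sol d a b c k₀ k₁ k₂).card ≤ 2 * Fintype.card F ^ 3 := by
  by_cases hk : k₀ ≠ 0 ∨ k₁ ≠ 0
  · have := card_Sol_le3 (k₂ := k₂) h2 hd habc (Or.inl hb) hk
    omega
  · push Not at hk
    rw [hk.1, hk.2]
    refine (card_Sol_zero habc ha hb hc).trans ?_
    calc _ ≤ Fintype.card F ^ 2 * (2 * Fintype.card F) := Nat.mul_le_mul_left _ (card_nf_le _ _)
      _ = _ := by ring

lemma card_Sol_zero_zero {d a b c : F} (hd : ¬ IsSquare d) (habc : a = c - b)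
    (ha : a ≠ 0) (hb : b ≠ 0) (hc : c ≠ 0) :
    (Sol d a b c 0 0 0).card ≤ Fintype.card F ^ 2 := by
  refine (card_Sol_zero habc ha hb hc).trans ?_
  rw [mul_zero, zero_div]
  calc _ ≤ Fintype.card F ^ 2 * 1 := Nat.mul_le_mul_left _ (card_nf_zero hd)
    _ = _ := mul_one _

end Pool.Agent.Lib.MP_a147dc_co
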