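import Pool.Agent.Lib.MP_a147dc_co.Count
import Pool.Agent.Lib.MP_a147dc_co.Delete

/-! The random selection. -/

namespace Pool.Agent.Lib.MP_a147dc_co

open Finset

lemma card_BB_ge {P l : ℕ} [Fact P.Prime] (d : ZMod P) : P ^ 2 * l ^ 3 ≤ (BB P l d).card := by
  have hP : 0 < P := (Fact.out : P.Prime).pos
  have hP' : (0 : ℤ) < P := by exact_mod_cast hP
  have mem : ∀ (r : ZMod P) (ξ : ℕ), ξ ∈ range l →
      ((r.val : ℤ) + P * ξ) ∈ Ico (0 : ℤ) (l * P) := by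
    intro r ξ h
    have h1 : (r.val : ℤ) < P := by exact_mod_cast ZMod.val_lt r
    have h2 : (ξ : ℤ) + 1 ≤ l := by exact_mod_cast mem_range.1 h
    rw [mem_Ico]; constructor
    · positivity
    · nlinarith
  have cast : ∀ (r : ZMod P) (ξ : ℕ), (((r.val : ℤ) + P * ξ : ℤ) : ZMod P) = r := by
    intro r ξ; push_cast; simp
  have inj : ∀ {r r' : ZMod P} {ξ ξ' : ℕ}, (r.val : ℤ) + P * ξ = (r'.val : ℤ) + P * ξ' →
      r = r' ∧ ξ = ξ' := by
    intro r r' ξ ξ' h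
    have e : r = r' := by rw [← cast r ξ, h, cast]
    subst e
    have := mul_left_cancel₀ hP'.ne' (add_left_cancel h)
    exact ⟨rfl, by exact_mod_cast this⟩
  have := card_le_card_of_injOn
    (s := (univ : Finset (ZMod P × ZMod P)) ×ˢ range l ×ˢ range l ×ˢ range l) (t := BB P l d)
    (fun y => ((y.1.1.val : ℤ) + P * y.2.1, (y.1.2.val : ℤ) + P * y.2.2.1,
      ((y.1.1 ^ 2 - d * y.1.2 ^ 2).val : ℤ) + P * y.2.2.2)) (by
      intro y hy
      simp only [coe_product, Set.mem_prod, mem_coe] at hy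
      rw [mem_coe, mem_BB]
      refine ⟨mem _ _ hy.2.1, mem _ _ hy.2.2.1, mem _ _ hy.2.2.2, ?_⟩
      dsimp only
      rw [cast, cast, cast]) (by
      intro y _ y' _ h
      simp only [Prod.mk.injEq] at h
      obtain ⟨a1, a2⟩ := inj h.1
      obtain ⟨a3, a4⟩ := inj h.2.1
      obtain ⟨-, a5⟩ := inj h.2.2
      ext <;> assumption)
  simp only [card_product, card_univ, Fintype.card_prod, ZMod.card, card_range] at this
  calc _ = _ := by ring
    _ ≤ _ := this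

/-- a linear functional separating the points of the box -/
def io (Q m : ℕ) (x : ℤ × ℤ) : ZMod Q := ((x.1 + (m + 1) * x.2 : ℤ) : ZMod Q)

/-- the random map -/
def ph (Q m : ℕ) (ω : (ZMod Q × ZMod Q) × (ZMod Q × ZMod Q) × (ZMod Q × ZMod Q)) (x : ℤ × ℤ) :
    ℤ × ℤ × ℤ :=
  (((ω.1.1 * io Q m x + ω.1.2).val : ℤ), ((ω.2.1.1 * io Q m x + ω.2.1.2).val : ℤ),
    ((ω.2.2.1 * io Q m x + ω.2.2.2).val : ℤ))

lemma card_pt {Q P l m : ℕ} [NeZero Q] (d : ZMod P) (hQ : l * P ≤ Q) (x : ℤ × ℤ) :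
    Q ^ 3 * (BB P l d).card ≤ (univ.filter fun ω => ph Q m ω x ∈ BB P l d).card := by
  have hQ' : (l : ℤ) * P ≤ Q := by exact_mod_cast hQ
  have val : ∀ (u : ZMod Q) (X : ℤ), X ∈ Ico (0 : ℤ) (l * P) →
      ((u * io Q m x + ((X : ZMod Q) - u * io Q m x)).val : ℤ) = X := by
    intro u X hX
    rw [mem_Ico] at hX
    rw [add_sub_cancel, ZMod.val_intCast, Int.emod_eq_of_lt hX.1 (by omega)]
  have hph : ∀ (u : ZMod Q × ZMod Q × ZMod Q), ∀ X ∈ BB P l d,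
      ph Q m ((u.1, (X.1 : ZMod Q) - u.1 * io Q m x), (u.2.1, (X.2.1 : ZMod Q) - u.2.1 * io Q m x),
        (u.2.2, (X.2.2 : ZMod Q) - u.2.2 * io Q m x)) x = X := by
    intro u X hX
    rw [mem_BB] at hX
    unfold ph
    dsimp only
    rw [val _ _ hX.1, val _ _ hX.2.1, val _ _ hX.2.2.1]
  have := card_le_card_of_injOn
    (s := (univ : Finset (ZMod Q × ZMod Q × ZMod Q)) ×ˢ BB P l d)
    (t := univ.filter fun ω => ph Q m ω x ∈ BB P l d)
    (fun y => ((y.1.1, (y.2.1 : ZMod Q) - y.1.1 * io Q m x),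
      (y.1.2.1, (y.2.2.1 : ZMod Q) - y.1.2.1 * io Q m x),
        (y.1.2.2, (y.2.2.2 : ZMod Q) - y.1.2.2 * io Q m x))) (by
      intro y hy
      have hy2 := (mem_product.1 (mem_coe.1 hy)).2
      rw [mem_coe, mem_filter]
      refine ⟨mem_univ _, ?_⟩
      dsimp only
      rw [hph y.1 y.2 hy2]; exact hy2) (by
      intro y hy y' hy' h
      have e1 := hph y.1 y.2 (mem_product.1 (mem_coe.1 hy)).2
      have e2 := hph y'.1 y'.2 (mem_product.1 (mem_coe.1 hy')).2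
      dsimp only at h
      rw [h, e2] at e1
      simp only [Prod.mk.injEq] at h
      exact Prod.ext (Prod.ext h.1.1 (Prod.ext h.2.1.1 h.2.2.1)) e1.symm)
  simp only [card_product, card_univ, Fintype.card_prod, ZMod.card] at this
  calc _ = _ := by ring
    _ ≤ _ := this

lemma io_ne {Q m : ℕ} (hQ : (m + 1) ^ 2 ≤ Q) {x y : ℤ × ℤ}
    (hx : 0 ≤ x.1 ∧ x.1 ≤ m ∧ 0 ≤ x.2 ∧ x.2 ≤ m) (hy : 0 ≤ y.1 ∧ y.1 ≤ m ∧ 0 ≤ y.2 ∧ y.2 ≤ m)
    (h : x ≠ y) : io Q m x ≠ io Q m y := by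
  intro e
  obtain ⟨a1, a2, a3, a4⟩ := hx
  obtain ⟨b1, b2, b3, b4⟩ := hy
  have hQ' : ((m : ℤ) + 1) ^ 2 ≤ Q := by exact_mod_cast hQ
  have hd := (ZMod.intCast_eq_intCast_iff_dvd_sub _ _ _).1 e
  have h0 := Int.eq_zero_of_abs_lt_dvd hd (by rw [abs_lt]; constructor <;> nlinarith)
  have h2 : y.2 = x.2 := by
    by_contra hne
    rcases lt_or_gt_of_ne hne with h' | h' <;> nlinarith
  apply h
  ext
  · rw [h2] at h0; linarith
  · exact h2.symm

lemma card_triple {Q P l m : ℕ} [Fact Q.Prime] (d : ZMod P) (hQ : (m + 1) ^ 2 ≤ Q)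
    {x y z : ℤ × ℤ} {b c : ℤ} (hw : Wit x y z b c)
    (hx : 0 ≤ x.1 ∧ x.1 ≤ m ∧ 0 ≤ x.2 ∧ x.2 ≤ m) (hy : 0 ≤ y.1 ∧ y.1 ≤ m ∧ 0 ≤ y.2 ∧ y.2 ≤ m) :
    (univ.filter fun ω => ph Q m ω x ∈ BB P l d ∧ ph Q m ω y ∈ BB P l d ∧
      ph Q m ω z ∈ BB P l d).card ≤ (NN Q P l d b c).card := by
  have hne := io_ne hQ hx hy hw.ne.1
  obtain ⟨-, -, -, w, -, e1, e2, e3, e4⟩ := hw
  have hrel : ((c : ZMod Q) - b) * io Q m x + b * io Q m y - c * io Q m z = 0 := by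
    have : (c - b) * (x.1 + (m + 1) * x.2) + b * (y.1 + (m + 1) * y.2) -
        c * (z.1 + (m + 1) * z.2) = 0 := by
      linear_combination b * e1 + b * (m + 1) * e2 - c * e3 - c * (m + 1) * e4
    unfold io
    exact_mod_cast congrArg (Int.cast : ℤ → ZMod Q) this
  have dv : ∀ u v : ZMod Q, (Q : ℤ) ∣ (c - b) * ((u * io Q m x + v).val : ℤ) +
      b * ((u * io Q m y + v).val : ℤ) - c * ((u * io Q m z + v).val : ℤ) := by
    intro u v
    rw [← ZMod.intCast_zmod_eq_zero_iff_dvd]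
    push_cast
    simp only [ZMod.natCast_val, ZMod.cast_id', id]
    linear_combination u * hrel
  have inj : ∀ {p p' : ZMod Q × ZMod Q},
      ((p.1 * io Q m x + p.2).val : ℤ) = ((p'.1 * io Q m x + p'.2).val : ℤ) →
      ((p.1 * io Q m y + p.2).val : ℤ) = ((p'.1 * io Q m y + p'.2).val : ℤ) → p = p' := by
    intro p p' h1 h2
    have a1 := ZMod.val_injective Q (by exact_mod_cast h1)
    have a2 := ZMod.val_injective Q (by exact_mod_cast h2)
    have a3 : p.1 = p'.1 := by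
      apply mul_right_cancel₀ (sub_ne_zero.2 hne)
      linear_combination a1 - a2
    exact Prod.ext a3 (by rw [a3] at a1; exact add_left_cancel a1)
  apply card_le_card_of_injOn (fun ω => (ph Q m ω x, ph Q m ω y, ph Q m ω z))
  · intro ω hω
    rw [mem_coe, mem_filter] at hω
    rw [mem_coe, NN, mem_filter]
    exact ⟨mem_product.2 ⟨hω.2.1, mem_product.2 hω.2.2⟩, dv _ _, dv _ _, dv _ _⟩
  · intro ω _ ω' _ h
    simp only [ph, Prod.mk.injEq] at h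
    exact Prod.ext (inj h.1.1 h.2.1.1) (Prod.ext (inj h.1.2.1 h.2.1.2.1) (inj h.1.2.2 h.2.1.2.2))

lemma fiber_le {l : ℕ} {c : ℤ} (hc : 0 < c) (hcl : c ≤ l) :
    (((l * ((l : ℤ) / c + 1).toNat) ^ 3 : ℕ) : ℝ) ≤ 8 * (l : ℝ) ^ 6 / (c : ℝ) ^ 3 := by
  have hcr : (0 : ℝ) < c := by exact_mod_cast hc
  have h0 : 0 ≤ (l : ℤ) / c + 1 := by positivity
  have h1 : ((((l : ℤ) / c + 1).toNat : ℕ) : ℝ) ≤ 2 * l / c := by
    rw [le_div_iff₀ hcr]
    have e : ((((l : ℤ) / c + 1).toNat : ℕ) : ℤ) = (l : ℤ) / c + 1 := Int.toNat_of_nonneg h0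
    have := Int.ediv_mul_le (l : ℤ) hc.ne'
    have h2 : ((((l : ℤ) / c + 1).toNat : ℕ) : ℤ) * c ≤ 2 * l := by rw [e]; linarith
    exact_mod_cast h2
  rw [Nat.cast_pow, Nat.cast_mul]
  calc _ ≤ ((l : ℝ) * (2 * l / c)) ^ 3 := by gcongr
    _ = _ := by field_simp; norm_num

end Pool.Agent.Lib.MP_a147dc_co
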