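import Pool.Agent.Lib.MP_a147dc_co.Parab

/-! Counting lifted solutions. -/

namespace Pool.Agent.Lib.MP_a147dc_co

open Finset

lemma inj1 {a b c P X X' Y Y' Z Z' : ℤ} (hP : 0 < P) (hc : 0 < c) (hbc : IsCoprime b c)
    (h1 : P ∣ X - X') (h2 : P ∣ Y - Y') (h3 : P ∣ Z - Z')
    (h4 : a * X + b * Y - c * Z = a * X' + b * Y' - c * Z') (h5 : X / P = X' / P)
    (h6 : Y / (P * c) = Y' / (P * c)) : X = X' ∧ Y = Y' ∧ Z = Z' := by
  have key : ∀ {n u v : ℤ}, n ∣ u - v → u / n = v / n → u = v := by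
    intro n u v h h'
    have e := Int.emod_emod_of_dvd u (dvd_refl n)
    have hm : u % n = v % n := Int.emod_eq_emod_iff_emod_sub_eq_zero.2 (Int.emod_eq_zero_of_dvd h)
    rw [← Int.mul_ediv_add_emod u n, ← Int.mul_ediv_add_emod v n, h', hm]
  have e1 := key h1 h5
  obtain ⟨s, hs⟩ := h2
  obtain ⟨t, ht⟩ := h3
  have e2 : b * s = c * t := by
    apply mul_left_cancel₀ hP.ne'
    rw [e1] at h4
    linear_combination h4 - b * hs + c * ht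
  obtain ⟨w, hw⟩ : c ∣ s := hbc.symm.dvd_of_dvd_mul_left ⟨t, e2⟩
  have e3 : Y = Y' := key ⟨w, by rw [hs, hw]; ring⟩ h6
  refine ⟨e1, e3, mul_left_cancel₀ hc.ne' ?_⟩
  rw [e1, e3] at h4
  linarith

lemma k_bound {b c H M Q X Y Z : ℤ} (hb : 0 < b) (hbc : b < c) (hH : 0 < H) (hQ : H * M ≤ Q)
    (hX : X ∈ Ico 0 M) (hY : Y ∈ Ico 0 M) (hZ : Z ∈ Ico 0 M)
    (h : Q ∣ (c - b) * X + b * Y - c * Z) :
    ((c - b) * X + b * Y - c * Z) / Q ∈ Icc (-((c - 1) / H)) ((c - 1) / H) := by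
  rw [mem_Ico] at hX hY hZ
  have hM : 0 < M := by omega
  have hQ0 : 0 < Q := lt_of_lt_of_le (by positivity) hQ
  obtain ⟨k, hk⟩ := h
  rw [hk, Int.mul_ediv_cancel_left _ hQ0.ne', mem_Icc, ← abs_le]
  apply Int.le_ediv_of_mul_le hH
  have h1 : |Q * k| < c * M := by
    rw [← hk, abs_lt]
    constructor <;> nlinarith [hX.1, hX.2, hY.1, hY.2, hZ.1, hZ.2]
  rw [abs_mul, abs_of_pos hQ0] at h1
  have h2 : Q * (|k| * H) < Q * c := by nlinarith [abs_nonneg k]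
  have := lt_of_mul_lt_mul_left h2 hQ0.le
  omega

/-- the target set -/
noncomputable def BB (P l : ℕ) (d : ZMod P) : Finset (ℤ × ℤ × ℤ) :=
  (Ico (0 : ℤ) (l * P) ×ˢ Ico (0 : ℤ) (l * P) ×ˢ Ico (0 : ℤ) (l * P)).filter
    fun X => (X.2.2 : ZMod P) = (X.1 : ZMod P) ^ 2 - d * (X.2.1 : ZMod P) ^ 2

lemma mem_BB {P l : ℕ} {d : ZMod P} {X : ℤ × ℤ × ℤ} : X ∈ BB P l d ↔
    X.1 ∈ Ico (0 : ℤ) (l * P) ∧ X.2.1 ∈ Ico (0 : ℤ) (l * P) ∧ X.2.2 ∈ Ico (0 : ℤ) (l * P) ∧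
      (X.2.2 : ZMod P) = (X.1 : ZMod P) ^ 2 - d * (X.2.1 : ZMod P) ^ 2 := by
  unfold BB
  rw [mem_filter, mem_product, mem_product]
  tauto

/-- lifted solutions -/
noncomputable def NN (Q P l : ℕ) (d : ZMod P) (b c : ℤ) : Finset ((ℤ × ℤ × ℤ) × (ℤ × ℤ × ℤ) × (ℤ × ℤ × ℤ)) :=
  (BB P l d ×ˢ BB P l d ×ˢ BB P l d).filter fun t =>
    (Q : ℤ) ∣ (c - b) * t.1.1 + b * t.2.1.1 - c * t.2.2.1 ∧
    (Q : ℤ) ∣ (c - b) * t.1.2.1 + b * t.2.1.2.1 - c * t.2.2.2.1 ∧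
    (Q : ℤ) ∣ (c - b) * t.1.2.2 + b * t.2.1.2.2 - c * t.2.2.2.2

/-- range of the carries -/
noncomputable def KK (κ : ℤ) : Finset (ℤ × ℤ × ℤ) := Icc (-κ) κ ×ˢ Icc (-κ) κ ×ˢ Icc (-κ) κ

lemma quot_mem {P l : ℕ} {c X Y : ℤ} (hP : 0 < P) (hc : 0 < c) (hX : X ∈ Ico (0 : ℤ) (l * P))
    (hY : Y ∈ Ico (0 : ℤ) (l * P)) :
    (X / P, Y / (P * c)) ∈ Ico (0 : ℤ) l ×ˢ Icc (0 : ℤ) (l / c) := by
  have hP' : (0 : ℤ) < P := by exact_mod_cast hP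
  rw [mem_Ico] at hX hY
  simp only [mem_product, mem_Ico, mem_Icc]
  refine ⟨⟨Int.ediv_nonneg hX.1 hP'.le, Int.ediv_lt_of_lt_mul hP' hX.2⟩,
    Int.ediv_nonneg hY.1 (by positivity), ?_⟩
  rw [← Int.ediv_ediv_of_nonneg hP'.le]
  exact Int.ediv_le_ediv hc (Int.ediv_lt_of_lt_mul hP' hY.2).le

lemma card_NN_le {Q P l H : ℕ} [Fact P.Prime] (d : ZMod P) {b c : ℤ} (hb : 0 < b) (hbc : b < c)
    (hcop : IsCoprime b c) (hH : 0 < H) (hQ : H * (l * P) ≤ Q) :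
    (NN Q P l d b c).card ≤ (∑ k ∈ KK ((c - 1) / H), (Sol d ((c - b : ℤ) : ZMod P) b c
      ((Q * k.1 : ℤ) : ZMod P) ((Q * k.2.1 : ℤ) : ZMod P) ((Q * k.2.2 : ℤ) : ZMod P)).card) *
      (l * (l / c + 1).toNat) ^ 3 := by
  classical
  have hP : 0 < P := (Fact.out : P.Prime).pos
  have hP' : (0 : ℤ) < P := by exact_mod_cast hP
  have hc : 0 < c := by omega
  have hH' : (0 : ℤ) < H := by exact_mod_cast hH
  have hQ' : (H : ℤ) * (l * P) ≤ Q := by exact_mod_cast hQ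
  let kk : ((ℤ × ℤ × ℤ) × (ℤ × ℤ × ℤ) × (ℤ × ℤ × ℤ)) → ℤ × ℤ × ℤ := fun t =>
    (((c - b) * t.1.1 + b * t.2.1.1 - c * t.2.2.1) / Q,
     ((c - b) * t.1.2.1 + b * t.2.1.2.1 - c * t.2.2.2.1) / Q,
     ((c - b) * t.1.2.2 + b * t.2.1.2.2 - c * t.2.2.2.2) / Q)
  have hmap : ∀ t ∈ NN Q P l d b c, kk t ∈ KK ((c - 1) / H) := by
    intro t ht
    simp only [NN, mem_filter, mem_product, mem_BB] at ht
    obtain ⟨⟨hX, hY, hZ⟩, h1, h2, h3⟩ := ht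
    simp only [KK, mem_product, kk]
    exact ⟨k_bound hb hbc hH' hQ' hX.1 hY.1 hZ.1 h1,
      k_bound hb hbc hH' hQ' hX.2.1 hY.2.1 hZ.2.1 h2,
      k_bound hb hbc hH' hQ' hX.2.2.1 hY.2.2.1 hZ.2.2.1 h3⟩
  rw [card_eq_sum_card_fiberwise hmap, sum_mul]
  refine sum_le_sum fun k _ => ?_
  set D := Ico (0 : ℤ) l ×ˢ Icc (0 : ℤ) (l / c) with hD
  have hDc : D.card = l * (l / c + 1).toNat := by
    rw [hD, card_product]; simp
  have hspec : ∀ t ∈ (NN Q P l d b c).filter fun t => kk t = k,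
      (t.1 ∈ BB P l d ∧ t.2.1 ∈ BB P l d ∧ t.2.2 ∈ BB P l d) ∧
      (c - b) * t.1.1 + b * t.2.1.1 - c * t.2.2.1 = Q * k.1 ∧
      (c - b) * t.1.2.1 + b * t.2.1.2.1 - c * t.2.2.2.1 = Q * k.2.1 ∧
      (c - b) * t.1.2.2 + b * t.2.1.2.2 - c * t.2.2.2.2 = Q * k.2.2 := by
    intro t ht
    simp only [NN, mem_filter, mem_product] at ht
    obtain ⟨⟨hB, h1, h2, h3⟩, rfl⟩ := ht
    exact ⟨hB, (Int.mul_ediv_cancel' h1).symm, (Int.mul_ediv_cancel' h2).symm,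
      (Int.mul_ediv_cancel' h3).symm⟩
  have := card_le_card_of_injOn (s := (NN Q P l d b c).filter fun t => kk t = k)
    (t := (Sol d ((c - b : ℤ) : ZMod P) b c ((Q * k.1 : ℤ) : ZMod P) ((Q * k.2.1 : ℤ) : ZMod P)
      ((Q * k.2.2 : ℤ) : ZMod P)) ×ˢ D ×ˢ D ×ˢ D)
    (fun t => ((((t.1.1 : ZMod P), (t.1.2.1 : ZMod P)), ((t.2.1.1 : ZMod P), (t.2.1.2.1 : ZMod P)),
      ((t.2.2.1 : ZMod P), (t.2.2.2.1 : ZMod P))),
      (t.1.1 / P, t.2.1.1 / (P * c)), (t.1.2.1 / P, t.2.1.2.1 / (P * c)),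
      (t.1.2.2 / P, t.2.1.2.2 / (P * c)))) (by
      intro t ht
      obtain ⟨⟨hX, hY, hZ⟩, h1, h2, h3⟩ := hspec t ht
      rw [mem_BB] at hX hY hZ
      refine mem_coe.2 (mem_product.2 ⟨mem_Sol.2 ⟨?_, ?_, ?_⟩, mem_product.2
        ⟨quot_mem hP hc hX.1 hY.1, mem_product.2 ⟨quot_mem hP hc hX.2.1 hY.2.1,
        quot_mem hP hc hX.2.2.1 hY.2.2.1⟩⟩⟩)
      · rw [← h1]; push_cast; rfl
      · rw [← h2]; push_cast; rfl
      · rw [← h3]; unfold nf; dsimp only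
        rw [← hX.2.2.2, ← hY.2.2.2, ← hZ.2.2.2]; push_cast; rfl) (by
      intro t ht t' ht' h
      obtain ⟨⟨hX, hY, hZ⟩, h1, h2, h3⟩ := hspec t ht
      obtain ⟨⟨hX', hY', hZ'⟩, h1', h2', h3'⟩ := hspec t' ht'
      rw [mem_BB] at hX hY hZ hX' hY' hZ'
      simp only [Prod.mk.injEq] at h
      obtain ⟨⟨⟨r1, r2⟩, ⟨r3, r4⟩, r5, r6⟩, ⟨q1, q2⟩, ⟨q3, q4⟩, q5, q6⟩ := h
      have dv : ∀ {u v : ℤ}, (u : ZMod P) = v → (P : ℤ) ∣ u - v := fun h =>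
        (ZMod.intCast_eq_intCast_iff_dvd_sub _ _ _).1 h.symm
      obtain ⟨a1, a2, a3⟩ := inj1 hP' hc hcop (dv r1) (dv r3) (dv r5) (h1.trans h1'.symm) q1 q2
      obtain ⟨b1, b2, b3⟩ := inj1 hP' hc hcop (dv r2) (dv r4) (dv r6) (h2.trans h2'.symm) q3 q4
      obtain ⟨c1, c2, c3⟩ := inj1 hP' hc hcop
        (dv (by rw [hX.2.2.2, hX'.2.2.2, r1, r2])) (dv (by rw [hY.2.2.2, hY'.2.2.2, r3, r4]))
        (dv (by rw [hZ.2.2.2, hZ'.2.2.2, r5, r6])) (h3.trans h3'.symm) q5 q6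
      ext <;> assumption)
  rw [card_product, card_product D, card_product D, hDc] at this
  calc _ ≤ _ := this
    _ = _ := by ring

lemma card_dvd_Icc {P κ : ℤ} (hP : 0 < P) (hκ : 0 ≤ κ) :
    (((Icc (-κ) κ).filter fun k => P ∣ k).card : ℝ) ≤ 2 * (κ / P : ℝ) + 1 := by
  have := card_le_card_of_injOn (s := (Icc (-κ) κ).filter fun k => P ∣ k)
    (t := Icc (-(κ / P)) (κ / P)) (fun k => k / P) (by
      intro k hk
      rw [mem_coe, mem_filter, mem_Icc, ← abs_le] at hk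
      obtain ⟨hk, j, rfl⟩ := hk
      rw [mem_coe, mem_Icc, ← abs_le]
      dsimp only
      rw [Int.mul_ediv_cancel_left _ hP.ne']
      apply Int.le_ediv_of_mul_le hP
      rwa [abs_mul, abs_of_pos hP, mul_comm] at hk) (by
      intro k hk k' hk' h
      rw [mem_coe, mem_filter] at hk hk'
      dsimp only at h
      rw [← Int.mul_ediv_cancel' hk.2, ← Int.mul_ediv_cancel' hk'.2, h])
  have h0 : 0 ≤ κ / P := Int.ediv_nonneg hκ hP.le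
  have h1 : ((Icc (-(κ / P)) (κ / P)).card : ℤ) = 2 * (κ / P) + 1 := by
    rw [Int.card_Icc]; omega
  have h2 : ((κ / P : ℤ) : ℝ) ≤ (κ / P : ℝ) := by
    rw [le_div_iff₀ (by exact_mod_cast hP)]
    exact_mod_cast Int.ediv_mul_le κ hP.ne'
  have h3 : ((((Icc (-κ) κ).filter fun k => P ∣ k).card : ℤ) : ℝ) ≤ ((2 * (κ / P) + 1 : ℤ) : ℝ) := by
    rw [← h1]; exact_mod_cast this
  push_cast at h3
  linarith

lemma sum_Sol_low {Q P H : ℕ} [Fact P.Prime] {d : ZMod P} (hd : ¬ IsSquare d) {b c : ℤ}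
    (hb : 0 < b) (hbc : b < c) (hcH : c ≤ H) (hHP : H < P) :
    (∑ k ∈ KK ((c - 1) / H), (Sol d ((c - b : ℤ) : ZMod P) b c
      ((Q * k.1 : ℤ) : ZMod P) ((Q * k.2.1 : ℤ) : ZMod P) ((Q * k.2.2 : ℤ) : ZMod P)).card) ≤
      P ^ 2 := by
  have h0 : (c - 1) / H = 0 := Int.ediv_eq_zero_of_lt (by omega) (by omega)
  have nz : ∀ u : ℤ, 0 < u → u ≤ c → (u : ZMod P) ≠ 0 := by
    intro u h1 h2 h
    have := Int.le_of_dvd h1 ((ZMod.intCast_zmod_eq_zero_iff_dvd u P).1 h)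
    omega
  have := card_Sol_zero_zero (a := ((c - b : ℤ) : ZMod P)) (b := b) (c := c) hd (by push_cast; rfl)
    (nz _ (by omega) (by omega)) (nz _ hb hbc.le) (nz _ (by omega) le_rfl)
  rw [ZMod.card] at this
  simpa [h0, KK] using this

lemma sum_Sol_high {Q P H : ℕ} [Fact P.Prime] {d : ZMod P} (hd : ¬ IsSquare d) (hP2 : P ≠ 2)
    (hPQ : ¬ P ∣ Q) {b c : ℤ} (hb : 0 < b) (hbc : b < c) (hcop : IsCoprime b c) (hH : 0 < H)
    (hcH : H < c) (hHP : H ^ 2 ≤ P) :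
    ((∑ k ∈ KK ((c - 1) / H), (Sol d ((c - b : ℤ) : ZMod P) b c
      ((Q * k.1 : ℤ) : ZMod P) ((Q * k.2.1 : ℤ) : ZMod P) ((Q * k.2.2 : ℤ) : ZMod P)).card : ℕ) : ℝ) ≤
      60 * (c / H : ℝ) ^ 3 * P ^ 3 := by
  classical
  have hpp : P.Prime := Fact.out
  have hP' : (0 : ℤ) < P := by exact_mod_cast hpp.pos
  have hPr : (1 : ℝ) ≤ P := by exact_mod_cast hpp.one_le
  have hH' : (0 : ℤ) < H := by exact_mod_cast hH
  have hHr : (0 : ℝ) < H := by exact_mod_cast hH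
  have h2 : (2 : ZMod P) ≠ 0 := by
    intro h
    have : ((2 : ℕ) : ZMod P) = 0 := by exact_mod_cast h
    rw [ZMod.natCast_eq_zero_iff] at this
    exact hP2 ((Nat.prime_dvd_prime_iff_eq hpp Nat.prime_two).1 this)
  have hd0 : d ≠ 0 := by rintro rfl; exact hd ⟨0, by simp⟩
  set κ := (c - 1) / H with hκ
  have hκ0 : 0 ≤ κ := Int.ediv_nonneg (by omega) hH'.le
  set u : ℝ := c / H with hu
  have hu1 : 1 ≤ u := by
    rw [hu, le_div_iff₀ hHr, one_mul]; exact_mod_cast hcH.le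
  have hκu : (κ : ℝ) ≤ u := by
    rw [hu, le_div_iff₀ hHr]
    have := Int.ediv_mul_le (c - 1) hH'.ne'
    rw [← hκ] at this
    exact_mod_cast (by omega : κ * H ≤ c)
  have hI : ((Icc (-κ) κ).card : ℝ) ≤ 3 * u := by
    have h1 : ((Icc (-κ) κ).card : ℤ) = 2 * κ + 1 := by rw [Int.card_Icc]; omega
    have h2 : ((Icc (-κ) κ).card : ℝ) = 2 * κ + 1 := by exact_mod_cast h1
    rw [h2]; linarith
  have hK : ((KK κ).card : ℝ) ≤ 27 * u ^ 3 := by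
    rw [KK, card_product, card_product]; push_cast
    calc _ ≤ (3 * u) * ((3 * u) * (3 * u)) := by gcongr
      _ = _ := by ring
  have habc : ((c - b : ℤ) : ZMod P) = c - b := by push_cast; rfl
  have hu3 : 0 ≤ u ^ 3 * P ^ 3 := by positivity
  by_cases hz : ((c - b : ℤ) : ZMod P) ≠ 0 ∧ (b : ZMod P) ≠ 0 ∧ (c : ZMod P) ≠ 0
  · have := sum_le_card_nsmul (KK κ) (fun k : ℤ × ℤ × ℤ => (Sol d ((c - b : ℤ) : ZMod P) b c
      ((Q * k.1 : ℤ) : ZMod P) ((Q * k.2.1 : ℤ) : ZMod P) ((Q * k.2.2 : ℤ) : ZMod P)).card)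
      (2 * P ^ 3) fun k _ => by
      have := card_Sol_le_two (k₀ := ((Q * k.1 : ℤ) : ZMod P)) (k₁ := ((Q * k.2.1 : ℤ) : ZMod P))
        (k₂ := ((Q * k.2.2 : ℤ) : ZMod P)) h2 hd0 habc hz.1 hz.2.1 hz.2.2
      rwa [ZMod.card] at this
    rw [smul_eq_mul] at this
    calc _ ≤ (((KK κ).card * (2 * P ^ 3) : ℕ) : ℝ) := by exact_mod_cast this
      _ ≤ 27 * u ^ 3 * (2 * P ^ 3) := by push_cast; gcongr
      _ ≤ _ := by linarith
  have hPc : (P : ℤ) ≤ c := by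
    by_contra hlt
    have nz : ∀ v : ℤ, 0 < v → v ≤ c → (v : ZMod P) ≠ 0 := by
      intro v h1 h2 h
      have := Int.le_of_dvd h1 ((ZMod.intCast_zmod_eq_zero_iff_dvd v P).1 h)
      omega
    exact hz ⟨nz _ (by omega) (by omega), nz _ hb hbc.le, nz _ (by omega) le_rfl⟩
  have hbc' : (b : ZMod P) ≠ 0 ∨ (c : ZMod P) ≠ 0 := by
    by_contra hcon
    push Not at hcon
    obtain ⟨x, y, hxy⟩ := hcop
    have := congrArg (Int.cast : ℤ → ZMod P) hxy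
    push_cast at this
    rw [hcon.1, hcon.2] at this
    simp at this
  have hQ0 : (Q : ZMod P) ≠ 0 := by rwa [Ne, ZMod.natCast_eq_zero_iff]
  have hsum : (∑ k ∈ KK κ, (Sol d ((c - b : ℤ) : ZMod P) b c
      ((Q * k.1 : ℤ) : ZMod P) ((Q * k.2.1 : ℤ) : ZMod P) ((Q * k.2.2 : ℤ) : ZMod P)).card) ≤
      ∑ k ∈ KK κ, (P ^ 3 + if (P : ℤ) ∣ k.1 ∧ (P : ℤ) ∣ k.2.1 then P ^ 4 else 0) := by
    refine sum_le_sum fun k _ => ?_
    split_ifs with h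
    · have := card_Sol_le4 (d := d) (k₀ := ((Q * k.1 : ℤ) : ZMod P))
        (k₁ := ((Q * k.2.1 : ℤ) : ZMod P)) (k₂ := ((Q * k.2.2 : ℤ) : ZMod P)) habc hbc'
      rw [ZMod.card] at this; omega
    · have := card_Sol_le3 (k₀ := ((Q * k.1 : ℤ) : ZMod P))
        (k₁ := ((Q * k.2.1 : ℤ) : ZMod P)) (k₂ := ((Q * k.2.2 : ℤ) : ZMod P)) h2 hd0 habc hbc' (by
          push_cast
          rw [not_and_or, ← ZMod.intCast_zmod_eq_zero_iff_dvd,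
            ← ZMod.intCast_zmod_eq_zero_iff_dvd] at h
          exact h.imp (mul_ne_zero hQ0) (mul_ne_zero hQ0))
      rw [ZMod.card] at this; omega
  rw [sum_add_distrib, ← sum_filter, sum_const, sum_const, smul_eq_mul, smul_eq_mul] at hsum
  have hfil : ((KK κ).filter fun k => (P : ℤ) ∣ k.1 ∧ (P : ℤ) ∣ k.2.1) =
      ((Icc (-κ) κ).filter fun k => (P : ℤ) ∣ k) ×ˢ ((Icc (-κ) κ).filter fun k => (P : ℤ) ∣ k) ×ˢ
        Icc (-κ) κ := by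
    ext k; simp only [KK, mem_filter, mem_product]; tauto
  rw [hfil, card_product, card_product] at hsum
  have hc1 := card_dvd_Icc hP' hκ0
  generalize ((Icc (-κ) κ).filter fun k => (P : ℤ) ∣ k).card = A at *
  have hPu : (P : ℝ) ≤ u ^ 2 := by
    rw [hu, div_pow, le_div_iff₀ (by positivity)]
    have e1 : ((H : ℝ)) ^ 2 ≤ P := by exact_mod_cast hHP
    have e2 : (P : ℝ) ≤ c := by exact_mod_cast hPc
    nlinarith
  have hA : (A : ℝ) ^ 2 * P ≤ 10 * u ^ 2 := by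
    have e0 : (0 : ℝ) ≤ κ := by exact_mod_cast hκ0
    push_cast at hc1
    have e1 : (κ / P : ℝ) ^ 2 * P ≤ u ^ 2 := by
      have : (κ / P : ℝ) ^ 2 * P = κ ^ 2 / P := by field_simp
      rw [this]
      exact (div_le_self (by positivity) hPr).trans (by gcongr)
    have e2 : (A : ℝ) ^ 2 ≤ 8 * (κ / P : ℝ) ^ 2 + 2 := by
      have : (A : ℝ) ^ 2 ≤ (2 * (κ / P : ℝ) + 1) ^ 2 := by gcongr
      nlinarith [sq_nonneg (2 * (κ / P : ℝ) - 1)]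
    nlinarith
  calc _ ≤ (((KK κ).card * P ^ 3 + A * (A * (Icc (-κ) κ).card) * P ^ 4 : ℕ) : ℝ) := by
        exact_mod_cast hsum
    _ = (KK κ).card * P ^ 3 + ((A : ℝ) ^ 2 * P) * (Icc (-κ) κ).card * P ^ 3 := by push_cast; ring
    _ ≤ 27 * u ^ 3 * P ^ 3 + (10 * u ^ 2) * (3 * u) * P ^ 3 := by gcongr
    _ ≤ _ := by linarith

end Pool.Agent.Lib.MP_a147dc_co
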