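import Pool.Agent.Lib.MP_a147dc_co.Siegel

/-! Degree and height bookkeeping, arcs modulo `q`, a weak Bezout bound. -/

namespace Pool.Agent.Lib.MP_a147dc_co

open Polynomial

section
variable {R : Type*} [CommRing R]

lemma coeff_swap (f : R[X][X]) (i j : ℕ) :
    ((Bivariate.swap f).coeff i).coeff j = (f.coeff j).coeff i := by
  induction f using Polynomial.induction_on' with
  | add p q hp hq => simp only [map_add, coeff_add, hp, hq]
  | monomial n c =>
    induction c using Polynomial.induction_on' with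
    | add p q hp hq => simp only [map_add, coeff_add, hp, hq]
    | monomial k r =>
      rw [Bivariate.swap_monomial_monomial]
      simp only [coeff_monomial]
      split_ifs <;> simp_all [coeff_monomial]

lemma deg_iff {f : R[X][X]} {a b : ℕ} :
    Deg f a b ↔ f.natDegree ≤ b ∧ (Bivariate.swap f).natDegree ≤ a := by
  unfold Deg
  refine and_congr_right fun _ => ⟨fun h => ?_, fun h j => ?_⟩
  · rw [natDegree_le_iff_coeff_eq_zero]
    intro i hi
    ext j
    rw [coeff_swap, coeff_eq_zero_of_natDegree_lt (lt_of_le_of_lt (h j) hi)]; simp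
  · rw [natDegree_le_iff_coeff_eq_zero]
    intro i hi
    rw [← coeff_swap, coeff_eq_zero_of_natDegree_lt (lt_of_le_of_lt h hi)]; simp

lemma Deg.mono {f : R[X][X]} {a b a' b' : ℕ} (h : Deg f a b) (ha : a ≤ a') (hb : b ≤ b') :
    Deg f a' b' := ⟨h.1.trans hb, fun j => (h.2 j).trans ha⟩

lemma Deg.mul {f g : R[X][X]} {a b a' b' : ℕ} (h : Deg f a b) (h' : Deg g a' b') :
    Deg (f * g) (a + a') (b + b') := by
  rw [deg_iff] at *
  rw [map_mul]
  exact ⟨natDegree_mul_le.trans (add_le_add h.1 h'.1), natDegree_mul_le.trans (add_le_add h.2 h'.2)⟩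

lemma Deg.add {f g : R[X][X]} {a b : ℕ} (h : Deg f a b) (h' : Deg g a b) : Deg (f + g) a b := by
  rw [deg_iff] at *
  rw [map_add]
  exact ⟨(natDegree_add_le _ _).trans (max_le h.1 h'.1),
    (natDegree_add_le _ _).trans (max_le h.2 h'.2)⟩

lemma Deg.sub {f g : R[X][X]} {a b : ℕ} (h : Deg f a b) (h' : Deg g a b) : Deg (f - g) a b := by
  rw [deg_iff] at *
  rw [map_sub]
  exact ⟨(natDegree_sub_le _ _).trans (max_le h.1 h'.1),
    (natDegree_sub_le _ _).trans (max_le h.2 h'.2)⟩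

lemma Deg.deriv {f : R[X][X]} {a b : ℕ} (h : Deg f a b) : Deg (derivative f) a b := by
  refine ⟨(natDegree_derivative_le f).trans (by have := h.1; omega), fun j => ?_⟩
  rw [coeff_derivative]
  refine natDegree_mul_le.trans ?_
  have : ((j : R[X]) + 1).natDegree = 0 := by
    have : ((j : R[X]) + 1) = C ((j : R) + 1) := by simp
    rw [this, natDegree_C]
  rw [this]; exact h.2 _

lemma Deg.dX {f : R[X][X]} {a b : ℕ} (h : Deg f a b) : Deg (dX f) a b := by
  refine ⟨?_, fun j => ?_⟩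
  · rw [natDegree_le_iff_coeff_eq_zero]
    intro j hj
    rw [coeff_dX, coeff_eq_zero_of_natDegree_lt (lt_of_le_of_lt h.1 hj), derivative_zero]
  · rw [coeff_dX]
    exact (natDegree_derivative_le _).trans (by have := h.2 j; omega)

lemma Deg.hes {f : R[X][X]} {a b : ℕ} (h : Deg f a b) : Deg (Hes f) (3 * a) (3 * b) := by
  have e : Hes f = derivative f * derivative f * MP_a147dc_co.dX (MP_a147dc_co.dX f) -
      MP_a147dc_co.dX f * derivative f * MP_a147dc_co.dX (derivative f) -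
      MP_a147dc_co.dX f * derivative f * MP_a147dc_co.dX (derivative f) +
      MP_a147dc_co.dX f * MP_a147dc_co.dX f * derivative (derivative f) := by
    unfold Hes; ring
  have h3 : ∀ {p q r : R[X][X]}, Deg p a b → Deg q a b → Deg r a b →
      Deg (p * q * r) (3 * a) (3 * b) := fun hp hq hr =>
    ((hp.mul hq).mul hr).mono (by omega) (by omega)
  rw [e]
  exact (((h3 h.deriv h.deriv h.dX.dX).sub (h3 h.dX h.deriv h.deriv.dX)).sub
    (h3 h.dX h.deriv h.deriv.dX)).add (h3 h.dX h.dX h.deriv.deriv)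

end

lemma Ht.mono {f : ℤ[X][X]} {K K' : ℕ} (h : Ht f K) (hK : K ≤ K') : Ht f K' :=
  fun j i => (h j i).trans (by exact_mod_cast hK)

lemma Ht.deriv {f : ℤ[X][X]} {e K : ℕ} (hd : Deg f e e) (h : Ht f K) :
    Ht (derivative f) (e * K) := by
  intro j i
  rw [coeff_derivative]
  by_cases hj : j + 1 ≤ e
  · have : ((j : ℤ[X]) + 1) = C ((j : ℤ) + 1) := by simp
    rw [this, coeff_mul_C, abs_mul, abs_of_nonneg (by positivity : (0 : ℤ) ≤ j + 1)]
    push_cast
    rw [mul_comm]
    exact mul_le_mul (by exact_mod_cast hj) (h _ _) (abs_nonneg _) (by positivity)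
  · rw [coeff_eq_zero_of_natDegree_lt (lt_of_le_of_lt hd.1 (by omega))]
    simp only [zero_mul, coeff_zero, abs_zero]; positivity

lemma Ht.dX {f : ℤ[X][X]} {e K : ℕ} (hd : Deg f e e) (h : Ht f K) : Ht (dX f) (e * K) := by
  intro j i
  rw [coeff_dX, coeff_derivative]
  by_cases hi : i + 1 ≤ e
  · rw [abs_mul, abs_of_nonneg (by positivity : (0 : ℤ) ≤ i + 1)]
    push_cast
    rw [mul_comm]
    exact mul_le_mul (by exact_mod_cast hi) (h _ _) (abs_nonneg _) (by positivity)
  · rw [coeff_eq_zero_of_natDegree_lt (lt_of_le_of_lt (hd.2 j) (by omega))]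
    simp only [zero_mul, abs_zero]; positivity

lemma abs_Hes_le {m e K : ℕ} (hm : 1 ≤ m) (he : 1 ≤ e) {x : ℤ × ℤ}
    (hx : 0 ≤ x.1 ∧ x.1 ≤ m ∧ 0 ≤ x.2 ∧ x.2 ≤ m) {f : ℤ[X][X]} (hf : Deg f e e) (hK : Ht f K) :
    |(Hes f).evalEval x.1 x.2| ≤ (4 * ((e + 1) * (e + 1) * m ^ (e + e) * (e * (e * K))) ^ 3 : ℕ) := by
  have hle : e * K ≤ e * (e * K) := Nat.le_mul_of_pos_left _ he
  have b1 := abs_evalEval_le hm hx hf.deriv ((hK.deriv hf).mono hle)
  have b2 := abs_evalEval_le hm hx hf.dX ((hK.dX hf).mono hle)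
  have b3 := abs_evalEval_le hm hx hf.dX.dX ((hK.dX hf).dX hf.dX)
  have b4 := abs_evalEval_le hm hx hf.deriv.dX ((hK.deriv hf).dX hf.deriv)
  have b5 := abs_evalEval_le hm hx hf.deriv.deriv ((hK.deriv hf).deriv hf.deriv)
  have e2 : (2 : ℤ[X][X]).evalEval x.1 x.2 = 2 := by simp [evalEval]
  simp only [Hes, evalEval_add, evalEval_sub, evalEval_mul, evalEval_pow, e2]
  generalize ((e + 1) * (e + 1) * m ^ (e + e) * (e * (e * K))) = V at *
  generalize (derivative f).evalEval x.1 x.2 = B at *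
  generalize (MP_a147dc_co.dX f).evalEval x.1 x.2 = A at *
  generalize (MP_a147dc_co.dX (MP_a147dc_co.dX f)).evalEval x.1 x.2 = p at *
  generalize (MP_a147dc_co.dX (derivative f)).evalEval x.1 x.2 = q at *
  generalize (derivative (derivative f)).evalEval x.1 x.2 = r at *
  have h3 : ∀ {a b c : ℤ}, |a| ≤ V → |b| ≤ V → |c| ≤ V → |a * b * c| ≤ (V : ℤ) ^ 3 := by
    intro a b c ha hb hc
    rw [abs_mul, abs_mul]
    calc _ ≤ (V : ℤ) * V * V := by gcongr
      _ = _ := by ring
  have c1 := abs_le.1 (h3 b1 b1 b3)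
  have c2 := abs_le.1 (h3 b2 b1 b4)
  have c3 := abs_le.1 (h3 b2 b2 b5)
  push_cast
  rw [abs_le]
  constructor <;> nlinarith [c1.1, c1.2, c2.1, c2.2, c3.1, c3.2]

/-- points of a curve with nonzero curvature split into few sets in general position -/
lemma arcs_bound {S U : Finset (ℤ × ℤ)} {α Y Ξ : ℕ} (hα : ∀ G ⊆ S, GP G → G.card ≤ α)
    (hU : U ⊆ S) (f : ℤ[X][X]) (h0 : ∀ x ∈ U, f.evalEval x.1 x.2 = 0)
    (h1 : ∀ x ∈ U, (Hes f).evalEval x.1 x.2 ≠ 0)
    (h2 : ∀ x ∈ U, |(Hes f).evalEval x.1 x.2| ≤ Ξ) (hY : (Y + 1) * Ξ < 2 ^ Y) :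
    U.card ≤ Y ^ 3 * α := by
  classical
  have hq : ∀ x : ℤ × ℤ, ∃ q : ℕ, x ∈ U → q ∈ Finset.Icc 1 Y ∧
      ¬ (q : ℤ) ∣ (Hes f).evalEval x.1 x.2 := by
    intro x
    by_cases hx : x ∈ U
    swap
    · exact ⟨0, fun h => absurd h hx⟩
    by_contra hc
    push Not at hc
    have hd : Nat.lcmUpto Y ∣ ((Hes f).evalEval x.1 x.2).natAbs := by
      unfold Nat.lcmUpto
      apply Finset.lcm_dvd
      intro q hq
      exact Int.natCast_dvd.1 ((hc q).2 hq)
    have h3 := Nat.le_of_dvd (Int.natAbs_pos.2 (h1 x hx)) hd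
    have h4 : ((Hes f).evalEval x.1 x.2).natAbs ≤ Ξ := by
      have := h2 x hx
      rw [Int.abs_eq_natAbs] at this
      exact_mod_cast this
    have h5 := Chebyshev.two_pow_le_mul_lcmUpto Y
    have : (Y + 1) * Nat.lcmUpto Y ≤ (Y + 1) * Ξ := Nat.mul_le_mul_left _ (h3.trans h4)
    omega
  choose q hq using hq
  have := Finset.card_le_mul_card_image_of_maps_to (s := U)
    (t := Finset.Icc 1 Y ×ˢ (Finset.Ico (0 : ℤ) Y ×ˢ Finset.Ico (0 : ℤ) Y))
    (f := fun x => (q x, x.1 % q x, x.2 % q x)) (fun x hx => by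
      have h := Finset.mem_Icc.1 (hq x hx).1
      have hq0 : (0 : ℤ) < q x := by exact_mod_cast h.1
      have hq1 : (q x : ℤ) ≤ Y := by exact_mod_cast h.2
      simp only [Finset.mem_product, Finset.mem_Ico]
      exact ⟨(hq x hx).1, ⟨Int.emod_nonneg _ hq0.ne', (Int.emod_lt_of_pos _ hq0).trans_le hq1⟩,
        ⟨Int.emod_nonneg _ hq0.ne', (Int.emod_lt_of_pos _ hq0).trans_le hq1⟩⟩) α (by
      rintro ⟨q0, r1, r2⟩ _
      apply hα _ ((Finset.filter_subset _ _).trans hU)
      intro x hx y hy z hz hxy hxz hyz hd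
      simp only [Finset.mem_filter, Prod.mk.injEq] at hx hy hz
      apply (hq x hx.1).2
      have key : ∀ w : ℤ × ℤ, (q w = q0 ∧ w.1 % (q w : ℤ) = r1 ∧ w.2 % (q w : ℤ) = r2) →
          Cong (q x) w x := by
        rintro w ⟨w0, w1, w2⟩
        obtain ⟨x0, x1, x2⟩ := hx.2
        rw [w0, ← x0] at w1 w2
        exact ⟨(Int.emod_emod_of_dvd _ (dvd_refl _) ▸ Int.emod_eq_emod_iff_emod_sub_eq_zero.1
            (w1.trans x1.symm)) |> Int.dvd_of_emod_eq_zero,
          Int.dvd_of_emod_eq_zero (Int.emod_eq_emod_iff_emod_sub_eq_zero.1 (w2.trans x2.symm))⟩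
      exact dvd_Hes_of_collinear f (q x) hxy hxz hyz hd (h0 x hx.1) (h0 y hy.1) (h0 z hz.1)
        (key y hy.2) (key z hz.2))
  simp only [Finset.card_product, Nat.card_Icc, Int.card_Ico, add_tsub_cancel_right, sub_zero,
    Int.toNat_natCast] at this
  calc _ ≤ _ := this
    _ = _ := by ring

lemma vertical_bound {S U : Finset (ℤ × ℤ)} (hS : No4 S) (hU : U ⊆ S) (r : ℚ[X]) (hr : r ≠ 0)
    (h : ∀ x ∈ U, r.eval (x.1 : ℚ) = 0) : U.card ≤ 3 * r.natDegree := by
  classical
  have := Finset.card_le_mul_card_image_of_maps_to (s := U) (t := r.roots.toFinset)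
    (f := fun x => (x.1 : ℚ)) (fun x hx => by
      rw [Multiset.mem_toFinset, mem_roots hr]; exact h x hx) 3 (by
      intro c _
      apply hS.card_le_three ((Finset.filter_subset _ _).trans hU)
      intro x hx y hy z hz
      simp only [Finset.mem_filter] at hx hy hz
      have e1 : y.1 = x.1 := by exact_mod_cast hy.2.trans hx.2.symm
      have e2 : z.1 = x.1 := by exact_mod_cast hz.2.trans hx.2.symm
      simp [det3, e1, e2])
  exact this.trans (Nat.mul_le_mul_left _
    ((Multiset.toFinset_card_le _).trans (card_roots' r)))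

lemma bezout_lite (f g : ℚ[X][X]) (hf : Irreducible f) (hf0 : f.natDegree ≠ 0) (hfg : ¬ f ∣ g)
    {E : ℕ} (hE : ∀ j, (f.coeff j).natDegree ≤ E) (hE' : ∀ j, (g.coeff j).natDegree ≤ E) :
    ∃ r : ℚ[X], r ≠ 0 ∧ r.natDegree ≤ (f.natDegree + g.natDegree) * E ∧
      ∀ x y : ℚ, f.evalEval x y = 0 → g.evalEval x y = 0 → r.eval x = 0 := by
  refine ⟨resultant f g, ?_, ?_, ?_⟩
  · intro h0
    let K := FractionRing ℚ[X]
    have hinj : Function.Injective (algebraMap ℚ[X] K) := IsFractionRing.injective _ _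
    have hp := hf.isPrimitive hf0
    have hi : Irreducible (f.map (algebraMap ℚ[X] K)) :=
      (hp.irreducible_iff_irreducible_map_fraction_map).1 hf
    have hnd : ¬ f.map (algebraMap ℚ[X] K) ∣ g.map (algebraMap ℚ[X] K) :=
      fun h => hfg (hp.dvd_of_fraction_map_dvd_fraction_map h)
    have hc := hi.coprime_iff_not_dvd.2 hnd
    have := resultant_ne_zero _ _ hc
    rw [natDegree_map_eq_of_injective hinj, natDegree_map_eq_of_injective hinj,
      resultant_map_map, h0, map_zero] at this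
    exact this rfl
  · unfold resultant
    rw [Matrix.det_apply]
    apply natDegree_sum_le_of_forall_le
    intro σ _
    refine (natDegree_smul_le _ _).trans ((natDegree_prod_le _ _).trans ?_)
    refine (Finset.sum_le_card_nsmul _ _ E ?_).trans (by simp)
    intro i _
    unfold sylvester
    rw [Matrix.of_apply]
    refine Fin.addCases (fun j => ?_) (fun j => ?_) i
    · rw [Fin.addCases_left]; split_ifs
      · exact hE' _
      · simp
    · rw [Fin.addCases_right]; split_ifs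
      · exact hE _
      · simp
  · intro x y hx hy
    obtain ⟨p, q, -, -, h⟩ := exists_mul_add_mul_eq_C_resultant f g le_rfl le_rfl (Or.inl hf0)
    have := congrArg (evalEval x y) h
    rw [evalEval_add, evalEval_mul, evalEval_mul, hx, hy, evalEval_C] at this
    simpa using this.symm

end Pool.Agent.Lib.MP_a147dc_co
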