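import Pool.Agent.Lib.MP_a147dc_co.Curve1

/-! Few points lie on a curve of low degree when general position subsets are small. -/

namespace Pool.Agent.Lib.MP_a147dc_co

open Polynomial

/-- degree measure -/
noncomputable def dg (f : ℚ[X][X]) : ℕ := f.natDegree + (Bivariate.swap f).natDegree

lemma dg_mul {f g : ℚ[X][X]} (hf : f ≠ 0) (hg : g ≠ 0) : dg (f * g) = dg f + dg g := by
  unfold dg
  rw [map_mul, natDegree_mul hf hg, natDegree_mul ((map_ne_zero_iff _ Bivariate.swap.injective).2 hf)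
    ((map_ne_zero_iff _ Bivariate.swap.injective).2 hg)]
  ring

lemma deg_dg (f : ℚ[X][X]) : Deg f (Bivariate.swap f).natDegree f.natDegree :=
  deg_iff.2 ⟨le_rfl, le_rfl⟩

lemma isUnit_of_dg {f : ℚ[X][X]} (hf : f ≠ 0) (h : dg f = 0) : IsUnit f := by
  unfold dg at h
  have h1 : f.natDegree = 0 := by omega
  have h2 : (f.coeff 0).natDegree = 0 := by have := (deg_dg f).2 0; omega
  rw [eq_C_of_natDegree_eq_zero h1, eq_C_of_natDegree_eq_zero h2] at hf ⊢
  rw [isUnit_C, isUnit_C, isUnit_iff_ne_zero]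
  intro h0
  apply hf
  rw [h0]; simp

lemma onLine_zero_one (c σ : ℚ) (f : ℚ[X][X]) : onLine 0 1 c σ f = f.eval (C c + C σ * X) := by
  induction f using Polynomial.induction_on' with
  | add p q hp hq => rw [map_add, eval_add, hp, hq]
  | monomial j a => rw [onLine_monomial, eval_monomial]; simp

lemma tangent_bound {S U : Finset (ℤ × ℤ)} (hS : No4 S) (hU : U ⊆ S) (f : ℚ[X][X]) (hf0 : f ≠ 0)
    (hf : f ∣ Hes f) (h0 : ∀ x ∈ U, f.evalEval (x.1 : ℚ) (x.2 : ℚ) = 0)
    (h1 : ∀ x ∈ U, (derivative f).evalEval (x.1 : ℚ) (x.2 : ℚ) ≠ 0) :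
    U.card ≤ 3 * f.natDegree := by
  classical
  have hl : ∀ x : ℤ × ℤ, ∃ p : ℚ × ℚ, x ∈ U → f.IsRoot (C p.1 + C p.2 * X) ∧
      (x.2 : ℚ) = p.1 + p.2 * x.1 := by
    intro x
    by_cases hx : x ∈ U
    swap
    · exact ⟨0, fun h => absurd h hx⟩
    obtain ⟨σ, hσ⟩ := tangent_subset f hf _ _ (h0 x hx) (h1 x hx)
    refine ⟨((x.2 : ℚ) - σ * x.1, σ), fun _ => ⟨?_, by simp⟩⟩
    rw [IsRoot, ← onLine_zero_one]
    apply Polynomial.funext
    intro s
    have := congrArg (eval (s - x.1)) hσ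
    rw [eval_onLine] at this ⊢
    rw [eval_zero] at this ⊢
    have e1 : (0 : ℚ) + 1 * s = x.1 + 1 * (s - x.1) := by ring
    have e2 : (x.2 : ℚ) - σ * x.1 + σ * s = x.2 + σ * (s - x.1) := by ring
    rw [e1, e2, this]
  choose p hp using hl
  have := Finset.card_le_mul_card_image_of_maps_to (s := U) (t := f.roots.toFinset)
    (f := fun x => C (p x).1 + C (p x).2 * X) (fun x hx => by
      rw [Multiset.mem_toFinset, mem_roots hf0]; exact (hp x hx).1) 3 (by
      intro l _
      apply hS.card_le_three ((Finset.filter_subset _ _).trans hU)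
      intro x hx y hy z hz
      simp only [Finset.mem_filter] at hx hy hz
      have key : ∀ w ∈ U, C (p w).1 + C (p w).2 * X = l → (w.2 : ℚ) = (p x).1 + (p x).2 * w.1 := by
        intro w hw hl
        have := congrArg (eval (w.1 : ℚ)) (hl.trans hx.2.symm)
        simp only [eval_add, eval_mul, eval_C, eval_X] at this
        rw [(hp w hw).2, this]
      have e1 := key x hx.1 hx.2
      have e2 := key y hy.1 hy.2
      have e3 := key z hz.1 hz.2
      have : ((det3 x y z : ℤ) : ℚ) = 0 := by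
        unfold det3; push_cast; rw [e1, e2, e3]; ring
      exact_mod_cast this)
  exact this.trans (Nat.mul_le_mul_left _
    ((Multiset.toFinset_card_le _).trans (card_roots' f)))

/-- bound for the curvature values -/
def XiC (m e : ℕ) : ℕ :=
  4 * ((e + 1) * (e + 1) * m ^ (e + e) *
    (e * (e * ((e + 1) * (e + 1) * m ^ (e + e)) ^ ((e + 1) * (e + 1))))) ^ 3

lemma cast_evalEval (f : ℤ[X][X]) (x : ℤ × ℤ) :
    (f.map (mapRingHom (Int.castRingHom ℚ))).evalEval (x.1 : ℚ) (x.2 : ℚ) =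
      (f.evalEval x.1 x.2 : ℤ) :=
  map_mapRingHom_evalEval (Int.castRingHom ℚ) f x.1 x.2

lemma Deg.map_cast {f : ℤ[X][X]} {a b : ℕ} (h : Deg f a b) :
    Deg (f.map (mapRingHom (Int.castRingHom ℚ))) a b :=
  ⟨natDegree_map_le.trans h.1, fun j => by
    rw [coeff_map]; exact natDegree_map_le.trans (h.2 j)⟩

lemma map_cast_ne_zero {f : ℤ[X][X]} (h : f ≠ 0) :
    f.map (mapRingHom (Int.castRingHom ℚ)) ≠ 0 := by
  rw [Polynomial.map_ne_zero_iff]
  · exact h
  · exact map_injective _ (RingHom.injective_int _)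

theorem curve_bound {S : Finset (ℤ × ℤ)} {m α e Y : ℕ} (hm : 1 ≤ m) (hB : InBox S m) (hS : No4 S)
    (hα : ∀ G ⊆ S, GP G → G.card ≤ α) (hY : (Y + 1) * XiC m e < 2 ^ Y) (d : ℕ) (hd : d ≤ e) :
    ∀ f : ℚ[X][X], f ≠ 0 → dg f ≤ d →
      (S.filter fun x => f.evalEval (x.1 : ℚ) (x.2 : ℚ) = 0).card ≤
        d * (Y ^ 3 * α + 36 * e ^ 2 + 3 * e + 3) := by
  classical
  induction d using Nat.strong_induction_on with
  | _ d ih =>
  intro g hg hgd
  set Λ := Y ^ 3 * α + 36 * e ^ 2 + 3 * e + 3 with hΛ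
  by_contra hc
  push Not at hc
  set U := S.filter fun x => g.evalEval (x.1 : ℚ) (x.2 : ℚ) = 0 with hUdef
  have hUS : U ⊆ S := Finset.filter_subset _ _
  obtain ⟨f₀, hf₀, hdeg, hht, hv₀⟩ := exists_int_poly U hm (hB.mono hUS) g hg (deg_dg g)
    (fun x hx => (Finset.mem_filter.1 hx).2)
  set f := f₀.map (mapRingHom (Int.castRingHom ℚ)) with hfdef
  have hf : f ≠ 0 := map_cast_ne_zero hf₀
  have hv : ∀ x ∈ U, f.evalEval (x.1 : ℚ) (x.2 : ℚ) = 0 := by
    intro x hx; rw [hfdef, cast_evalEval, hv₀ x hx]; simp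
  have hfD := hdeg.map_cast
  rw [← hfdef] at hfD
  have hfd : dg f ≤ d := by
    have := deg_iff.1 hfD
    unfold dg at hgd ⊢; omega
  have ha : (Bivariate.swap g).natDegree ≤ e := by unfold dg at hgd; omega
  have hb : g.natDegree ≤ e := by unfold dg at hgd; omega
  have hnu : ¬ IsUnit f := by
    intro hu
    obtain ⟨x, hx⟩ : U.Nonempty := Finset.card_pos.1 (by omega)
    have := (hu.map (evalEvalRingHom (x.1 : ℚ) (x.2 : ℚ))).ne_zero
    exact this (hv x hx)
  have hd1 : 1 ≤ dg f := by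
    by_contra h
    exact hnu (isUnit_of_dg hf (by omega))
  have hirr : Irreducible f := by
    refine ⟨hnu, fun p q hpq => ?_⟩
    by_contra hcon
    push Not at hcon
    have hp : p ≠ 0 := by rintro rfl; exact hf (by simp [hpq])
    have hq : q ≠ 0 := by rintro rfl; exact hf (by simp [hpq])
    have e1 := dg_mul hp hq
    rw [← hpq] at e1
    have p1 : 1 ≤ dg p := by
      by_contra h
      exact hcon.1 (isUnit_of_dg hp (by omega))
    have q1 : 1 ≤ dg q := by
      by_contra h
      exact hcon.2 (isUnit_of_dg hq (by omega))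
    have i1 := ih (dg p) (by omega) (by omega) p hp le_rfl
    have i2 := ih (dg q) (by omega) (by omega) q hq le_rfl
    have hsub : U ⊆ (S.filter fun x => p.evalEval (x.1 : ℚ) (x.2 : ℚ) = 0) ∪
        (S.filter fun x => q.evalEval (x.1 : ℚ) (x.2 : ℚ) = 0) := by
      intro x hx
      have := hv x hx
      rw [hpq, evalEval_mul, mul_eq_zero] at this
      simp only [Finset.mem_union, Finset.mem_filter]
      exact this.imp (fun h => ⟨hUS hx, h⟩) (fun h => ⟨hUS hx, h⟩)
    have := (Finset.card_le_card hsub).trans (Finset.card_union_le _ _)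
    have h2 : dg p * Λ + dg q * Λ ≤ d * Λ := by
      rw [← add_mul]; exact Nat.mul_le_mul_right _ (by omega)
    omega
  have hΛ3 : 3 ≤ Λ := by omega
  have hdΛ : Λ ≤ d * Λ := Nat.le_mul_of_pos_left _ (by omega)
  by_cases hy : f.natDegree = 0
  · have hfc := eq_C_of_natDegree_eq_zero hy
    have hr : f.coeff 0 ≠ 0 := by intro h; rw [h] at hfc; exact hf (by simpa using hfc)
    have := vertical_bound hS hUS (f.coeff 0) hr (fun x hx => by
      have := hv x hx
      rwa [hfc, evalEval_C] at this)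
    have h2 : (f.coeff 0).natDegree ≤ d := by
      have := (deg_dg f).2 0
      unfold dg at hfd; omega
    have : 3 * d ≤ d * Λ := by rw [mul_comm]; exact Nat.mul_le_mul_left _ hΛ3
    omega
  have hfe : Deg f e e := hfD.mono ha hb
  by_cases hH : f ∣ Hes f
  · have hder : derivative f ≠ 0 := by
      intro h
      exact hy (derivative_eq_zero.1 h)
    have hdd : dg (derivative f) ≤ d - 1 := by
      have h1 := natDegree_derivative_lt hy
      have h2 := (deg_iff.1 (deg_dg f).deriv).2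
      unfold dg at hfd ⊢; omega
    have i1 := ih (d - 1) (by omega) (by omega) _ hder hdd
    have t1 := tangent_bound hS ((Finset.filter_subset
      (fun x : ℤ × ℤ => (derivative f).evalEval (x.1 : ℚ) (x.2 : ℚ) ≠ 0) U).trans hUS) f hf hH
      (fun x hx => hv x (Finset.mem_filter.1 hx).1) (fun x hx => (Finset.mem_filter.1 hx).2)
    have hsub : U ⊆ (S.filter fun x => (derivative f).evalEval (x.1 : ℚ) (x.2 : ℚ) = 0) ∪
        (U.filter fun x => (derivative f).evalEval (x.1 : ℚ) (x.2 : ℚ) ≠ 0) := by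
      intro x hx
      simp only [Finset.mem_union, Finset.mem_filter]
      by_cases h : (derivative f).evalEval (x.1 : ℚ) (x.2 : ℚ) = 0
      · exact Or.inl ⟨hUS hx, h⟩
      · exact Or.inr ⟨hx, h⟩
    have := (Finset.card_le_card hsub).trans (Finset.card_union_le _ _)
    have h2 : (d - 1) * Λ + Λ = d * Λ := by
      obtain ⟨k, rfl⟩ : ∃ k, d = k + 1 := ⟨d - 1, by omega⟩
      simp [add_mul]
    have := hfe.1
    omega
  · obtain ⟨r, hr, hrd, hrv⟩ := bezout_lite f (Hes f) hirr hy hH (E := 3 * e)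
      (fun j => (hfe.2 j).trans (by omega)) hfe.hes.2
    have hrd' : r.natDegree ≤ 12 * e ^ 2 := by
      have h1 := hfe.1
      have h2 := hfe.hes.1
      calc _ ≤ _ := hrd
        _ ≤ (e + 3 * e) * (3 * e) := Nat.mul_le_mul_right _ (by omega)
        _ = _ := by ring
    have v1 := vertical_bound hS ((Finset.filter_subset
      (fun x : ℤ × ℤ => (Hes f₀).evalEval x.1 x.2 = 0) U).trans hUS) r hr (fun x hx => by
        rw [Finset.mem_filter] at hx
        apply hrv _ _ (hv x hx.1)
        rw [hfdef, Hes_map, cast_evalEval, hx.2]; simp)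
    have he1 : 1 ≤ e := by omega
    have hht' : Ht f₀ (((e + 1) * (e + 1) * m ^ (e + e)) ^ ((e + 1) * (e + 1))) := by
      refine hht.mono ?_
      calc _ ≤ ((e + 1) * (e + 1) * m ^ (e + e)) ^
            (((Bivariate.swap g).natDegree + 1) * (g.natDegree + 1)) := by
            gcongr
        _ ≤ _ := Nat.pow_le_pow_right (by positivity) (by gcongr)
    have a1 := arcs_bound hα ((Finset.filter_subset
      (fun x : ℤ × ℤ => ¬ (Hes f₀).evalEval x.1 x.2 = 0) U).trans hUS) f₀
      (fun x hx => hv₀ x (Finset.mem_filter.1 hx).1) (fun x hx => (Finset.mem_filter.1 hx).2)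
      (fun x hx => abs_Hes_le hm he1 (hB x (hUS (Finset.mem_filter.1 hx).1)) (hdeg.mono ha hb) hht')
      hY
    have := Finset.card_filter_add_card_filter_not (s := U)
      (fun x : ℤ × ℤ => (Hes f₀).evalEval x.1 x.2 = 0)
    omega

end Pool.Agent.Lib.MP_a147dc_co
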