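import Mathlib

/-! Basic notions for integer point sets. -/

namespace Pool.Agent.Lib.MP_a147dc_co

open Finset

/-- twice the signed area of the triangle `x y z` -/
def det3 (x y z : ℤ × ℤ) : ℤ := (y.1 - x.1) * (z.2 - x.2) - (y.2 - x.2) * (z.1 - x.1)

/-- general position -/
def GP (G : Finset (ℤ × ℤ)) : Prop :=
  ∀ x ∈ G, ∀ y ∈ G, ∀ z ∈ G, x ≠ y → x ≠ z → y ≠ z → det3 x y z ≠ 0

/-- no four points on a line -/
def No4 (S : Finset (ℤ × ℤ)) : Prop :=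
  ∀ x ∈ S, ∀ y ∈ S, ∀ z ∈ S, ∀ w ∈ S, x ≠ y → x ≠ z → x ≠ w → y ≠ z → y ≠ w → z ≠ w →
    det3 x y z = 0 → det3 x y w = 0 → False

/-- all points lie in the box `[0,m]^2` -/
def InBox (S : Finset (ℤ × ℤ)) (m : ℕ) : Prop :=
  ∀ x ∈ S, 0 ≤ x.1 ∧ x.1 ≤ m ∧ 0 ≤ x.2 ∧ x.2 ≤ m

/-- congruence of points -/
def Cong (d : ℕ) (x z : ℤ × ℤ) : Prop := (d : ℤ) ∣ x.1 - z.1 ∧ (d : ℤ) ∣ x.2 - z.2

instance (d : ℕ) (x z : ℤ × ℤ) : Decidable (Cong d x z) := by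
  unfold Cong; infer_instance

lemma Cong.refl (d : ℕ) (x : ℤ × ℤ) : Cong d x x := by simp [Cong]

lemma Cong.symm {d : ℕ} {x z : ℤ × ℤ} (h : Cong d x z) : Cong d z x :=
  ⟨(dvd_sub_comm).1 h.1, (dvd_sub_comm).1 h.2⟩

lemma Cong.trans {d : ℕ} {x y z : ℤ × ℤ} (h : Cong d x y) (h' : Cong d y z) : Cong d x z := by
  refine ⟨?_, ?_⟩
  · have := dvd_add h.1 h'.1
    simpa using this
  · have := dvd_add h.2 h'.2
    simpa using this

lemma Cong.of_dvd {d d' : ℕ} {x z : ℤ × ℤ} (hd : d ∣ d') (h : Cong d' x z) : Cong d x z :=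
  ⟨(Int.natCast_dvd_natCast.2 hd).trans h.1, (Int.natCast_dvd_natCast.2 hd).trans h.2⟩

/-- gcd of the coordinate differences -/
def gg (x z : ℤ × ℤ) : ℕ := Int.gcd (x.1 - z.1) (x.2 - z.2)

lemma cong_iff_dvd_gg {d : ℕ} {x z : ℤ × ℤ} : Cong d x z ↔ d ∣ gg x z := by
  unfold Cong gg
  exact (Int.dvd_gcd_iff).symm

lemma gg_pos {x z : ℤ × ℤ} (h : x ≠ z) : 0 < gg x z := by
  unfold gg
  rw [Int.gcd_pos_iff]
  by_contra hc
  push Not at hc
  apply h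
  ext
  · linarith [hc.1]
  · linarith [hc.2]

lemma gg_le {S : Finset (ℤ × ℤ)} {m : ℕ} (hS : InBox S m) {x z : ℤ × ℤ} (hx : x ∈ S) (hz : z ∈ S)
    (h : x ≠ z) : gg x z ≤ m := by
  obtain ⟨a1, a2, a3, a4⟩ := hS x hx
  obtain ⟨b1, b2, b3, b4⟩ := hS z hz
  by_cases h1 : x.1 - z.1 = 0
  · have h2 : x.2 - z.2 ≠ 0 := by
      intro h2; apply h; ext <;> linarith
    have := Int.le_of_dvd (abs_pos.2 h2) ((dvd_abs _ _).2 (Int.gcd_dvd_right (x.1 - z.1) (x.2 - z.2)))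
    have h3 : |x.2 - z.2| ≤ m := by rw [abs_le]; constructor <;> linarith
    unfold gg
    exact_mod_cast this.trans h3
  · have := Int.le_of_dvd (abs_pos.2 h1) ((dvd_abs _ _).2 (Int.gcd_dvd_left (x.1 - z.1) (x.2 - z.2)))
    have h3 : |x.1 - z.1| ≤ m := by rw [abs_le]; constructor <;> linarith
    unfold gg
    exact_mod_cast this.trans h3

lemma No4.mono {S T : Finset (ℤ × ℤ)} (h : No4 S) (hT : T ⊆ S) : No4 T :=
  fun x hx y hy z hz w hw => h x (hT hx) y (hT hy) z (hT hz) w (hT hw)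

lemma InBox.mono {S T : Finset (ℤ × ℤ)} {m : ℕ} (h : InBox S m) (hT : T ⊆ S) : InBox T m :=
  fun x hx => h x (hT hx)

/-- a collinear subset has at most three points -/
lemma No4.card_le_three {S T : Finset (ℤ × ℤ)} (h : No4 S) (hT : T ⊆ S)
    (hc : ∀ x ∈ T, ∀ y ∈ T, ∀ z ∈ T, det3 x y z = 0) : T.card ≤ 3 := by
  by_contra hlt
  push Not at hlt
  obtain ⟨U, hU, hUc⟩ := Finset.exists_subset_card_eq (show 4 ≤ T.card from hlt)
  obtain ⟨x, V, hxV, rfl, hV⟩ := Finset.card_eq_succ.1 (show U.card = 3 + 1 from hUc)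
  obtain ⟨y, z, w, hyz, hyw, hzw, rfl⟩ := Finset.card_eq_three.1 hV
  simp only [Finset.mem_insert, Finset.mem_singleton, not_or] at hxV
  have hx : x ∈ T := hU (by simp)
  have hy : y ∈ T := hU (by simp)
  have hz : z ∈ T := hU (by simp)
  have hw : w ∈ T := hU (by simp)
  exact h x (hT hx) y (hT hy) z (hT hz) w (hT hw) hxV.1 hxV.2.1 hxV.2.2 hyz hyw hzw
    (hc x hx y hy z hz) (hc x hx y hy w hw)

/-- parametrisation of a collinear triple along a primitive direction -/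
lemma exists_param {x y z : ℤ × ℤ} (hxy : x ≠ y) (h : det3 x y z = 0) :
    ∃ a b t₁ t₂ : ℤ, IsCoprime a b ∧ y.1 = x.1 + a * t₁ ∧ y.2 = x.2 + b * t₁ ∧
      z.1 = x.1 + a * t₂ ∧ z.2 = x.2 + b * t₂ := by
  have hg : 0 < Int.gcd (y.1 - x.1) (y.2 - x.2) := gg_pos hxy.symm
  obtain ⟨a, b, hab, ha, hb⟩ := Int.exists_gcd_one hg
  have hcop : IsCoprime a b := Int.isCoprime_iff_gcd_eq_one.2 hab
  set g : ℤ := (Int.gcd (y.1 - x.1) (y.2 - x.2) : ℤ) with hgdef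
  have hg0 : g ≠ 0 := by rw [hgdef]; exact_mod_cast hg.ne'
  have h1 : a * (z.2 - x.2) = b * (z.1 - x.1) := by
    have : g * (a * (z.2 - x.2) - b * (z.1 - x.1)) = 0 := by
      unfold det3 at h
      rw [ha, hb] at h
      linear_combination h
    rcases mul_eq_zero.1 this with h' | h'
    · exact absurd h' hg0
    · linarith
  obtain ⟨u, v, huv⟩ := hcop
  refine ⟨a, b, g, u * (z.1 - x.1) + v * (z.2 - x.2), ⟨u, v, huv⟩, by linarith, by linarith, ?_, ?_⟩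
  · linear_combination (-v) * h1 - (z.1 - x.1) * huv
  · linear_combination u * h1 - (z.2 - x.2) * huv

end Pool.Agent.Lib.MP_a147dc_co
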