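import Pool.Agent.Lib.MP_a147dc_co.Defs

/-! Calculus for bivariate polynomials and the curvature polynomial. -/

namespace Pool.Agent.Lib.MP_a147dc_co

open Polynomial

variable {R : Type*} [CommRing R]

/-- derivative in the inner variable -/
noncomputable def dX (f : R[X][X]) : R[X][X] := f.sum fun j c => monomial j (derivative c)

lemma coeff_dX (f : R[X][X]) (j : ℕ) : (dX f).coeff j = derivative (f.coeff j) := by
  unfold dX
  rw [Polynomial.sum, finsetSum_coeff]
  simp only [coeff_monomial]
  rw [Finset.sum_ite_eq']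
  split_ifs with h
  · rfl
  · rw [notMem_support_iff.1 h, derivative_zero]

lemma dX_add (f g : R[X][X]) : dX (f + g) = dX f + dX g := by
  ext1 j; simp [coeff_dX]

lemma dX_monomial (j : ℕ) (c : R[X]) : dX (monomial j c) = monomial j (derivative c) := by
  ext1 i; simp only [coeff_dX, coeff_monomial]; split_ifs <;> simp

lemma dX_derivative (f : R[X][X]) : dX (derivative f) = derivative (dX f) := by
  ext1 j
  simp only [coeff_dX, coeff_derivative, derivative_mul]
  have : derivative ((j : R[X]) + 1) = 0 := by simp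
  rw [this]; simp

lemma dX_map {S : Type*} [CommRing S] (φ : R →+* S) (f : R[X][X]) :
    dX (f.map (mapRingHom φ)) = (dX f).map (mapRingHom φ) := by
  ext1 j; simp [coeff_dX, coeff_map, derivative_map]

/-- restriction to the line `t ↦ (x + a t, y + b t)` -/
noncomputable def onLine (x a y b : R) : R[X][X] →+* R[X] :=
  eval₂RingHom (compRingHom (C x + C a * X)) (C y + C b * X)

lemma onLine_monomial (x a y b : R) (j : ℕ) (c : R[X]) :
    onLine x a y b (monomial j c) = c.comp (C x + C a * X) * (C y + C b * X) ^ j := by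
  simp [onLine, eval₂_monomial]

lemma derivative_onLine (x a y b : R) (f : R[X][X]) :
    derivative (onLine x a y b f) =
      C a * onLine x a y b (dX f) + C b * onLine x a y b (derivative f) := by
  induction f using Polynomial.induction_on' with
  | add p q hp hq => simp only [map_add, dX_add, hp, hq]; ring
  | monomial j c =>
    rw [dX_monomial, derivative_monomial, onLine_monomial, onLine_monomial, onLine_monomial,
      derivative_mul, derivative_comp, derivative_pow]
    simp only [derivative_add, derivative_C, derivative_mul, derivative_X, zero_mul, mul_one,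
      zero_add, mul_comp, natCast_comp, map_natCast]
    ring

lemma eval_onLine (x a y b t : R) (f : R[X][X]) :
    eval t (onLine x a y b f) = f.evalEval (x + a * t) (y + b * t) := by
  induction f using Polynomial.induction_on' with
  | add p q hp hq => rw [map_add, eval_add, hp, hq, evalEval_add]
  | monomial j c =>
    rw [onLine_monomial]
    simp [evalEval, eval_monomial, eval_comp]

/-- the curvature polynomial -/
noncomputable def Hes (f : R[X][X]) : R[X][X] :=
  (derivative f) ^ 2 * dX (dX f) - 2 * dX f * derivative f * dX (derivative f) +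
    (dX f) ^ 2 * derivative (derivative f)

lemma Hes_map {S : Type*} [CommRing S] (φ : R →+* S) (f : R[X][X]) :
    Hes (f.map (mapRingHom φ)) = (Hes f).map (mapRingHom φ) := by
  simp [Hes, dX_map, derivative_map, Polynomial.map_add, Polynomial.map_sub, Polynomial.map_mul,
    Polynomial.map_pow]

lemma derivative2_onLine (x a y b : R) (f : R[X][X]) :
    derivative (derivative (onLine x a y b f)) =
      C a ^ 2 * onLine x a y b (dX (dX f)) + 2 * C a * C b * onLine x a y b (dX (derivative f)) +
        C b ^ 2 * onLine x a y b (derivative (derivative f)) := by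
  rw [derivative_onLine, derivative_add, derivative_C_mul, derivative_C_mul, derivative_onLine,
    derivative_onLine, ← dX_derivative]
  ring

lemma onLine_Hes_a (x a y b : R) (f : R[X][X]) :
    ∃ K : R[X], C a ^ 2 * onLine x a y b (Hes f) =
      onLine x a y b (derivative f) ^ 2 * derivative (derivative (onLine x a y b f)) +
        derivative (onLine x a y b f) * K := by
  refine ⟨-2 * C a * onLine x a y b (derivative f) * onLine x a y b (dX (derivative f)) -
    2 * C b * onLine x a y b (derivative f) * onLine x a y b (derivative (derivative f)) +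
    derivative (onLine x a y b f) * onLine x a y b (derivative (derivative f)), ?_⟩
  rw [derivative2_onLine, derivative_onLine]
  simp only [Hes, map_add, map_sub, map_mul, map_pow, map_ofNat]
  ring

lemma onLine_Hes_b (x a y b : R) (f : R[X][X]) :
    ∃ K : R[X], C b ^ 2 * onLine x a y b (Hes f) =
      onLine x a y b (dX f) ^ 2 * derivative (derivative (onLine x a y b f)) +
        derivative (onLine x a y b f) * K := by
  refine ⟨-2 * C b * onLine x a y b (dX f) * onLine x a y b (dX (derivative f)) -
    2 * C a * onLine x a y b (dX f) * onLine x a y b (dX (dX f)) +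
    derivative (onLine x a y b f) * onLine x a y b (dX (dX f)), ?_⟩
  rw [derivative2_onLine, derivative_onLine]
  simp only [Hes, map_add, map_sub, map_mul, map_pow, map_ofNat]
  ring

/-- three collinear zeros in one residue class force the modulus to divide the curvature -/
lemma dvd_Hes_of_collinear (f : ℤ[X][X]) (q : ℕ) {x y z : ℤ × ℤ} (hxy : x ≠ y) (hxz : x ≠ z)
    (hyz : y ≠ z) (hd : det3 x y z = 0) (hx : f.evalEval x.1 x.2 = 0) (hy : f.evalEval y.1 y.2 = 0)
    (hz : f.evalEval z.1 z.2 = 0) (cy : Cong q y x) (cz : Cong q z x) :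
    (q : ℤ) ∣ (Hes f).evalEval x.1 x.2 := by
  obtain ⟨a, b, t₁, t₂, hab, y1, y2, z1, z2⟩ := exists_param hxy hd
  have ht1 : t₁ ≠ 0 := by
    rintro rfl; apply hxy; ext <;> simp [y1, y2]
  have ht2 : t₂ ≠ 0 := by
    rintro rfl; apply hxz; ext <;> simp [z1, z2]
  have ht12 : t₂ - t₁ ≠ 0 := by
    intro h; apply hyz
    have : t₂ = t₁ := by linarith
    ext <;> simp [y1, y2, z1, z2, this]
  obtain ⟨u, v, huv⟩ := hab
  have q1 : (q : ℤ) ∣ t₁ := by
    have h1 : (q : ℤ) ∣ a * t₁ := by have := cy.1; rwa [y1, add_sub_cancel_left] at this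
    have h2 : (q : ℤ) ∣ b * t₁ := by have := cy.2; rwa [y2, add_sub_cancel_left] at this
    have : t₁ = u * (a * t₁) + v * (b * t₁) := by linear_combination (-t₁) * huv
    rw [this]; exact dvd_add (h1.mul_left _) (h2.mul_left _)
  have q2 : (q : ℤ) ∣ t₂ := by
    have h1 : (q : ℤ) ∣ a * t₂ := by have := cz.1; rwa [z1, add_sub_cancel_left] at this
    have h2 : (q : ℤ) ∣ b * t₂ := by have := cz.2; rwa [z2, add_sub_cancel_left] at this
    have : t₂ = u * (a * t₂) + v * (b * t₂) := by linear_combination (-t₂) * huv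
    rw [this]; exact dvd_add (h1.mul_left _) (h2.mul_left _)
  set F := onLine x.1 a x.2 b f with hF
  have F0 : F.IsRoot 0 := by simp [IsRoot, hF, eval_onLine, hx]
  have F1 : eval t₁ F = 0 := by rw [hF, eval_onLine, ← y1, ← y2, hy]
  have F2 : eval t₂ F = 0 := by rw [hF, eval_onLine, ← z1, ← z2, hz]
  obtain ⟨G₁, hG₁⟩ := dvd_iff_isRoot.2 F0
  have G1 : G₁.IsRoot t₁ := by
    rw [hG₁] at F1; simpa [IsRoot, ht1] using F1
  obtain ⟨G₂, hG₂⟩ := dvd_iff_isRoot.2 G1
  have G2 : G₂.IsRoot t₂ := by
    rw [hG₁, hG₂] at F2; simpa [IsRoot, ht2, ht12] using F2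
  obtain ⟨G, hG⟩ := dvd_iff_isRoot.2 G2
  have hFF : F = X * ((X - C t₁) * ((X - C t₂) * G)) := by rw [hG₁, hG₂, hG]; simp
  have d1 : (q : ℤ) ∣ eval 0 (derivative F) := by
    have : eval 0 (derivative F) = t₁ * (t₂ * eval 0 G) := by
      rw [hFF]; simp [derivative_mul]
    rw [this]; exact q1.mul_right _
  have d2 : (q : ℤ) ∣ eval 0 (derivative (derivative F)) := by
    have : eval 0 (derivative (derivative F)) =
        t₁ * (2 * t₂ * eval 0 (derivative G) - 2 * eval 0 G) + t₂ * (-2 * eval 0 G) := by
      rw [hFF]; simp [derivative_mul]; ring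
    rw [this]; exact dvd_add (q1.mul_right _) (q2.mul_right _)
  obtain ⟨K₁, hK₁⟩ := onLine_Hes_a x.1 a x.2 b f
  obtain ⟨K₂, hK₂⟩ := onLine_Hes_b x.1 a x.2 b f
  have e1 := congrArg (eval 0) hK₁
  have e2 := congrArg (eval 0) hK₂
  simp only [eval_mul, eval_pow, eval_C, eval_add, eval_onLine, mul_zero, add_zero] at e1 e2
  rw [← hF] at e1 e2
  have h1 : (q : ℤ) ∣ a ^ 2 * (Hes f).evalEval x.1 x.2 := by
    rw [e1]; exact dvd_add (d2.mul_left _) (d1.mul_right _)
  have h2 : (q : ℤ) ∣ b ^ 2 * (Hes f).evalEval x.1 x.2 := by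
    rw [e2]; exact dvd_add (d2.mul_left _) (d1.mul_right _)
  have hc : IsCoprime (a ^ 2) (b ^ 2) := IsCoprime.pow (⟨u, v, huv⟩ : IsCoprime a b)
  obtain ⟨u', v', h'⟩ := hc
  have : (Hes f).evalEval x.1 x.2 = u' * (a ^ 2 * (Hes f).evalEval x.1 x.2) +
      v' * (b ^ 2 * (Hes f).evalEval x.1 x.2) := by
    linear_combination (-(Hes f).evalEval x.1 x.2) * h'
  rw [this]; exact dvd_add (h1.mul_left _) (h2.mul_left _)

/-- if `f` divides its curvature polynomial, tangent lines lie in the curve -/
lemma tangent_subset (f : ℚ[X][X]) (hf : f ∣ Hes f) (x y : ℚ) (h0 : f.evalEval x y = 0)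
    (h1 : (derivative f).evalEval x y ≠ 0) :
    ∃ σ : ℚ, onLine x 1 y σ f = 0 := by
  set σ : ℚ := -(dX f).evalEval x y / (derivative f).evalEval x y with hσ
  refine ⟨σ, ?_⟩
  by_contra hF
  set F := onLine x 1 y σ f with hFdef
  have r0 : F.IsRoot 0 := by simp [IsRoot, hFdef, eval_onLine, h0]
  have r1 : (derivative F).IsRoot 0 := by
    simp only [IsRoot, hFdef, derivative_onLine, eval_add, eval_mul, eval_C, eval_onLine, mul_zero,
      add_zero, one_mul]
    rw [hσ]; field_simp; ring
  have hF' : derivative F ≠ 0 := by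
    intro h
    have := eq_C_of_derivative_eq_zero h
    rw [this] at r0
    simp only [IsRoot, eval_C] at r0
    rw [r0] at this
    exact hF (by simpa using this)
  have hF'' : derivative (derivative F) ≠ 0 := by
    intro h
    have := eq_C_of_derivative_eq_zero h
    rw [this] at r1
    simp only [IsRoot, eval_C] at r1
    rw [r1] at this
    exact hF' (by simpa using this)
  have m1 := derivative_rootMultiplicity_of_root r0
  have m2 := derivative_rootMultiplicity_of_root r1
  have p1 : 0 < rootMultiplicity 0 (derivative F) := (rootMultiplicity_pos hF').2 r1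
  set ν := rootMultiplicity 0 (derivative F) with hν
  obtain ⟨K, hK⟩ := onLine_Hes_a x 1 y σ f
  rw [← hFdef] at hK
  have dF' : (X - C (0 : ℚ)) ^ ν ∣ derivative F := pow_rootMultiplicity_dvd _ _
  have dF : (X - C (0 : ℚ)) ^ ν ∣ F :=
    (pow_dvd_pow _ (by omega)).trans (pow_rootMultiplicity_dvd F 0)
  have dH : (X - C (0 : ℚ)) ^ ν ∣ onLine x 1 y σ (Hes f) := dF.trans (map_dvd _ hf)
  have dB : (X - C (0 : ℚ)) ^ ν ∣
      onLine x 1 y σ (derivative f) ^ 2 * derivative (derivative F) := by
    have : onLine x 1 y σ (derivative f) ^ 2 * derivative (derivative F) =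
        C 1 ^ 2 * onLine x 1 y σ (Hes f) - derivative F * K := by rw [hK]; ring
    rw [this]; exact dvd_sub (dH.mul_left _) (dF'.mul_right _)
  have hB : ¬ (onLine x 1 y σ (derivative f)).IsRoot 0 := by
    simpa [IsRoot, eval_onLine] using h1
  have hcop : IsCoprime ((X - C (0 : ℚ)) ^ ν) (onLine x 1 y σ (derivative f) ^ 2) := by
    apply IsCoprime.pow
    rw [(irreducible_X_sub_C (0 : ℚ)).coprime_iff_not_dvd, dvd_iff_isRoot]
    exact hB
  have := (le_rootMultiplicity_iff hF'').2 (hcop.dvd_of_dvd_mul_left dB)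
  omega

end Pool.Agent.Lib.MP_a147dc_co
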