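import Pool.Agent.Lib.MP_a147dc_co.Walsh2

/-! Few pairs of points have a large common divisor of their coordinate differences. -/

namespace Pool.Agent.Lib.MP_a147dc_co

open Polynomial Finset

/-- residue class -/
def cls (R : Finset (ℤ × ℤ)) (D : ℕ) (x : ℤ × ℤ) : Finset (ℤ × ℤ) := R.filter fun z => Cong D x z

lemma cls_eq {R : Finset (ℤ × ℤ)} {D : ℕ} {x z : ℤ × ℤ} (h : Cong D x z) :
    cls R D z = cls R D x := by
  unfold cls
  exact filter_congr fun w _ => ⟨fun h' => h.trans h', fun h' => h.symm.trans h'⟩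

lemma mem_cls_self {R : Finset (ℤ × ℤ)} (D : ℕ) {x : ℤ × ℤ} (h : x ∈ R) : x ∈ cls R D x :=
  mem_filter.2 ⟨h, Cong.refl _ _⟩

lemma cls_mono (R : Finset (ℤ × ℤ)) {D D' : ℕ} (h : D ∣ D') (x : ℤ × ℤ) :
    cls R D' x ⊆ cls R D x := fun _ hz =>
  mem_filter.2 ⟨(mem_filter.1 hz).1, (mem_filter.1 hz).2.of_dvd h⟩

lemma nb_cls (R : Finset (ℤ × ℤ)) (D q : ℕ) (x : ℤ × ℤ) :
    nb (cls R D x) (D * q) x = nb R (D * q) x := by
  unfold nb cls
  rw [filter_filter]
  congr 1
  exact filter_congr fun z _ => ⟨fun h => h.2, fun h => ⟨h.2.of_dvd (Dvd.intro _ rfl), h⟩⟩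

lemma nb_add_one {R : Finset (ℤ × ℤ)} (D : ℕ) {x : ℤ × ℤ} (h : x ∈ R) :
    nb R D x + 1 = (cls R D x).card := by
  rw [← card_erase_add_one (mem_cls_self D h)]
  unfold nb cls
  congr 2
  ext z
  simp only [mem_filter, mem_erase]
  tauto

/-- large classes -/
def Large (R : Finset (ℤ × ℤ)) (i D : ℕ) (x : ℤ × ℤ) : Prop :=
  R.card < 16 ^ (i + 1) * (cls R D x).card

instance (R : Finset (ℤ × ℤ)) (i D : ℕ) (x : ℤ × ℤ) : Decidable (Large R i D x) := by
  unfold Large; infer_instance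

lemma Large.of_dvd {R : Finset (ℤ × ℤ)} {i D D' : ℕ} {x : ℤ × ℤ} (h : Large R i D' x)
    (hd : D ∣ D') : Large R i D x :=
  lt_of_lt_of_le h (Nat.mul_le_mul_left _ (card_le_card (cls_mono R hd x)))

/-- index set of prime powers -/
def QQ (m : ℕ) : Finset (ℕ × ℕ) := ((Icc 1 m).filter Nat.Prime) ×ˢ Icc 1 m

lemma QQ_spec (m : ℕ) : ∀ q ∈ QQ m, q.1.Prime ∧ 1 ≤ q.2 := by
  intro q hq
  simp only [QQ, mem_product, mem_filter, mem_Icc] at hq
  exact ⟨hq.1.2, hq.2.1⟩

noncomputable def Gd (R : Finset (ℤ × ℤ)) (i D : ℕ) : ℝ :=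
  ∑ x ∈ R.filter (Large R i D), rt (cls R D x).card ^ 3

noncomputable def Phi (R : Finset (ℤ × ℤ)) (i D : ℕ) (q : ℕ × ℕ) : ℝ :=
  ∑ x ∈ R.filter (Large R i D),
    rt (cls R D x).card ^ 3 * om i ((nb R (D * q.1 ^ q.2) x : ℝ) / (cls R D x).card)

lemma Phi_nonneg (R : Finset (ℤ × ℤ)) (i D : ℕ) (q : ℕ × ℕ) : 0 ≤ Phi R i D q :=
  sum_nonneg fun _ _ => mul_nonneg (pow_nonneg (rt_nonneg (by positivity)) _)
    (om_nonneg _ (by positivity))

lemma Gd_nonneg (R : Finset (ℤ × ℤ)) (i D : ℕ) : 0 ≤ Gd R i D :=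
  sum_nonneg fun _ _ => pow_nonneg (rt_nonneg (by positivity)) _

lemma sum_Phi_le {S R : Finset (ℤ × ℤ)} {m L i Z : ℕ} (hm : 1 ≤ m) (hB : InBox S m)
    (hL : m ≤ 2 ^ L) (hL1 : 1 ≤ L) (hR : R ⊆ S)
    (hZ : ∀ f : ℤ[X][X], f ≠ 0 → (∀ j, (f.coeff j).natDegree ≤ 2 * 4 ^ (i + 1)) →
      f.natDegree ≤ 2 * 4 ^ (i + 1) → (S.filter fun x => f.evalEval x.1 x.2 = 0).card ≤ Z)
    (hZN : Z * 16 ^ (i + 1) * 16 ^ (i + 1) ≤ R.card) (D : ℕ) :
    ∑ q ∈ QQ m, Phi R i D q ≤ 300 * L * Gd R i D := by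
  classical
  unfold Phi Gd
  rw [sum_comm, mul_sum]
  set A := R.filter (Large R i D) with hA
  have hmap : ∀ x ∈ A, cls R D x ∈ A.image (cls R D) := fun x hx => mem_image_of_mem _ hx
  rw [← sum_fiberwise_of_maps_to hmap, ← sum_fiberwise_of_maps_to hmap]
  refine sum_le_sum fun U hU => ?_
  obtain ⟨x₀, hx₀, rfl⟩ := mem_image.1 hU
  rw [hA, mem_filter] at hx₀
  have hfil : (A.filter fun x => cls R D x = cls R D x₀) = cls R D x₀ := by
    ext x
    simp only [hA, mem_filter]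
    constructor
    · rintro ⟨⟨h1, -⟩, h2⟩
      rw [← h2]; exact mem_cls_self D h1
    · intro h
      have h' := mem_filter.1 h
      have e := cls_eq (R := R) h'.2
      refine ⟨⟨h'.1, ?_⟩, e⟩
      unfold Large; rw [e]; exact hx₀.2
  rw [hfil]
  have hZU : Z * 16 ^ (i + 1) ≤ (cls R D x₀).card := by
    have h1 := lt_of_le_of_lt hZN hx₀.2
    rw [mul_comm (16 ^ (i + 1))] at h1
    exact (Nat.lt_of_mul_lt_mul_right h1).le
  have := walsh_om (D := D) hm hB hL hL1 ((filter_subset _ _).trans hR)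
    (card_pos.2 ⟨x₀, mem_cls_self D hx₀.1⟩) hZ hZU (QQ_spec m)
  calc _ = rt (cls R D x₀).card ^ 3 * ∑ x ∈ cls R D x₀, ∑ q ∈ QQ m,
        om i ((nb (cls R D x₀) (D * q.1 ^ q.2) x : ℝ) / (cls R D x₀).card) := by
        rw [mul_sum]
        refine sum_congr rfl fun x hx => ?_
        have e := cls_eq (R := R) (mem_filter.1 hx).2
        rw [mul_sum]
        refine sum_congr rfl fun q _ => ?_
        rw [← e, nb_cls]
    _ ≤ rt (cls R D x₀).card ^ 3 * (300 * L * (cls R D x₀).card) :=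
        mul_le_mul_of_nonneg_left this (pow_nonneg (rt_nonneg (by positivity)) _)
    _ = _ := by
        rw [sum_congr rfl (g := fun _ => 300 * L * rt (cls R D x₀).card ^ 3)
          (fun x hx => by rw [cls_eq (R := R) (mem_filter.1 hx).2])]
        rw [sum_const, nsmul_eq_mul]; ring

lemma Gd_le_Phi {R : Finset (ℤ × ℤ)} {i : ℕ} (hT : 16 ^ (i + 1) ≤ R.card) (D : ℕ) (q : ℕ × ℕ) :
    Gd R i (D * q.1 ^ q.2) ≤ 4 * Phi R i D q := by
  unfold Gd Phi
  rw [mul_sum]
  refine le_trans (sum_le_sum fun x hx => ?_) (sum_le_sum_of_subset_of_nonneg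
    (s := R.filter (Large R i (D * q.1 ^ q.2))) (fun x hx => ?_) fun _ _ _ => ?_)
  · rw [mem_filter] at hx
    have h1 := nb_add_one (D * q.1 ^ q.2) hx.1
    have h2 : 2 ≤ (cls R (D * q.1 ^ q.2) x).card := by
      have h3 := lt_of_le_of_lt hT hx.2
      by_contra h4
      have : (cls R (D * q.1 ^ q.2) x).card = 1 := by omega
      rw [this] at h3; omega
    apply om_large (N := R.card)
    · exact_mod_cast card_pos.2 ⟨x, mem_cls_self D hx.1⟩
    · exact_mod_cast card_filter_le _ _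
    · positivity
    · positivity
    · exact_mod_cast (by omega : (cls R (D * q.1 ^ q.2) x).card ≤ 2 * nb R (D * q.1 ^ q.2) x)
    · exact_mod_cast hx.2.le
  · rw [mem_filter] at hx ⊢
    exact ⟨hx.1, hx.2.of_dvd (Dvd.intro _ rfl)⟩
  · exact mul_nonneg (by norm_num) (mul_nonneg (pow_nonneg (rt_nonneg (by positivity)) _)
      (om_nonneg _ (by positivity)))

/-- moduli with `k` prime factors -/
def Dk (m k : ℕ) : Finset ℕ := (Icc 1 m).filter fun d => d.primeFactors.card = k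

lemma split_mem {m d p : ℕ} (hd : d ∈ Icc 1 m) (hp : p ∈ d.primeFactors) :
    d / p ^ d.factorization p ∈ Icc 1 m ∧ (p, d.factorization p) ∈ QQ m ∧
      (d / p ^ d.factorization p).primeFactors.card + 1 = d.primeFactors.card ∧
      d / p ^ d.factorization p * p ^ d.factorization p = d ∧ d / p ^ d.factorization p < d := by
  rw [mem_Icc] at hd
  have hd0 : d ≠ 0 := by omega
  have hpp := Nat.prime_of_mem_primeFactors hp
  have hpd := Nat.dvd_of_mem_primeFactors hp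
  have hv : 0 < d.factorization p := hpp.factorization_pos_of_dvd hd0 hpd
  refine ⟨mem_Icc.2 ⟨Nat.ordCompl_pos p hd0, (Nat.ordCompl_le d p).trans hd.2⟩, ?_, ?_, ?_, ?_⟩
  · simp only [QQ, mem_product, mem_filter, mem_Icc]
    exact ⟨⟨⟨hpp.one_le, (Nat.le_of_dvd hd.1 hpd).trans hd.2⟩, hpp⟩, hv,
      (Nat.factorization_lt p hd0).le.trans hd.2⟩
  · rw [← Nat.support_factorization, Nat.factorization_ordCompl, Finsupp.support_erase,
      Nat.support_factorization, card_erase_add_one hp]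
  · rw [mul_comm]; exact Nat.ordProj_mul_ordCompl_eq_self d p
  · exact Nat.div_lt_self hd.1 (Nat.one_lt_pow hv.ne' hpp.one_lt)

lemma B_succ {R : Finset (ℤ × ℤ)} {m i J : ℕ} (hT : 16 ^ (i + 1) ≤ R.card) (k : ℕ) :
    (k + 1 : ℝ) * ∑ d ∈ Dk m (k + 1), Gd R i (J * d) ≤
      4 * ∑ d ∈ Dk m k, ∑ q ∈ QQ m, Phi R i (J * d) q := by
  classical
  let e : (Σ _ : ℕ, ℕ) → ℕ × (ℕ × ℕ) :=
    fun y => (y.1 / y.2 ^ y.1.factorization y.2, (y.2, y.1.factorization y.2))
  set s := (Dk m (k + 1)).sigma fun d => d.primeFactors with hs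
  have hinj : Set.InjOn e s := by
    rintro ⟨d, p⟩ h1 ⟨d', p'⟩ h2 h
    rw [mem_coe, hs, mem_sigma] at h1 h2
    have a1 := (split_mem (mem_filter.1 h1.1).1 h1.2).2.2.2.1
    have a2 := (split_mem (mem_filter.1 h2.1).1 h2.2).2.2.2.1
    simp only [e, Prod.mk.injEq] at h a1 a2
    obtain ⟨b1, rfl, b3⟩ := h
    have : d = d' := by rw [← a1, ← a2, b1, b3]
    subst this; rfl
  calc _ = ∑ y ∈ s, Gd R i (J * y.1) := by
        rw [hs, sum_sigma, mul_sum]
        refine sum_congr rfl fun d hd => ?_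
        dsimp only
        rw [sum_const, nsmul_eq_mul, (mem_filter.1 hd).2]; push_cast; rfl
    _ ≤ ∑ y ∈ s, 4 * Phi R i (J * (e y).1) (e y).2 := by
        refine sum_le_sum fun y hy => ?_
        rw [hs, mem_sigma] at hy
        have a1 := (split_mem (mem_filter.1 hy.1).1 hy.2).2.2.2.1
        have := Gd_le_Phi hT (J * (e y).1) (e y).2
        simp only [e] at this ⊢
        rwa [mul_assoc, a1] at this
    _ = ∑ y ∈ s.image e, 4 * Phi R i (J * y.1) y.2 :=
        (sum_image (f := fun y : ℕ × (ℕ × ℕ) => 4 * Phi R i (J * y.1) y.2) hinj).symm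
    _ ≤ ∑ y ∈ Dk m k ×ˢ QQ m, 4 * Phi R i (J * y.1) y.2 := by
        refine sum_le_sum_of_subset_of_nonneg ?_ fun y _ _ =>
          mul_nonneg (by norm_num) (Phi_nonneg _ _ _ _)
        intro y hy
        obtain ⟨⟨d, p⟩, h1, rfl⟩ := mem_image.1 hy
        rw [hs, mem_sigma] at h1
        obtain ⟨a1, a2, a3, -⟩ := split_mem (mem_filter.1 h1.1).1 h1.2
        have a4 := (mem_filter.1 h1.1).2
        exact mem_product.2 ⟨mem_filter.2 ⟨a1, by simp only [e] at a3 a4 ⊢; omega⟩, a2⟩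
    _ = _ := by rw [sum_product, mul_sum]; simp only [mul_sum]

theorem pairs_bound {S R : Finset (ℤ × ℤ)} {m L i Z J H : ℕ} {Γ : ℝ} (hm : 1 ≤ m)
    (hB : InBox S m) (hL : m ≤ 2 ^ L) (hL1 : 1 ≤ L) (hR : R ⊆ S)
    (hZ : ∀ f : ℤ[X][X], f ≠ 0 → (∀ j, (f.coeff j).natDegree ≤ 2 * 4 ^ (i + 1)) →
      f.natDegree ≤ 2 * 4 ^ (i + 1) → (S.filter fun x => f.evalEval x.1 x.2 = 0).card ≤ Z)
    (hZN : Z * 16 ^ (i + 1) * 16 ^ (i + 1) ≤ R.card) (hT : 16 ^ (i + 1) ≤ R.card)
    (hJ : ∀ x ∈ R, ∀ z ∈ R, Cong J x z)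
    (hsmall : ∀ x ∈ R, ∀ D, J * H ≤ D → ¬ Large R i D x)
    (hΓ : ∀ k : ℕ, k.factorial ≤ m → (1200 * L : ℝ) ^ k / k.factorial ≤ Γ) :
    (((R ×ˢ R).filter fun y => y.1 ≠ y.2 ∧ J * H ≤ gg y.1 y.2).card : ℝ) ≤
      (R.card : ℝ) ^ 2 / 2 ^ (i + 1) * (300 * L * (L + 1) * Γ) := by
  classical
  have hN0 : (0 : ℝ) ≤ R.card := by positivity
  have hr0 := rt_nonneg hN0
  have hΓ0 : 0 ≤ Γ := le_trans (by simp) (hΓ 0 (by simpa using hm))
  have hBk : ∀ k : ℕ, ∑ d ∈ Dk m k, Gd R i (J * d) ≤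
      R.card * rt R.card ^ 3 * ((1200 * L : ℝ) ^ k / k.factorial) := by
    intro k
    induction k with
    | zero =>
      have : Dk m 0 ⊆ {1} := by
        intro d hd
        simp only [Dk, mem_filter, mem_Icc, card_eq_zero, Nat.primeFactors_eq_empty] at hd
        rw [mem_singleton]; omega
      refine (sum_le_sum_of_subset_of_nonneg this fun _ _ _ => Gd_nonneg _ _ _).trans ?_
      simp only [sum_singleton, pow_zero, Nat.factorial_zero, Nat.cast_one, div_one, mul_one]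
      unfold Gd
      refine (sum_le_card_nsmul _ _ (rt R.card ^ 3) fun x _ => ?_).trans ?_
      · exact pow_le_pow_left₀ (rt_nonneg (by positivity))
          (rt_mono (by positivity) (by exact_mod_cast card_filter_le _ _)) _
      · rw [nsmul_eq_mul]
        gcongr
        exact filter_subset _ _
    | succ k ih =>
      have h1 := B_succ (m := m) (J := J) hT k
      have h2 : ∑ d ∈ Dk m k, ∑ q ∈ QQ m, Phi R i (J * d) q ≤
          300 * L * ∑ d ∈ Dk m k, Gd R i (J * d) := by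
        rw [mul_sum]
        exact sum_le_sum fun d _ => sum_Phi_le hm hB hL hL1 hR hZ hZN _
      have h3 := mul_le_mul_of_nonneg_left ih (by positivity : (0 : ℝ) ≤ 300 * L)
      have hk : (0 : ℝ) < k + 1 := by positivity
      refine le_of_mul_le_mul_left (h1.trans ?_) hk
      have e : (k + 1 : ℝ) * (R.card * rt R.card ^ 3 *
          ((1200 * L : ℝ) ^ (k + 1) / (k + 1).factorial)) =
          4 * (300 * L * (R.card * rt R.card ^ 3 * ((1200 * L : ℝ) ^ k / k.factorial))) := by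
        rw [Nat.factorial_succ]; push_cast; field_simp; ring
      rw [e]; linarith
  have hG : ∑ d ∈ Icc 1 m, Gd R i (J * d) ≤ (L + 1) * (R.card * rt R.card ^ 3 * Γ) := by
    have hmap : ∀ d ∈ Icc 1 m, d.primeFactors.card ∈ range (L + 1) := by
      intro d hd
      rw [mem_Icc] at hd
      have := (two_pow_omega_le (by omega : d ≠ 0)).trans (hd.2.trans hL)
      have := (Nat.pow_le_pow_iff_right (by norm_num : 1 < 2)).1 this
      exact mem_range.2 (by omega)
    rw [← sum_fiberwise_of_maps_to hmap]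
    refine (sum_le_card_nsmul _ _ (R.card * rt R.card ^ 3 * Γ) fun k _ => ?_).trans (by simp)
    rcases (Dk m k).eq_empty_or_nonempty with h | ⟨d, hd⟩
    · change ∑ d ∈ Dk m k, _ ≤ _
      rw [h, sum_empty]; positivity
    · refine (hBk k).trans (mul_le_mul_of_nonneg_left (hΓ k ?_) (by positivity))
      simp only [Dk, mem_filter, mem_Icc] at hd
      rw [← hd.2]
      exact (factorial_omega_le (by omega)).trans hd.1.2
  have hx : ∀ x ∈ R, ((R.filter fun z => x ≠ z ∧ J * H ≤ gg x z).card : ℝ) ≤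
      ∑ y ∈ Icc 1 m ×ˢ QQ m, if Large R i (J * y.1) x then rt R.card / 2 ^ (i + 1) *
        (rt (cls R (J * y.1) x).card ^ 3 *
          om i ((nb R (J * y.1 * y.2.1 ^ y.2.2) x : ℝ) / (cls R (J * y.1) x).card)) else 0 := by
    intro x hx
    have hsub : (R.filter fun z => x ≠ z ∧ J * H ≤ gg x z) ⊆
        ((Icc 1 m ×ˢ QQ m).filter fun y => Large R i (J * y.1) x ∧
          ¬ Large R i (J * y.1 * y.2.1 ^ y.2.2) x).biUnion
          fun y => R.filter fun z => z ≠ x ∧ Cong (J * y.1 * y.2.1 ^ y.2.2) x z := by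
      intro z hz
      rw [mem_filter] at hz
      obtain ⟨hz, hxz, hg⟩ := hz
      obtain ⟨h, hh⟩ := cong_iff_dvd_gg.1 (hJ x hx z hz)
      have hex : ∃ d, d ∣ h ∧ ¬ Large R i (J * d) x := ⟨h, dvd_rfl, hh ▸ hsmall x hx _ hg⟩
      obtain ⟨hd1, hd2⟩ := Nat.find_spec hex
      have hmin := fun d => Nat.find_min hex (m := d)
      generalize Nat.find hex = d at *
      have hgp := gg_pos hxz
      have hgm := gg_le hB (hR hx) (hR hz) hxz
      have hh0 : 0 < h := Nat.pos_of_ne_zero (by rintro rfl; omega)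
      have hJ0 : 0 < J := Nat.pos_of_ne_zero (by rintro rfl; omega)
      have hdI : d ∈ Icc 1 m := mem_Icc.2 ⟨Nat.pos_of_dvd_of_pos hd1 hh0,
        (Nat.le_of_dvd hh0 hd1).trans ((Nat.le_mul_of_pos_left h hJ0).trans (hh ▸ hgm))⟩
      have hd1' : d ≠ 1 := by
        rintro rfl
        apply hd2
        unfold Large
        have : cls R (J * 1) x = R := filter_true_of_mem fun w hw => by
          rw [mul_one]; exact hJ x hx w hw
        rw [this]
        have : 1 < 16 ^ (i + 1) := Nat.one_lt_pow (by omega) (by norm_num)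
        have := card_pos.2 ⟨x, hx⟩
        nlinarith
      obtain ⟨p, hp⟩ : d.primeFactors.Nonempty :=
        Nat.nonempty_primeFactors.2 (by have := (mem_Icc.1 hdI).1; omega)
      obtain ⟨a1, a2, -, a4, a5⟩ := split_mem hdI hp
      rw [mem_biUnion]
      refine ⟨(d / p ^ d.factorization p, (p, d.factorization p)), mem_filter.2
        ⟨mem_product.2 ⟨a1, a2⟩, ?_, ?_⟩, mem_filter.2 ⟨hz, hxz.symm, ?_⟩⟩
      · by_contra hc
        exact hmin _ a5 ⟨(Dvd.intro _ a4).trans hd1, hc⟩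
      · dsimp only; rwa [mul_assoc, a4]
      · dsimp only
        rw [mul_assoc, a4, cong_iff_dvd_gg, hh]
        exact Nat.mul_dvd_mul_left _ hd1
    have h1 := (card_le_card hsub).trans card_biUnion_le
    have h2 : ((R.filter fun z => x ≠ z ∧ J * H ≤ gg x z).card : ℝ) ≤
        ∑ y ∈ (Icc 1 m ×ˢ QQ m).filter fun y => Large R i (J * y.1) x ∧
          ¬ Large R i (J * y.1 * y.2.1 ^ y.2.2) x, (nb R (J * y.1 * y.2.1 ^ y.2.2) x : ℝ) := by
      exact_mod_cast h1
    refine h2.trans ?_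
    rw [sum_filter]
    refine sum_le_sum fun y _ => ?_
    by_cases c1 : Large R i (J * y.1) x
    · rw [if_pos c1]
      have hpos : (0 : ℝ) < (cls R (J * y.1) x).card := by
        exact_mod_cast card_pos.2 ⟨x, mem_cls_self _ hx⟩
      split_ifs with c2
      · apply om_small hpos (by exact_mod_cast card_filter_le _ _) (by positivity)
        have h3 := not_lt.1 c2.2
        have h4 := nb_add_one (J * y.1 * y.2.1 ^ y.2.2) hx
        exact_mod_cast le_trans (Nat.mul_le_mul_left _ (by omega)) h3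
      · exact mul_nonneg (by positivity) (mul_nonneg (pow_nonneg (rt_nonneg hpos.le) _)
          (om_nonneg _ (by positivity)))
    · rw [if_neg c1, if_neg (fun h => c1 h.1)]
  calc _ = ∑ x ∈ R, ((R.filter fun z => x ≠ z ∧ J * H ≤ gg x z).card : ℝ) := by
        rw [card_filter, sum_product]
        push_cast
        exact sum_congr rfl fun x _ => by rw [card_filter]; push_cast; rfl
    _ ≤ _ := sum_le_sum hx
    _ = rt R.card / 2 ^ (i + 1) * ∑ d ∈ Icc 1 m, ∑ q ∈ QQ m, Phi R i (J * d) q := by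
        rw [sum_comm, sum_product, mul_sum]
        refine sum_congr rfl fun d _ => ?_
        rw [mul_sum]
        refine sum_congr rfl fun q _ => ?_
        unfold Phi
        rw [mul_sum, sum_filter]
    _ ≤ rt R.card / 2 ^ (i + 1) * (300 * L * ((L + 1) * (R.card * rt R.card ^ 3 * Γ))) := by
        gcongr
        refine le_trans (sum_le_sum fun d _ => sum_Phi_le hm hB hL hL1 hR hZ hZN (J * d)) ?_
        rw [← mul_sum]
        gcongr
    _ = rt R.card ^ 4 * R.card / 2 ^ (i + 1) * (300 * L * (L + 1) * Γ) := by ring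
    _ = _ := by rw [rt_pow hN0, sq]

end Pool.Agent.Lib.MP_a147dc_co
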