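import Pool.Agent.Lib.MP_a147dc_co.Behrend

/-! A large general position subset when few pairs have a large common divisor. -/

namespace Pool.Agent.Lib.MP_a147dc_co

open Finset

theorem behrend_step {S R : Finset (ℤ × ℤ)} {m α J H P : ℕ} (hB : InBox S m) (hS : No4 S)
    (hα : ∀ G ⊆ S, GP G → G.card ≤ α) (hR : R ⊆ S) (hJ : ∀ x ∈ R, ∀ z ∈ R, Cong J x z)
    (hP : P.Prime) (hP2 : P ≠ 2) (hH : 0 < H) (hHP : H < P) (hHP2 : H ^ 2 ≤ P) {lam : ℝ}
    (h0 : 0 ≤ lam) (h1 : lam * (8 * H ^ 3 * P) ≤ 1) :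
    lam * R.card - lam ^ 3 *
      (3840 * ((R ×ˢ R).filter fun y => y.1 ≠ y.2 ∧ J * H ≤ gg y.1 y.2).card +
        64 * H ^ 3 / P * R.card ^ 2) ≤ α := by
  classical
  have : Fact P.Prime := ⟨hP⟩
  obtain ⟨d, hd⟩ := FiniteField.exists_nonsquare (F := ZMod P) (by rwa [ZMod.ringChar_zmod_n])
  obtain ⟨Q, hQ, hQp⟩ := Nat.exists_infinite_primes ((m + 1) ^ 2 + 2 * (H * P) * (m + 1))
  have : Fact Q.Prime := ⟨hQp⟩
  have hHP0 : 0 < H * P := Nat.mul_pos hH hP.pos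
  have hPQ : ¬ P ∣ Q := by
    intro h
    have := (Nat.prime_dvd_prime_iff_eq hP hQp).1 h
    have h2 : P ≤ H * P := Nat.le_mul_of_pos_left _ hH
    nlinarith
  set l := Q / (H * P) with hl
  have hl1 : H * (l * P) ≤ Q := by
    calc _ = l * (H * P) := by ring
      _ ≤ Q := Nat.div_mul_le_self _ _
  have hl2 : m + 1 ≤ l := (Nat.le_div_iff_mul_le hHP0).2 (by nlinarith)
  have hl3 : Q ≤ 2 * (H * P) * l := by
    have := Nat.lt_mul_div_succ Q hHP0
    rw [← hl] at this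
    nlinarith
  have hl4 : l * P ≤ Q := le_trans (Nat.le_mul_of_pos_left _ hH) hl1
  have hQr : (0 : ℝ) < Q := by exact_mod_cast hQp.pos
  have hPr : (0 : ℝ) < P := by exact_mod_cast hP.pos
  have hHr : (0 : ℝ) < H := by exact_mod_cast hH
  have hlr : (0 : ℝ) < l := by exact_mod_cast (by omega : 0 < l)
  have hl3r : (Q : ℝ) ^ 3 ≤ (2 * (H * P) * l) ^ 3 := by gcongr; exact_mod_cast hl3
  set δ : ℝ := P ^ 2 * l ^ 3 / Q ^ 3 with hδ
  have hδ0 : 0 < δ := by positivity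
  have hπ : lam / δ ≤ 1 := by
    rw [div_le_one hδ0, hδ, le_div_iff₀ (by positivity)]
    calc lam * Q ^ 3 ≤ lam * (2 * (H * P) * l) ^ 3 := by gcongr
      _ = lam * (8 * H ^ 3 * P) * (P ^ 2 * l ^ 3) := by ring
      _ ≤ 1 * (P ^ 2 * l ^ 3) := by gcongr
      _ = _ := one_mul _
  have hM : (P : ℝ) ^ 3 * l ^ 6 / (8 * H ^ 3) ≤ δ ^ 3 * Q ^ 6 := by
    have : δ ^ 3 * Q ^ 6 = P ^ 6 * l ^ 9 / Q ^ 3 := by rw [hδ]; field_simp
    rw [this, div_le_div_iff₀ (by positivity) (by positivity)]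
    calc _ ≤ (P : ℝ) ^ 3 * l ^ 6 * (2 * (H * P) * l) ^ 3 := by gcongr
      _ = _ := by ring
  set Ω := (univ : Finset ((ZMod Q × ZMod Q) × (ZMod Q × ZMod Q) × (ZMod Q × ZMod Q))) with hΩ
  have hΩc : (Ω.card : ℝ) = Q ^ 6 := by
    simp only [hΩ, card_univ, Fintype.card_prod, ZMod.card]; push_cast; ring
  have hdel : ∀ ω ∈ Ω, lam / δ * (R.filter fun x => ph Q m ω x ∈ BB P l d).card - (lam / δ) ^ 3 *
      ((TT R).filter fun t => ph Q m ω t.1 ∈ BB P l d ∧ ph Q m ω t.2.1 ∈ BB P l d ∧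
        ph Q m ω t.2.2 ∈ BB P l d).card ≤ α := by
    intro ω _
    apply deletion _ _ _ _ _ (by positivity) hπ
    · intro t ht
      rw [mem_filter, mem_TT] at ht
      obtain ⟨⟨⟨a1, a2, a3⟩, b, c, hw⟩, b1, b2, b3⟩ := ht
      exact ⟨mem_filter.2 ⟨a1, b1⟩, mem_filter.2 ⟨a2, b2⟩, mem_filter.2 ⟨a3, b3⟩, hw.ne⟩
    · intro G hG hGT
      apply hα G (hG.trans ((filter_subset _ _).trans hR))
      apply gp_of_no_wit
      intro x hx y hy z hz b c hw
      have a1 := mem_filter.1 (hG hx)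
      have a2 := mem_filter.1 (hG hy)
      have a3 := mem_filter.1 (hG hz)
      exact hGT (x, y, z) (mem_filter.2 ⟨mem_TT.2 ⟨⟨a1.1, a2.1, a3.1⟩, b, c, hw⟩,
        a1.2, a2.2, a3.2⟩) ⟨hx, hy, hz⟩
  have hsum := sum_le_card_nsmul _ _ _ hdel
  rw [nsmul_eq_mul, hΩc, sum_sub_distrib, ← mul_sum, ← mul_sum] at hsum
  have hW : R.card * (δ * Q ^ 6) ≤
      ∑ ω ∈ Ω, ((R.filter fun x => ph Q m ω x ∈ BB P l d).card : ℝ) := by
    simp only [card_filter]
    push_cast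
    rw [sum_comm, ← nsmul_eq_mul]
    apply card_nsmul_le_sum
    intro x _
    rw [sum_boole]
    have := (Nat.mul_le_mul_left (Q ^ 3) (card_BB_ge (l := l) d)).trans (card_pt (m := m) d hl4 x)
    calc δ * Q ^ 6 = ((Q ^ 3 * (P ^ 2 * l ^ 3) : ℕ) : ℝ) := by rw [hδ]; push_cast; field_simp
      _ ≤ _ := by exact_mod_cast this
  have hT : ∑ ω ∈ Ω, (((TT R).filter fun t => ph Q m ω t.1 ∈ BB P l d ∧
      ph Q m ω t.2.1 ∈ BB P l d ∧ ph Q m ω t.2.2 ∈ BB P l d).card : ℝ) ≤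
      (3840 * ((R ×ˢ R).filter fun y => y.1 ≠ y.2 ∧ J * H ≤ gg y.1 y.2).card +
        64 * H ^ 3 / P * R.card ^ 2) * (δ ^ 3 * Q ^ 6) := by
    have hinj := TT_inj (hS.mono hR)
    have c1 : (TT R).card ≤ R.card ^ 2 := by
      have := card_le_card_of_injOn (t := R ×ˢ R) _ (fun t ht => by
        have := (mem_TT.1 (mem_coe.1 ht)).1
        exact mem_coe.2 (mem_product.2 ⟨this.1, this.2.1⟩)) hinj
      rwa [card_product, ← sq] at this
    have c2 : ((TT R).filter fun t => J * H ≤ gg t.1 t.2.1).card ≤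
        ((R ×ˢ R).filter fun y => y.1 ≠ y.2 ∧ J * H ≤ gg y.1 y.2).card :=
      card_le_card_of_injOn _ (fun t ht => by
        rw [mem_coe, mem_filter, mem_TT] at ht
        obtain ⟨⟨a, b, c, hw⟩, h⟩ := ht
        exact mem_coe.2 (mem_filter.2 ⟨mem_product.2 ⟨a.1, a.2.1⟩, hw.ne.1, h⟩))
        (hinj.mono (coe_subset.2 (filter_subset _ _)))
    generalize ((R ×ˢ R).filter fun y => y.1 ≠ y.2 ∧ J * H ≤ gg y.1 y.2).card = Tp at *
    simp only [card_filter]
    push_cast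
    rw [sum_comm]
    calc _ ≤ ∑ t ∈ TT R, ((if J * H ≤ gg t.1 t.2.1 then 3840 * (δ ^ 3 * Q ^ 6) else 0) +
          64 * H ^ 3 / P * (δ ^ 3 * Q ^ 6)) := by
          refine sum_le_sum fun t ht => ?_
          obtain ⟨⟨a1, a2, a3⟩, b, c, hw⟩ := mem_TT.1 ht
          rw [sum_boole]
          have k1 := (card_triple (l := l) d (by omega) hw (hB _ (hR a1)) (hB _ (hR a2))).trans
            (card_NN_le d hw.1 hw.2.1 hw.2.2.1 hH hl1)
          have hc0 : 0 < c := hw.1.trans hw.2.1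
          have hcr : (1 : ℝ) ≤ c := by exact_mod_cast hc0
          have hcl : c ≤ l := by
            have e1 := hw.le_gg (J := 1) (by simp [Cong]) (by simp [Cong])
            have e2 := gg_le hB (hR a1) (hR a2) hw.ne.1
            omega
          have k2 := fiber_le hc0 hcl
          have k3 := (Nat.cast_le (α := ℝ)).2 k1
          rw [Nat.cast_mul] at k3
          refine k3.trans ?_
          by_cases hcH : c ≤ H
          · have k4 := (Nat.cast_le (α := ℝ)).2 (sum_Sol_low (Q := Q) hd hw.1 hw.2.1 hcH hHP)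
            refine le_trans ?_ (le_add_of_nonneg_left (by split_ifs <;> positivity))
            calc _ ≤ ((P ^ 2 : ℕ) : ℝ) * (8 * (l : ℝ) ^ 6 / (c : ℝ) ^ 3) := by gcongr
              _ ≤ ((P ^ 2 : ℕ) : ℝ) * (8 * (l : ℝ) ^ 6) := by
                  gcongr; exact div_le_self (by positivity) (one_le_pow₀ hcr)
              _ = 64 * H ^ 3 / P * ((P : ℝ) ^ 3 * l ^ 6 / (8 * H ^ 3)) := by
                  push_cast; field_simp; norm_num
              _ ≤ _ := by gcongr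
          · have k4 := sum_Sol_high (Q := Q) hd hP2 hPQ hw.1 hw.2.1 hw.2.2.1 hH (not_le.1 hcH) hHP2
            have k5 : J * H ≤ gg t.1 t.2.1 := by
              have e1 := hw.le_gg (hJ _ a2 _ a1) (hJ _ a3 _ a1)
              have e2 : (J : ℤ) * H ≤ J * c := by gcongr; omega
              exact_mod_cast e2.trans e1
            rw [if_pos k5]
            refine le_trans ?_ (le_add_of_nonneg_right (by positivity))
            calc _ ≤ (60 * (c / H : ℝ) ^ 3 * P ^ 3) * (8 * (l : ℝ) ^ 6 / (c : ℝ) ^ 3) := by gcongr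
              _ = 3840 * ((P : ℝ) ^ 3 * l ^ 6 / (8 * H ^ 3)) := by field_simp; norm_num
              _ ≤ _ := by gcongr
      _ ≤ Tp * (3840 * (δ ^ 3 * Q ^ 6)) + R.card ^ 2 * (64 * H ^ 3 / P * (δ ^ 3 * Q ^ 6)) := by
          rw [sum_add_distrib, ← sum_filter, sum_const, sum_const, nsmul_eq_mul, nsmul_eq_mul]
          gcongr
          exact_mod_cast c1
      _ = _ := by ring
  have hπ0 : 0 ≤ lam / δ := by positivity
  have e1 := mul_le_mul_of_nonneg_left hW hπ0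
  have e2 := mul_le_mul_of_nonneg_left hT (pow_nonneg hπ0 3)
  refine le_of_mul_le_mul_left (a := (Q : ℝ) ^ 6) (le_trans (le_of_eq ?_)
    ((sub_le_sub e1 e2).trans hsum)) (by positivity)
  field_simp

end Pool.Agent.Lib.MP_a147dc_co
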