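import Pool.Agent.Lib.MP_a147dc_co.Asym
import Pool.Agent.Lib.MP_a147dc_co.Pairs
import Pool.Agent.Lib.MP_a147dc_co.Step

/-! The iteration over residue classes. -/

namespace Pool.Agent.Lib.MP_a147dc_co

open Finset Polynomial

lemma cmul {c t a b : ℕ} (ht : 1 ≤ t) (hc : c ≤ t) (hab : a + 1 ≤ b) : c * t ^ a ≤ t ^ b :=
  calc c * t ^ a ≤ t * t ^ a := Nat.mul_le_mul_right _ hc
    _ = t ^ (a + 1) := by ring
    _ ≤ t ^ b := Nat.pow_le_pow_right ht hab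

lemma main_step {S R : Finset (ℤ × ℤ)} {t h E L m J x y : ℕ} (ht : 400000 ≤ t)
    (hh : 4 * E + 20 ≤ h) (hx : x + (5 * E + 21) = 16 * h) (hy : y + E = 16 * h) (hm : 1 ≤ m)
    (hB : InBox S m) (hS : No4 S) (hα : ∀ G ⊆ S, GP G → G.card ≤ t ^ (8 * h + 1))
    (hL : m ≤ 2 ^ L) (hL1 : 1 ≤ L)
    (hΓ : ∀ k : ℕ, k.factorial ≤ m →
      300 * (L : ℝ) * (L + 1) * ((1200 * (L : ℝ)) ^ k / k.factorial) ≤ t)
    (hR : R ⊆ S) (hJ : ∀ x ∈ R, ∀ z ∈ R, Cong J x z)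
    (hsm : ∀ z ∈ R, ∀ D, J * t ^ h ≤ D → (cls R D z).card ≤ t ^ x) : R.card ≤ t ^ y := by
  by_contra hN
  push Not at hN
  have ht1 : 1 ≤ t := by omega
  have htr : (400000 : ℝ) ≤ t := by exact_mod_cast ht
  have hLr : (1 : ℝ) ≤ L := by exact_mod_cast hL1
  set s := E + 5 with hs
  obtain ⟨i, hi1, hi2⟩ := exists_sixteen_pow (s := s) ht1
  have hLt : L ≤ t := by
    have := hΓ 0 (by simpa using hm)
    simp only [pow_zero, Nat.factorial_zero, Nat.cast_one, div_one, mul_one] at this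
    have : (L : ℝ) ≤ t := by nlinarith
    exact_mod_cast this
  have h16 : (16 : ℕ) ^ (i + 1) = (4 ^ (i + 1)) ^ 2 := by
    rw [← pow_mul, mul_comm, pow_mul]; norm_num
  have h16' : (16 : ℕ) ^ (i + 1) = (2 ^ (i + 1)) ^ 4 := by
    rw [← pow_mul, mul_comm, pow_mul]; norm_num
  have h4 : 4 ^ (i + 1) ≤ 4 * t ^ (2 * s) := by
    apply (Nat.pow_le_pow_iff_left (n := 2) (by norm_num)).1
    rw [← h16]
    calc _ ≤ _ := hi2
      _ = _ := by ring
  have h2 : t ^ s ≤ 2 ^ (i + 1) := by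
    apply (Nat.pow_le_pow_iff_left (n := 4) (by norm_num)).1
    rw [← h16', ← pow_mul, mul_comm]; exact hi1
  set e := 2 * 4 ^ (i + 1) + 2 * 4 ^ (i + 1) with he
  have hts : 1 ≤ t ^ (2 * s) := Nat.one_le_pow _ _ ht1
  have he1 : e + 1 ≤ 17 * t ^ (2 * s) := by omega
  set Y := 64 * (e + 1) ^ 3 * L with hYd
  have hY : Y ≤ t ^ (6 * s + 2) := by
    calc Y ≤ 64 * (17 * t ^ (2 * s)) ^ 3 * t := by rw [hYd]; gcongr
      _ = 314432 * t ^ (6 * s + 1) := by ring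
      _ ≤ _ := cmul ht1 (by omega) le_rfl
  set Z := e * (Y ^ 3 * t ^ (8 * h + 1) + 36 * e ^ 2 + 3 * e + 3) with hZd
  have hZ : ∀ f : ℤ[X][X], f ≠ 0 → (∀ j, (f.coeff j).natDegree ≤ 2 * 4 ^ (i + 1)) →
      f.natDegree ≤ 2 * 4 ^ (i + 1) → (S.filter fun x => f.evalEval x.1 x.2 = 0).card ≤ Z := by
    intro f hf d1 d2
    have hD := deg_iff.1 (Deg.map_cast (f := f) ⟨d2, d1⟩)
    have := curve_bound hm hB hS hα (XiC_lt (e := e) hL hL1) e le_rfl _ (map_cast_ne_zero hf)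
      (by unfold dg; omega)
    refine le_trans (le_of_eq ?_) this
    congr 1
    refine filter_congr fun x _ => ?_
    rw [cast_evalEval, Int.cast_eq_zero]
  have hZb : Z ≤ t ^ (20 * s + 8 * h + 8) := by
    have a1 : Y ^ 3 * t ^ (8 * h + 1) ≤ t ^ (18 * s + 8 * h + 7) := by
      calc _ ≤ (t ^ (6 * s + 2)) ^ 3 * t ^ (8 * h + 1) := by gcongr
        _ = _ := by ring
    have a2 : 36 * e ^ 2 + 3 * e + 3 ≤ t ^ (18 * s + 8 * h + 7) := by
      calc _ ≤ 36 * (e + 1) ^ 2 := by nlinarith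
        _ ≤ 36 * (17 * t ^ (2 * s)) ^ 2 := by gcongr
        _ = 10404 * t ^ (4 * s) := by ring
        _ ≤ _ := cmul ht1 (by omega) (by omega)
    calc Z ≤ (17 * t ^ (2 * s)) * (2 * t ^ (18 * s + 8 * h + 7)) := by
          rw [hZd]; gcongr <;> omega
      _ = 34 * t ^ (20 * s + 8 * h + 7) := by ring
      _ ≤ _ := cmul ht1 (by omega) le_rfl
  have hZN : Z * 16 ^ (i + 1) * 16 ^ (i + 1) ≤ R.card := by
    calc _ ≤ t ^ (20 * s + 8 * h + 8) * (16 * t ^ (4 * s)) * (16 * t ^ (4 * s)) := by gcongr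
      _ = 256 * t ^ (28 * s + 8 * h + 8) := by ring
      _ ≤ t ^ y := cmul ht1 (by omega) (by omega)
      _ ≤ _ := hN.le
  have hT : 16 ^ (i + 1) ≤ R.card :=
    hi2.trans ((cmul ht1 (by omega) (by omega)).trans hN.le)
  have hsmall : ∀ z ∈ R, ∀ D, J * t ^ h ≤ D → ¬ Large R i D z := by
    intro z hz D hD hl
    have : 16 ^ (i + 1) * (cls R D z).card ≤ t ^ y := by
      calc _ ≤ (16 * t ^ (4 * s)) * t ^ x := Nat.mul_le_mul hi2 (hsm z hz D hD)
        _ = 16 * t ^ (4 * s + x) := by ring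
        _ ≤ _ := cmul ht1 (by omega) (by omega)
    unfold Large at hl; omega
  have hp := pairs_bound (Γ := t / (300 * L * (L + 1))) hm hB hL hL1 hR hZ hZN hT hJ hsmall
    (fun k hk => by rw [le_div_iff₀ (by positivity), mul_comm]; exact hΓ k hk)
  rw [mul_div_cancel₀ _ (by positivity)] at hp
  have hH2 : 2 ≤ t ^ h := le_trans (by omega) (Nat.le_self_pow (by omega) t)
  obtain ⟨P, hP, hP1, hP2⟩ := Nat.exists_prime_lt_and_le_two_mul ((t ^ h) ^ 4) (by positivity)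
  have hH4 : (t ^ h) ^ 2 ≤ (t ^ h) ^ 4 := Nat.pow_le_pow_right (by omega) (by norm_num)
  have hH1 : t ^ h ≤ (t ^ h) ^ 2 := Nat.le_self_pow (by norm_num) _
  have hN0 : (0 : ℝ) < R.card := by exact_mod_cast (by omega : 0 < R.card)
  have hA0 : (0 : ℝ) < (t : ℝ) ^ (8 * h + 1) := by positivity
  have hb := behrend_step (J := J) (H := t ^ h) (P := P) (lam := 4 * (t : ℝ) ^ (8 * h + 1) / R.card)
    hB hS hα hR hJ hP (by nlinarith) (by omega) (by omega) (by omega) (by positivity) (by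
      rw [div_mul_eq_mul_div, div_le_one hN0]
      have : 4 * t ^ (8 * h + 1) * (8 * (t ^ h) ^ 3 * P) ≤ R.card := by
        calc _ ≤ 4 * t ^ (8 * h + 1) * (8 * (t ^ h) ^ 3 * (2 * (t ^ h) ^ 4)) := by gcongr
          _ = 64 * t ^ (15 * h + 1) := by ring
          _ ≤ t ^ y := cmul ht1 (by omega) (by omega)
          _ ≤ _ := hN.le
      exact_mod_cast this)
  generalize (((R ×ˢ R).filter fun y => y.1 ≠ y.2 ∧ J * t ^ h ≤ gg y.1 y.2).card : ℝ) = Tp at *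
  have hts0 : (0 : ℝ) < (t : ℝ) ^ s := by positivity
  have c1 : Tp ≤ (R.card : ℝ) ^ 2 * (t / t ^ s) := by
    refine hp.trans ?_
    have : (t : ℝ) ^ s ≤ 2 ^ (i + 1) := by exact_mod_cast h2
    calc (R.card : ℝ) ^ 2 / 2 ^ (i + 1) * t ≤ (R.card : ℝ) ^ 2 / t ^ s * t := by gcongr
      _ = _ := by ring
  have c2 : (64 : ℝ) * ((t ^ h : ℕ) : ℝ) ^ 3 / P ≤ t / t ^ s := by
    have hP0 : (0 : ℝ) < P := by exact_mod_cast hP.pos
    rw [div_le_div_iff₀ hP0 hts0]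
    have : 64 * (t ^ h) ^ 3 * t ^ s ≤ t * P := by
      calc _ ≤ t * (t ^ h) ^ 3 * t ^ h := by gcongr <;> omega
        _ = t * (t ^ h) ^ 4 := by ring
        _ ≤ _ := Nat.mul_le_mul_left _ hP1.le
    exact_mod_cast this
  have c3 : 32 * 3841 * ((t : ℝ) ^ (8 * h + 1)) ^ 2 * (t / t ^ s) ≤ R.card := by
    rw [← mul_div_assoc, div_le_iff₀ hts0]
    have : 32 * 3841 * (t ^ (8 * h + 1)) ^ 2 * t ≤ R.card * t ^ s := by
      calc _ = 122912 * t ^ (16 * h + 3) := by ring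
        _ ≤ t ^ (y + s) := cmul ht1 (by omega) (by omega)
        _ ≤ _ := by rw [pow_add]; exact Nat.mul_le_mul_right _ hN.le
    exact_mod_cast this
  have hu0 : (0 : ℝ) ≤ t / t ^ s := by positivity
  push_cast at hb c2
  generalize (t : ℝ) / t ^ s = u at *
  generalize (t : ℝ) ^ (8 * h + 1) = A at *
  generalize (R.card : ℝ) = N at *
  have c4 : (4 * A / N) ^ 3 * (3840 * Tp + 64 * ((t : ℝ) ^ h) ^ 3 / P * N ^ 2) ≤ 2 * A := by
    calc _ ≤ (4 * A / N) ^ 3 * (3840 * (N ^ 2 * u) + u * N ^ 2) := by gcongr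
      _ = 2 * A * (32 * 3841 * A ^ 2 * u / N) := by field_simp; ring
      _ ≤ 2 * A * 1 := by gcongr; exact (div_le_one hN0).2 c3
      _ = _ := mul_one _
  rw [div_mul_cancel₀ _ hN0.ne'] at hb
  linarith

lemma main_iter {S : Finset (ℤ × ℤ)} {t h L m : ℕ} (ht : 400000 ≤ t) (hm : 1 ≤ m)
    (hB : InBox S m) (hS : No4 S) (hα : ∀ G ⊆ S, GP G → G.card ≤ t ^ (8 * h + 1))
    (hL : m ≤ 2 ^ L) (hL1 : 1 ≤ L)
    (hΓ : ∀ k : ℕ, k.factorial ≤ m →
      300 * (L : ℝ) * (L + 1) * ((1200 * (L : ℝ)) ^ k / k.factorial) ≤ t) (k : ℕ) :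
    ∀ E, 4 * (fun E => 5 * E + 21)^[k] E + 20 ≤ h → ∀ R ⊆ S, ∀ J, (∀ x ∈ R, ∀ z ∈ R, Cong J x z) →
      m < J * (t ^ h) ^ k → R.card ≤ t ^ (16 * h - E) := by
  have hmono : ∀ k E, E ≤ (fun E => 5 * E + 21)^[k] E := by
    intro k
    induction k with
    | zero => simp
    | succ k ih =>
      intro E
      rw [Function.iterate_succ_apply]
      exact le_trans (by omega) (ih _)
  induction k with
  | zero =>
    intro E _ R hR J hJ hmJ
    refine le_trans (card_le_one.2 fun x hx z hz => ?_) (Nat.one_le_pow _ _ (by omega))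
    by_contra hne
    have h1 := Nat.le_of_dvd (gg_pos hne) (cong_iff_dvd_gg.1 (hJ x hx z hz))
    have h2 := gg_le hB (hR hx) (hR hz) hne
    simp only [pow_zero, mul_one] at hmJ
    omega
  | succ k ih =>
    intro E hE R hR J hJ hmJ
    rw [Function.iterate_succ_apply] at hE
    have h1 := hmono k (5 * E + 21)
    refine main_step (E := E) (x := 16 * h - (5 * E + 21)) ht (by omega) (by omega) (by omega) hm
      hB hS hα hL hL1 hΓ hR hJ fun z _ D hD => ?_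
    refine ih _ hE _ ((filter_subset _ _).trans hR) D (fun a ha b hb =>
      (mem_filter.1 ha).2.symm.trans (mem_filter.1 hb).2) (lt_of_lt_of_le hmJ ?_)
    calc J * (t ^ h) ^ (k + 1) = J * t ^ h * (t ^ h) ^ k := by ring
      _ ≤ _ := Nat.mul_le_mul_right _ hD

theorem main_int (C : ℕ) : ∃ ε : ℝ, 0 < ε ∧ ε ≤ 1 / 4 ∧ ∃ n₀ : ℕ, ∀ (S : Finset (ℤ × ℤ)) (m : ℕ),
    n₀ ≤ S.card → m ≤ S.card ^ C → InBox S m → No4 S →
      ∃ G ⊆ S, GP G ∧ (S.card : ℝ) ^ (1 / 2 + ε) ≤ G.card := by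
  obtain ⟨k, hk⟩ : ∃ k, k = 17 * (C + 1) + 1 := ⟨_, rfl⟩
  obtain ⟨h, hh⟩ : ∃ h, h = 4 * (fun E => 5 * E + 21)^[k] 1 + 20 := ⟨_, rfl⟩
  have hh1 : 20 ≤ h := by omega
  obtain ⟨M, hM⟩ : ∃ M, M = (16 * h + 1) * (C + 1) := ⟨_, rfl⟩
  have hM1 : 1 ≤ M := hM ▸ Nat.mul_pos (by omega) (by omega)
  obtain ⟨t₀, ht₀⟩ := gamma_bound M hM1
  have hpos : (0 : ℝ) < 16 * h + 1 := by positivity
  refine ⟨1 / (2 * (16 * h + 1)), by positivity, ?_,
    (t₀ + 400000 + 2 ^ (16 * h)) ^ (16 * h), fun S m hn hmn hB hS => ?_⟩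
  · apply one_div_le_one_div_of_le (by norm_num)
    have : (20 : ℝ) ≤ h := by exact_mod_cast hh1
    linarith
  have hB0 : 16 * h ≠ 0 := by omega
  obtain ⟨t, t1, t2, t3⟩ : ∃ t, t ^ (16 * h) ≤ S.card ∧ S.card < (t + 1) ^ (16 * h) ∧
      t₀ + 400000 + 2 ^ (16 * h) ≤ t := ⟨Nat.nthRoot (16 * h) S.card,
    Nat.pow_nthRoot_le (Or.inl hB0), Nat.lt_pow_nthRoot_add_one hB0 _,
    (Nat.le_nthRoot_iff hB0).2 hn⟩
  clear hn
  have t4 : 2 ^ (16 * h) ≤ t := le_trans (Nat.le_add_left _ _) t3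
  have t6 : t₀ + 400000 ≤ t := le_trans (Nat.le_add_right _ _) t3
  clear t3
  have t5 : S.card ≤ t ^ (16 * h + 1) := by
    calc S.card ≤ (2 * t) ^ (16 * h) := t2.le.trans (Nat.pow_le_pow_left (by omega) _)
      _ = 2 ^ (16 * h) * t ^ (16 * h) := mul_pow _ _ _
      _ ≤ _ := cmul (by omega) t4 le_rfl
  have hB' : InBox S (t ^ M) := by
    have : m ≤ t ^ M := by
      calc m ≤ (t ^ (16 * h + 1)) ^ C := hmn.trans (Nat.pow_le_pow_left t5 _)
        _ = t ^ ((16 * h + 1) * C) := (pow_mul _ _ _).symm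
        _ ≤ _ := Nat.pow_le_pow_right (by omega) (hM ▸ Nat.mul_le_mul_left _ (by omega))
    have this' : (m : ℤ) ≤ (t ^ M : ℕ) := by exact_mod_cast this
    intro x hx
    obtain ⟨a1, a2, a3, a4⟩ := hB x hx
    exact ⟨a1, a2.trans this', a3, a4.trans this'⟩
  by_contra hc
  push Not at hc
  have hα : ∀ G ⊆ S, GP G → G.card ≤ t ^ (8 * h + 1) := by
    intro G hG hGP
    have h1 := hc G hG hGP
    have h2 : (S.card : ℝ) ^ (1 / 2 + 1 / (2 * (16 * h + 1)) : ℝ) ≤ (t : ℝ) ^ (8 * h + 1) := by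
      calc _ ≤ ((t : ℝ) ^ (16 * h + 1)) ^ (1 / 2 + 1 / (2 * (16 * h + 1)) : ℝ) :=
            Real.rpow_le_rpow (by positivity) (by exact_mod_cast t5) (by positivity)
        _ = _ := by
            rw [← Real.rpow_natCast, ← Real.rpow_mul (by positivity), ← Real.rpow_natCast]
            congr 1; push_cast; field_simp; ring
    exact_mod_cast (h1.trans_le h2).le
  have := main_iter (L := M * (Nat.log 2 t + 1)) (by omega) (Nat.one_le_pow _ _ (by omega)) hB' hS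
    hα (by
      rw [mul_comm M, pow_mul 2]
      exact Nat.pow_le_pow_left (Nat.lt_pow_succ_log_self (by norm_num) t).le _)
    (Nat.mul_pos hM1 (by omega)) (ht₀ t (by omega)) k 1 hh.ge S Subset.rfl 1
    (fun x _ z _ => by simp [Cong]) (by
      rw [one_mul, ← pow_mul]
      apply Nat.pow_lt_pow_right (by omega)
      rw [hM, hk]; nlinarith)
  have h3 : t ^ (16 * h - 1) < t ^ (16 * h) := Nat.pow_lt_pow_right (by omega) (by omega)
  omega

end Pool.Agent.Lib.MP_a147dc_co
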