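import Pool.Agent.Lib.MP_a147dc_co.Hess

/-! Integer polynomials of bounded height vanishing on given points. -/

namespace Pool.Agent.Lib.MP_a147dc_co

open Polynomial

attribute [local instance] Matrix.seminormedAddCommGroup

lemma siegel_core {α β : Type*} [Fintype α] [Fintype β] (A : Matrix α β ℤ) (M k : ℕ) (hM : 1 ≤ M)
    (hA : ∀ i j, |A i j| ≤ M) (hlt : Fintype.card α < Fintype.card β)
    (hk : Fintype.card α ≤ k * (Fintype.card β - Fintype.card α)) :
    ∃ t : β → ℤ, t ≠ 0 ∧ A.mulVec t = 0 ∧ ∀ j, |t j| ≤ ((Fintype.card β * M) ^ k : ℕ) := by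
  have hβ : 1 ≤ Fintype.card β := by omega
  rcases Nat.eq_zero_or_pos (Fintype.card α) with h0 | h0
  · have : IsEmpty α := Fintype.card_eq_zero_iff.1 h0
    obtain ⟨b⟩ : Nonempty β := Fintype.card_pos_iff.1 hβ
    refine ⟨fun _ => 1, fun h => by simpa using congrFun h b, Subsingleton.elim _ _, fun j => ?_⟩
    have : 1 ≤ (Fintype.card β * M) ^ k := Nat.one_le_pow _ _ (by positivity)
    simpa using (by exact_mod_cast this : (1 : ℤ) ≤ ((Fintype.card β * M) ^ k : ℕ))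
  obtain ⟨t, ht0, ht1, ht2⟩ := Int.Matrix.exists_ne_zero_int_vec_norm_le A hlt h0
  refine ⟨t, ht0, ht1, fun j => ?_⟩
  have hnA : ‖A‖ ≤ M := by
    rw [Matrix.norm_le_iff (by positivity)]
    intro i j
    rw [Int.norm_eq_abs]
    exact_mod_cast hA i j
  have hM' : (1 : ℝ) ≤ M := by exact_mod_cast hM
  have hβ' : (1 : ℝ) ≤ Fintype.card β := by exact_mod_cast hβ
  have h1 : (Fintype.card β : ℝ) * max 1 ‖A‖ ≤ Fintype.card β * M := by
    gcongr; exact max_le hM' hnA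
  have h2 : (Fintype.card α : ℝ) / (Fintype.card β - Fintype.card α) ≤ k := by
    have hpos : (0 : ℝ) < Fintype.card β - Fintype.card α := by
      have : (Fintype.card α : ℝ) < Fintype.card β := by exact_mod_cast hlt
      linarith
    rw [div_le_iff₀ hpos]
    have := (Nat.cast_le (α := ℝ)).2 hk
    rw [Nat.cast_mul, Nat.cast_sub hlt.le] at this
    exact this
  have h3 : ‖t j‖ ≤ ((Fintype.card β : ℝ) * M) ^ (k : ℝ) := by
    refine (norm_le_pi_norm t j).trans (ht2.trans ?_)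
    calc _ ≤ ((Fintype.card β : ℝ) * M) ^
          ((Fintype.card α : ℝ) / (Fintype.card β - Fintype.card α)) := by
          apply Real.rpow_le_rpow (by positivity) h1
          apply div_nonneg (by positivity)
          have : (Fintype.card α : ℝ) < Fintype.card β := by exact_mod_cast hlt
          linarith
      _ ≤ _ := Real.rpow_le_rpow_of_exponent_le (by nlinarith) h2
  rw [Real.rpow_natCast, Int.norm_eq_abs] at h3
  exact_mod_cast h3

/-- polynomial with prescribed coefficients -/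
noncomputable def polyOf {R : Type*} [CommRing R] {a b : ℕ} (t : Fin (a + 1) × Fin (b + 1) → R) :
    R[X][X] := ∑ p, monomial (p.2 : ℕ) (monomial (p.1 : ℕ) (t p))

lemma coeff_polyOf {R : Type*} [CommRing R] {a b : ℕ} (t : Fin (a + 1) × Fin (b + 1) → R)
    (i j : ℕ) : ((polyOf t).coeff j).coeff i =
      if h : i < a + 1 ∧ j < b + 1 then t (⟨i, h.1⟩, ⟨j, h.2⟩) else 0 := by
  unfold polyOf
  rw [finsetSum_coeff, finsetSum_coeff]
  split_ifs with h
  · rw [Finset.sum_eq_single (⟨i, h.1⟩, ⟨j, h.2⟩)]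
    · simp
    · rintro ⟨p, q⟩ _ hne
      simp only [coeff_monomial]
      split_ifs with h1
      · rw [coeff_monomial, if_neg]
        intro h2
        apply hne
        ext <;> simp [h1, h2]
      · simp
    · simp
  · apply Finset.sum_eq_zero
    rintro ⟨p, q⟩ _
    simp only [coeff_monomial]
    split_ifs with h1
    · rw [coeff_monomial, if_neg]
      intro h2
      apply h
      rw [← h1, ← h2]
      exact ⟨p.2, q.2⟩
    · simp

lemma evalEval_polyOf {R : Type*} [CommRing R] {a b : ℕ} (t : Fin (a + 1) × Fin (b + 1) → R)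
    (x y : R) : (polyOf t).evalEval x y = ∑ p, x ^ (p.1 : ℕ) * y ^ (p.2 : ℕ) * t p := by
  unfold polyOf
  rw [evalEval_finsetSum]
  refine Finset.sum_congr rfl fun p _ => ?_
  simp [evalEval, eval_monomial]
  ring

/-- degree bounds -/
def Deg {R : Type*} [CommRing R] (f : R[X][X]) (a b : ℕ) : Prop :=
  f.natDegree ≤ b ∧ ∀ j, (f.coeff j).natDegree ≤ a

/-- height bound -/
def Ht (f : ℤ[X][X]) (K : ℕ) : Prop := ∀ j i, |(f.coeff j).coeff i| ≤ K

lemma deg_polyOf {R : Type*} [CommRing R] {a b : ℕ} (t : Fin (a + 1) × Fin (b + 1) → R) :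
    Deg (polyOf t) a b := by
  constructor
  · rw [natDegree_le_iff_coeff_eq_zero]
    intro j hj
    ext i
    rw [coeff_polyOf, dif_neg (by omega)]; simp
  · intro j
    rw [natDegree_le_iff_coeff_eq_zero]
    intro i hi
    rw [coeff_polyOf, dif_neg (by omega)]

lemma polyOf_ne_zero {R : Type*} [CommRing R] {a b : ℕ} {t : Fin (a + 1) × Fin (b + 1) → R}
    (ht : t ≠ 0) : polyOf t ≠ 0 := by
  intro h
  apply ht
  funext p
  have := coeff_polyOf t p.1 p.2
  rw [h, dif_pos ⟨p.1.2, p.2.2⟩] at this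
  simpa using this.symm

lemma eq_polyOf {R : Type*} [CommRing R] {a b : ℕ} {f : R[X][X]} (hf : Deg f a b) :
    f = polyOf (fun p : Fin (a + 1) × Fin (b + 1) => (f.coeff p.2).coeff p.1) := by
  ext j i
  rw [coeff_polyOf]
  split_ifs with h
  · rfl
  · by_cases hj : j < b + 1
    · exact coeff_eq_zero_of_natDegree_lt (lt_of_le_of_lt (hf.2 j) (by omega))
    · rw [coeff_eq_zero_of_natDegree_lt (lt_of_le_of_lt hf.1 (by omega))]; simp

lemma abs_monom_le {m a b : ℕ} (hm : 1 ≤ m) {x : ℤ × ℤ}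
    (hx : 0 ≤ x.1 ∧ x.1 ≤ m ∧ 0 ≤ x.2 ∧ x.2 ≤ m) (p : Fin (a + 1) × Fin (b + 1)) :
    |x.1 ^ (p.1 : ℕ) * x.2 ^ (p.2 : ℕ)| ≤ (m ^ (a + b) : ℕ) := by
  obtain ⟨h1, h2, h3, h4⟩ := hx
  have hm' : (1 : ℤ) ≤ m := by exact_mod_cast hm
  rw [abs_of_nonneg (by positivity)]
  push_cast
  rw [pow_add]
  have e1 : x.1 ^ (p.1 : ℕ) ≤ (m : ℤ) ^ a :=
    (pow_le_pow_left₀ h1 h2 _).trans (pow_le_pow_right₀ hm' (by have := p.1.2; omega))
  have e2 : x.2 ^ (p.2 : ℕ) ≤ (m : ℤ) ^ b :=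
    (pow_le_pow_left₀ h3 h4 _).trans (pow_le_pow_right₀ hm' (by have := p.2.2; omega))
  exact mul_le_mul e1 e2 (by positivity) (by positivity)

lemma abs_evalEval_le {m a b K : ℕ} (hm : 1 ≤ m) {x : ℤ × ℤ}
    (hx : 0 ≤ x.1 ∧ x.1 ≤ m ∧ 0 ≤ x.2 ∧ x.2 ≤ m) {f : ℤ[X][X]} (hf : Deg f a b) (hK : Ht f K) :
    |f.evalEval x.1 x.2| ≤ ((a + 1) * (b + 1) * m ^ (a + b) * K : ℕ) := by
  rw [eq_polyOf hf, evalEval_polyOf]
  refine (Finset.abs_sum_le_sum_abs _ _).trans ?_
  refine (Finset.sum_le_card_nsmul _ _ ((m ^ (a + b) : ℕ) * (K : ℤ)) ?_).trans ?_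
  · intro p _
    rw [abs_mul]
    exact mul_le_mul (abs_monom_le hm hx p) (hK _ _) (abs_nonneg _) (by positivity)
  · simp only [Finset.card_univ, Fintype.card_prod, Fintype.card_fin, nsmul_eq_mul]
    push_cast
    exact le_of_eq (by ring)

lemma siegel_points {ι : Type*} [Fintype ι] (s : ι → ℤ × ℤ) {m a b k : ℕ} (hm : 1 ≤ m)
    (hs : ∀ i, 0 ≤ (s i).1 ∧ (s i).1 ≤ m ∧ 0 ≤ (s i).2 ∧ (s i).2 ≤ m)
    (hlt : Fintype.card ι < (a + 1) * (b + 1))
    (hk : Fintype.card ι ≤ k * ((a + 1) * (b + 1) - Fintype.card ι)) :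
    ∃ t : Fin (a + 1) × Fin (b + 1) → ℤ, t ≠ 0 ∧
      (∀ i, ∑ p : Fin (a + 1) × Fin (b + 1), (s i).1 ^ (p.1 : ℕ) * (s i).2 ^ (p.2 : ℕ) * t p = 0) ∧
      Ht (polyOf t) (((a + 1) * (b + 1) * m ^ (a + b)) ^ k) := by
  obtain ⟨t, h0, h1, h2⟩ := siegel_core
    (Matrix.of fun (i : ι) (p : Fin (a + 1) × Fin (b + 1)) =>
      (s i).1 ^ (p.1 : ℕ) * (s i).2 ^ (p.2 : ℕ)) (m ^ (a + b)) k (Nat.one_le_pow _ _ hm)
    (fun i p => abs_monom_le hm (hs i) p) (by simpa using hlt) (by simpa using hk)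
  refine ⟨t, h0, fun i => ?_, fun j i => ?_⟩
  · have := congrFun h1 i
    simpa [Matrix.mulVec, dotProduct] using this
  · rw [coeff_polyOf]
    split_ifs with h
    · simpa using h2 _
    · rw [abs_zero]; positivity

/-- from a rational polynomial to an integer polynomial of bounded height -/
lemma exists_int_poly (U : Finset (ℤ × ℤ)) {m a b : ℕ} (hm : 1 ≤ m) (hU : InBox U m)
    (g : ℚ[X][X]) (hg : g ≠ 0) (hd : Deg g a b) (hv : ∀ x ∈ U, g.evalEval (x.1 : ℚ) (x.2 : ℚ) = 0) :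
    ∃ f : ℤ[X][X], f ≠ 0 ∧ Deg f a b ∧
      Ht f (((a + 1) * (b + 1) * m ^ (a + b)) ^ ((a + 1) * (b + 1))) ∧
      ∀ x ∈ U, f.evalEval x.1 x.2 = 0 := by
  classical
  let v : U → (Fin (a + 1) × Fin (b + 1) → ℚ) :=
    fun x p => (x.1.1 : ℚ) ^ (p.1 : ℕ) * (x.1.2 : ℚ) ^ (p.2 : ℕ)
  obtain ⟨κ, e, he, hsp, hli⟩ := exists_linearIndependent' ℚ v
  have : Finite κ := Finite.of_injective e he
  have : Fintype κ := Fintype.ofFinite κ
  let L : (Fin (a + 1) × Fin (b + 1) → ℚ) → (Fin (a + 1) × Fin (b + 1) → ℚ) →ₗ[ℚ] ℚ :=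
    fun t => ∑ p, (t p) • LinearMap.proj p
  have hL : ∀ t w, L t w = ∑ p, w p * t p := by
    intro t w
    simp [L, mul_comm]
  let t₀ : Fin (a + 1) × Fin (b + 1) → ℚ := fun p => (g.coeff p.2).coeff p.1
  have hg' : g = polyOf t₀ := eq_polyOf hd
  have hne : Submodule.span ℚ (Set.range v) ≠ ⊤ := by
    intro htop
    have hle : Submodule.span ℚ (Set.range v) ≤ LinearMap.ker (L t₀) := by
      rw [Submodule.span_le]
      rintro _ ⟨x, rfl⟩
      have := hv x.1 x.2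
      rw [hg', evalEval_polyOf] at this
      simpa [hL, v] using this
    rw [htop] at hle
    apply hg
    have : t₀ = 0 := by
      funext p
      have h1 := hle (Submodule.mem_top (x := Pi.single p 1))
      rw [LinearMap.mem_ker, hL, Finset.sum_eq_single p] at h1
      · simpa using h1
      · intro q _ hq; simp [hq]
      · simp
    rw [hg', this]; simp [polyOf]
  have hcard : Fintype.card κ < (a + 1) * (b + 1) := by
    rw [← finrank_span_eq_card hli, hsp]
    have := Submodule.finrank_lt hne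
    simpa using this
  obtain ⟨t, h0, h1, h2⟩ := siegel_points (a := a) (b := b) (k := (a + 1) * (b + 1))
    (fun i : κ => (e i).1) hm (fun i => hU _ (e i).2) hcard (by
      have : 1 ≤ (a + 1) * (b + 1) - Fintype.card κ := by omega
      calc _ ≤ (a + 1) * (b + 1) * 1 := by omega
        _ ≤ _ := Nat.mul_le_mul_left _ this)
  refine ⟨polyOf t, polyOf_ne_zero h0, deg_polyOf t, h2, fun x hx => ?_⟩
  have hle : Submodule.span ℚ (Set.range (v ∘ e)) ≤ LinearMap.ker (L fun p => (t p : ℚ)) := by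
    rw [Submodule.span_le]
    rintro _ ⟨i, rfl⟩
    have := h1 i
    simp only [SetLike.mem_coe, LinearMap.mem_ker, hL, Function.comp, v]
    exact_mod_cast this
  rw [hsp] at hle
  have := hle (Submodule.subset_span ⟨⟨x, hx⟩, rfl⟩)
  simp only [LinearMap.mem_ker, hL, v] at this
  rw [evalEval_polyOf]
  exact_mod_cast this

end Pool.Agent.Lib.MP_a147dc_co
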