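import Pool.Agent.Lib.MP_a147dc_co.Siegel

/-! A sieve estimate through auxiliary polynomials. -/

namespace Pool.Agent.Lib.MP_a147dc_co

open Polynomial Finset

lemma card_primePow_dvd_le {Q : Finset (ℕ × ℕ)} (hQ : ∀ q ∈ Q, q.1.Prime ∧ 1 ≤ q.2) {n L : ℕ}
    (hn : n ≠ 0) (hL : n ≤ 2 ^ L) : (Q.filter fun q => q.1 ^ q.2 ∣ n).card ≤ L := by
  classical
  have hsub : (Q.filter fun q => q.1 ^ q.2 ∣ n) ⊆
      n.primeFactors.biUnion fun p => ({p} : Finset ℕ) ×ˢ Icc 1 (n.factorization p) := by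
    intro q hq
    rw [mem_filter] at hq
    obtain ⟨hp, ha⟩ := hQ q hq.1
    rw [mem_biUnion]
    refine ⟨q.1, ?_, ?_⟩
    · exact Nat.mem_primeFactors.2 ⟨hp, (dvd_pow_self _ (by omega)).trans hq.2, hn⟩
    · rw [mem_product, mem_singleton, mem_Icc]
      exact ⟨rfl, ha, (hp.pow_dvd_iff_le_factorization hn).1 hq.2⟩
  have h1 : (Q.filter fun q => q.1 ^ q.2 ∣ n).card ≤ ∑ p ∈ n.primeFactors, n.factorization p := by
    refine (card_le_card hsub).trans (card_biUnion_le.trans (le_of_eq ?_))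
    refine sum_congr rfl fun p _ => ?_
    simp
  have h2 : 2 ^ (∑ p ∈ n.primeFactors, n.factorization p) ≤ n := by
    rw [← prod_pow_eq_pow_sum]
    conv_rhs => rw [← Nat.prod_factorization_pow_eq_self hn]
    rw [Finsupp.prod, Nat.support_factorization]
    apply prod_le_prod' fun p hp => ?_
    exact Nat.pow_le_pow_left (Nat.prime_of_mem_primeFactors hp).two_le _
  have := (Nat.pow_le_pow_iff_right (by norm_num : 1 < 2)).1 (h2.trans hL)
  omega

lemma Cong.dvd_evalEval_sub {q : ℕ} {x z : ℤ × ℤ} (h : Cong q x z) (f : ℤ[X][X]) :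
    (q : ℤ) ∣ f.evalEval x.1 x.2 - f.evalEval z.1 z.2 := by
  have h1 : (q : ℤ) ∣ f.evalEval x.1 x.2 - f.evalEval z.1 x.2 :=
    h.1.trans (sub_dvd_eval_sub _ _ _)
  have h2 : (q : ℤ) ∣ f.evalEval z.1 x.2 - f.evalEval z.1 z.2 := by
    have := map_dvd (evalRingHom z.1) (sub_dvd_eval_sub (C x.2) (C z.2) f)
    simp only [coe_evalRingHom, eval_sub, eval_C] at this
    exact h.2.trans this
  simpa using dvd_add h1 h2

lemma one_sub_pow_ge {μ : ℝ} (h0 : 0 ≤ μ) (h1 : μ ≤ 1) (r : ℕ) :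
    min 1 (r * μ) / 2 ≤ 1 - (1 - μ) ^ r := by
  have hy : 0 ≤ (1 - μ) ^ r := pow_nonneg (by linarith) _
  have hs : 0 ≤ (r : ℝ) * μ := by positivity
  have hb : 1 + (r : ℝ) * μ ≤ (1 + μ) ^ r := one_add_mul_le_pow (by linarith) r
  have hc : (1 - μ) ^ r * (1 + μ) ^ r ≤ 1 := by
    rw [← mul_pow]; apply pow_le_one₀ <;> nlinarith
  have hd : (1 - μ) ^ r * (1 + r * μ) ≤ 1 := (mul_le_mul_of_nonneg_left hb hy).trans hc
  generalize (1 - μ) ^ r = y at *
  generalize (r : ℝ) * μ = s at *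
  rcases le_total s 1 with h | h
  · rw [min_eq_right h]
    rcases le_total y (1 / 2) with h' | h' <;> nlinarith
  · rw [min_eq_left h]; nlinarith

/-- number of other points of `U` congruent to `x` -/
def nb (U : Finset (ℤ × ℤ)) (d : ℕ) (x : ℤ × ℤ) : ℕ :=
  (U.filter fun z => z ≠ x ∧ Cong d x z).card

lemma nb_le (U : Finset (ℤ × ℤ)) (d : ℕ) (x : ℤ × ℤ) : nb U d x ≤ U.card := card_filter_le _ _

lemma walsh_fixed {S U : Finset (ℤ × ℤ)} {m L r a Λ Z D : ℕ} (hm : 1 ≤ m) (hB : InBox S m)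
    (hL : m ≤ 2 ^ L) (hU : U ⊆ S) (hr : 1 ≤ r) (hra : 2 * r ≤ (a + 1) * (a + 1))
    (hΛ : ((a + 1) * (a + 1) * m ^ (a + a)) ^ 2 ≤ 2 ^ Λ)
    (hZ : ∀ f : ℤ[X][X], f ≠ 0 → Deg f a a →
      (S.filter fun x => f.evalEval x.1 x.2 = 0).card ≤ Z)
    {Q : Finset (ℕ × ℕ)} (hQ : ∀ q ∈ Q, q.1.Prime ∧ 1 ≤ q.2) (A : Fin r → ℤ × ℤ)
    (hA : ∀ i, A i ∈ U) :
    ∑ x ∈ U, (Q.filter fun q => ∃ i, A i ≠ x ∧ Cong (D * q.1 ^ q.2) x (A i)).card ≤
      U.card * Λ + Z * (r * L) := by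
  classical
  obtain ⟨t, h0, h1, h2⟩ := siegel_points (a := a) (b := a) (k := 1) A hm
    (fun i => hB _ (hU (hA i))) (by simp only [Fintype.card_fin]; omega)
    (by simp only [Fintype.card_fin]; omega)
  set f := polyOf t with hf
  have hfA : ∀ i, f.evalEval (A i).1 (A i).2 = 0 := fun i => by rw [hf, evalEval_polyOf, h1 i]
  rw [← sum_filter_add_sum_filter_not U (fun x => f.evalEval x.1 x.2 = 0), add_comm]
  apply add_le_add
  · refine (sum_le_card_nsmul _ _ Λ fun x hx => ?_).trans ?_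
    · rw [mem_filter] at hx
      have hb := abs_evalEval_le hm (hB x (hU hx.1)) (deg_polyOf t) h2
      have hb' : (f.evalEval x.1 x.2).natAbs ≤ 2 ^ Λ := by
        rw [Int.abs_eq_natAbs] at hb
        refine (Int.ofNat_le.1 hb).trans (le_trans (le_of_eq ?_) hΛ)
        ring
      refine le_trans (card_le_card ?_)
        (card_primePow_dvd_le hQ (Int.natAbs_ne_zero.2 hx.2) hb')
      intro q hq
      rw [mem_filter] at hq ⊢
      obtain ⟨hq, i, -, hi⟩ := hq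
      refine ⟨hq, ?_⟩
      have := (hi.of_dvd (Dvd.intro_left D rfl)).dvd_evalEval_sub f
      rw [hfA i, sub_zero] at this
      exact Int.natCast_dvd.1 this
    · rw [smul_eq_mul]; exact Nat.mul_le_mul_right _ (card_filter_le _ _)
  · refine (sum_le_card_nsmul _ _ (r * L) fun x hx => ?_).trans ?_
    · rw [mem_filter] at hx
      have hsub : (Q.filter fun q => ∃ i, A i ≠ x ∧ Cong (D * q.1 ^ q.2) x (A i)) ⊆
          (univ : Finset (Fin r)).biUnion fun i =>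
            Q.filter fun q => A i ≠ x ∧ Cong (D * q.1 ^ q.2) x (A i) := by
        intro q hq
        rw [mem_filter] at hq
        obtain ⟨hq, i, hi⟩ := hq
        exact mem_biUnion.2 ⟨i, mem_univ _, mem_filter.2 ⟨hq, hi⟩⟩
      refine (card_le_card hsub).trans (card_biUnion_le.trans ?_)
      refine (sum_le_card_nsmul _ _ L fun i _ => ?_).trans (by simp)
      by_cases hi : A i = x
      · simp [hi]
      · have hne : x ≠ A i := fun h => hi h.symm
        refine le_trans (card_le_card ?_) (card_primePow_dvd_le hQ (gg_pos hne).ne'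
          ((gg_le hB (hU hx.1) (hU (hA i)) hne).trans hL))
        intro q hq
        rw [mem_filter] at hq ⊢
        exact ⟨hq.1, cong_iff_dvd_gg.1 (hq.2.2.of_dvd (Dvd.intro_left D rfl))⟩
    · rw [smul_eq_mul]
      apply Nat.mul_le_mul_right
      refine le_trans (card_le_card ?_) (hZ f (polyOf_ne_zero h0) (deg_polyOf t))
      intro x hx
      rw [mem_filter] at hx ⊢
      exact ⟨hU hx.1, hx.2⟩

lemma card_hit {U T : Finset (ℤ × ℤ)} (hT : T ⊆ U) (r : ℕ) :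
    (((Fintype.piFinset fun _ : Fin r => U).filter fun A => ∃ i, A i ∈ T).card : ℝ) =
      (U.card : ℝ) ^ r - ((U.card : ℝ) - T.card) ^ r := by
  classical
  have h1 := card_filter_add_card_filter_not (s := Fintype.piFinset fun _ : Fin r => U)
    (fun A => ∃ i, A i ∈ T)
  have h2 : ((Fintype.piFinset fun _ : Fin r => U).filter fun A => ¬ ∃ i, A i ∈ T) =
      Fintype.piFinset fun _ : Fin r => U \ T := by
    ext A
    simp only [mem_filter, Fintype.mem_piFinset, mem_sdiff, not_exists]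
    exact ⟨fun h i => ⟨h.1 i, h.2 i⟩, fun h => ⟨fun i => (h i).1, fun i => (h i).2⟩⟩
  rw [h2, Fintype.card_piFinset, Fintype.card_piFinset] at h1
  simp only [prod_const, card_univ, Fintype.card_fin, card_sdiff_of_subset hT] at h1
  have h3 := congrArg (Nat.cast : ℕ → ℝ) h1
  push_cast [Nat.cast_sub (card_le_card hT)] at h3
  linarith

lemma walsh_avg {S U : Finset (ℤ × ℤ)} {m L r a Λ Z D : ℕ} (hm : 1 ≤ m) (hB : InBox S m)
    (hL : m ≤ 2 ^ L) (hU : U ⊆ S) (hU0 : 0 < U.card) (hr : 1 ≤ r)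
    (hra : 2 * r ≤ (a + 1) * (a + 1))
    (hΛ : ((a + 1) * (a + 1) * m ^ (a + a)) ^ 2 ≤ 2 ^ Λ)
    (hZ : ∀ f : ℤ[X][X], f ≠ 0 → Deg f a a →
      (S.filter fun x => f.evalEval x.1 x.2 = 0).card ≤ Z)
    {Q : Finset (ℕ × ℕ)} (hQ : ∀ q ∈ Q, q.1.Prime ∧ 1 ≤ q.2) :
    ∑ x ∈ U, ∑ q ∈ Q, min (1 : ℝ) (r * ((nb U (D * q.1 ^ q.2) x : ℝ) / U.card)) ≤
      2 * (U.card * Λ + Z * (r * L)) := by
  classical
  set Ω := Fintype.piFinset fun _ : Fin r => U with hΩ
  have hN : (0 : ℝ) < U.card := by exact_mod_cast hU0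
  have hΩc : (Ω.card : ℝ) = (U.card : ℝ) ^ r := by
    rw [hΩ, Fintype.card_piFinset]; simp
  have h1 : ∑ A ∈ Ω, ∑ x ∈ U,
      ((Q.filter fun q => ∃ i, A i ≠ x ∧ Cong (D * q.1 ^ q.2) x (A i)).card : ℝ) ≤
      (U.card : ℝ) ^ r * (U.card * Λ + Z * (r * L)) := by
    rw [← hΩc, ← nsmul_eq_mul]
    apply sum_le_card_nsmul
    intro A hA
    exact_mod_cast walsh_fixed hm hB hL hU hr hra hΛ hZ hQ A (Fintype.mem_piFinset.1 hA)
  have h2 : ∀ x ∈ U, ∀ q ∈ Q,
      (U.card : ℝ) ^ r * (min (1 : ℝ) (r * ((nb U (D * q.1 ^ q.2) x : ℝ) / U.card)) / 2) ≤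
      ∑ A ∈ Ω, if ∃ i, A i ≠ x ∧ Cong (D * q.1 ^ q.2) x (A i) then (1 : ℝ) else 0 := by
    intro x _ q _
    rw [sum_boole]
    have e : (Ω.filter fun A => ∃ i, A i ≠ x ∧ Cong (D * q.1 ^ q.2) x (A i)) =
        Ω.filter fun A => ∃ i, A i ∈ U.filter fun z => z ≠ x ∧ Cong (D * q.1 ^ q.2) x z := by
      apply filter_congr
      intro A hA
      simp only [mem_filter, Fintype.mem_piFinset.1 hA, true_and]
    rw [e, hΩ, card_hit (filter_subset _ _)]
    have hle : (nb U (D * q.1 ^ q.2) x : ℝ) ≤ U.card := by exact_mod_cast nb_le _ _ _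
    have := one_sub_pow_ge (μ := (nb U (D * q.1 ^ q.2) x : ℝ) / U.card) (by positivity)
      ((div_le_one hN).2 hle) r
    have e2 : ((U.card : ℝ) - nb U (D * q.1 ^ q.2) x) ^ r =
        (U.card : ℝ) ^ r * (1 - (nb U (D * q.1 ^ q.2) x : ℝ) / U.card) ^ r := by
      rw [← mul_pow]; congr 1; field_simp
    change _ ≤ (U.card : ℝ) ^ r - ((U.card : ℝ) - nb U (D * q.1 ^ q.2) x) ^ r
    rw [e2, ← mul_one_sub]
    exact mul_le_mul_of_nonneg_left this (by positivity)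
  have h3 : (U.card : ℝ) ^ r * ((∑ x ∈ U, ∑ q ∈ Q,
      min (1 : ℝ) (r * ((nb U (D * q.1 ^ q.2) x : ℝ) / U.card))) / 2) ≤
      (U.card : ℝ) ^ r * (U.card * Λ + Z * (r * L)) := by
    refine le_trans ?_ h1
    rw [sum_comm (s := Ω), sum_div, mul_sum]
    refine sum_le_sum fun x hx => ?_
    rw [sum_div, mul_sum]
    refine (sum_le_sum fun q hq => h2 x hx q hq).trans (le_of_eq ?_)
    rw [sum_comm]
    refine sum_congr rfl fun A _ => ?_
    rw [sum_boole]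
  have := le_of_mul_le_mul_left h3 (by positivity)
  linarith

end Pool.Agent.Lib.MP_a147dc_co
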